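import Mathlib

set_option autoImplicit false

/-! Definitions for the proof that the sum of `1 / F_n` over an infinite set `A` of positive
integers with `∑ 1/n < ∞` (`n ∈ A`) is irrational. -/

noncomputable section

namespace Pool.Agent.Helper75.Fib

open Classical Finset

/-- The golden ratio. -/
def ph : ℝ := Real.goldenRatio

/-- The inverse of the golden ratio. -/
def rh : ℝ := (Real.goldenRatio)⁻¹

theorem ph_pos : 0 < ph := Real.goldenRatio_pos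
theorem one_lt_ph : 1 < ph := Real.one_lt_goldenRatio
theorem ph_lt_two : ph < 2 := Real.goldenRatio_lt_two
theorem ph_sq : ph ^ 2 = ph + 1 := Real.goldenRatio_sq
theorem rh_pos : 0 < rh := inv_pos.2 Real.goldenRatio_pos
theorem rh_lt_one : rh < 1 := inv_lt_one_of_one_lt₀ Real.one_lt_goldenRatio
theorem ph_mul_rh : ph * rh = 1 := mul_inv_cancel₀ Real.goldenRatio_ne_zero
theorem rh_eq : rh = ph - 1 := by
  have h1 := ph_mul_rh
  have h2 := ph_sq
  have h3 := ph_pos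
  have h4 : ph * rh = ph * (ph - 1) := by rw [h1]; linarith
  exact mul_left_cancel₀ h3.ne' h4
theorem rh_sq : rh ^ 2 = 1 - rh := by
  have h1 := rh_eq
  have h2 := ph_sq
  rw [h1]; linarith
theorem conj_eq : Real.goldenConj = -rh := by
  have h := Real.inv_goldenRatio
  unfold rh
  rw [h]; ring
theorem ph_zpow_neg (r : ℤ) : ph ^ (-r) = rh ^ r := by
  unfold ph rh
  rw [inv_zpow, zpow_neg]
theorem fib_eq (n : ℕ) : (Nat.fib n : ℝ) = (ph ^ n - (-rh) ^ n) / √5 := by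
  rw [Real.coe_fib_eq, conj_eq]; rfl

/-- The Fibonacci numbers with integer indices, as real numbers. -/
def fz (r : ℤ) : ℝ := (ph ^ r - (-rh) ^ r) / √5

/-- The number `± F_|r| / F_n` where `N = 2 n k + r`, `- n ≤ r < n`; it differs from `F_N / F_n`
by an integer. -/
def hh (n N : ℕ) : ℝ :=
  (-1) ^ (n * ((N + n) / (2 * n))) *
    fz ((N : ℤ) - 2 * (n : ℤ) * (((N + n) / (2 * n) : ℕ) : ℤ)) / (Nat.fib n : ℝ)

/-- The sign of `n`. -/
def sg (n : ℕ) : ℤ := if Even n then 1 else (-1) ^ (n / 2)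

/-- The signed number of the `m ∈ A`, `m ≤ Z`, `w ∣ m`, with `m ∣ x` and `x / m` odd. -/
def Dl (A : Set ℕ) (Z w x : ℕ) : ℤ :=
  ∑ m ∈ (range (Z + 1)).filter (fun m => m ∈ A ∧ w ∣ m ∧ m ∣ x ∧ Odd (x / m)), sg m

/-- Sum of `ρ ^ |m - X|` over the positive multiples `m` of `n` at distance at least `W`. -/
def gg (n W X : ℕ) : ENNReal :=
  ∑' m : ℕ, if 1 ≤ m ∧ n ∣ m ∧ W ≤ Nat.dist m X then ENNReal.ofReal (rh ^ Nat.dist m X) else 0

/-- The error term of `n`. -/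
def En (Z W x h n : ℕ) : ENNReal :=
  if n ≤ Z then gg n W x + gg n W (x + h) else gg n 0 x + gg n 0 (x + h)

/-- The total error term. -/
def EE (A : Set ℕ) (Z W x h : ℕ) : ENNReal := ∑' n : ℕ, if n ∈ A then En Z W x h n else 0

/-- The sum of `1/n` over `A`. -/
def SS (A : Set ℕ) : ℝ := ∑' n : ℕ, if n ∈ A then 1 / (n : ℝ) else 0

/-- The sum of `1/n` over the elements `n > Z` of `A`. -/
def Tl (A : Set ℕ) (Z : ℕ) : ℝ := ∑' n : ℕ, if n ∈ A ∧ Z < n then 1 / (n : ℝ) else 0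

/-- The sum of `hh n N` over `A`. -/
def Y (A : Set ℕ) (N : ℕ) : ℝ := ∑' n : ℕ, if n ∈ A then hh n N else 0

/-- Consequence of the rationality of the sum. -/
def RatHyp (A : Set ℕ) (Q : ℕ) : Prop :=
  ∀ N : ℕ, (Summable fun n : ℕ => if n ∈ A then hh n N else 0) ∧ ∃ z : ℤ, (Q : ℝ) * Y A N = z

/-- The number of `x ∈ [M, 2M)` with `n ∣ x` and `x / n` prime to `P`. -/
def cnt (n P M : ℕ) : ℕ := #((Ico M (2 * M)).filter (fun x => n ∣ x ∧ Nat.Coprime (x / n) P))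

/-- The number of those `x` with `Dl A Z 1 x ≠ Dl A Z 1 n`. -/
def bad (A : Set ℕ) (Z n P M : ℕ) : ℕ :=
  #((Ico M (2 * M)).filter (fun x => n ∣ x ∧ Nat.Coprime (x / n) P ∧ Dl A Z 1 x ≠ Dl A Z 1 n))

/-- Divisibility assumption on the modulus. -/
def Mok (n Z M : ℕ) : Prop := 0 < n ∧ 0 < M ∧ 4 * n * (Z.factorial) ^ 2 ∣ M

/-- The bound for the contribution of the prime `p` to the recursion. -/
def tm (A : Set ℕ) (Q Z n p : ℕ) : ℝ :=
  8 * ph ^ 3 * (Q : ℝ) ^ 2 * (21 / 20 : ℝ) ^ p *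
      (12 * (1 + p) * ((((p - 1) / 2 : ℕ) : ℝ) + 1) * rh ^ ((p - 1) / 2) * SS A +
        65 * n * p * Tl A Z) +
    n * p * (SS A / (21 / 20 : ℝ) ^ p)

/-- Existence of a suitable element of `A` with a large odd prime power divisor. -/
def Good (A : Set ℕ) (q₁ : ℕ) : Prop :=
  ∃ p e n₀ : ℕ, p.Prime ∧ p ≠ 2 ∧ 1 ≤ e ∧ q₁ ≤ p ^ e ∧ n₀ ∈ A ∧ p ^ e ∣ n₀ ∧
    (∀ r : ℕ, r.Prime → r ∣ n₀ → r ≤ p ^ e) ∧
      (n₀ : ℝ) ^ 4 ≤ (21 / 20 : ℝ) ^ ⌊(21 / 20 : ℝ) ^ (p ^ e)⌋₊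

end Pool.Agent.Helper75.Fib
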