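import Pool.Agent.Helper75.Fib.Defs

set_option autoImplicit false

/-! Definitions for the proof that the sum of `1 / F_n` over an infinite set `A` of positive
integers with `∑ 1/n < ∞` (`n ∈ A`) is irrational. -/

noncomputable section

namespace Pool.Agent.Helper75.Fib
open Classical Finset


theorem D_shift {A : Set ℕ} (h0 : 0 ∉ A) {Z M p x h H : ℕ} (hp : p.Prime) (hp2 : p ≠ 2)
    (hZ : ∀ m : ℕ, m ≤ Z → m ≠ 0 → 4 * m ∣ M) (hpx : p ∣ x)
    (hh1 : ∀ m : ℕ, m ∣ M → ¬ p ∣ m → m ∣ h) (hh2 : ¬ p ∣ h)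
    (hH1 : ∀ m : ℕ, m ∣ M → ¬ p ∣ m → m ∣ H) (hH2 : ¬ p ∣ H) :
    Dl A Z 1 (x + h) = Dl A Z 1 (x + H) := by
  have key : ∀ m : ℕ, m ≤ Z → m ∈ A → ∀ g : ℕ, (∀ m : ℕ, m ∣ M → ¬ p ∣ m → m ∣ g) → ¬ p ∣ g →
      ((m ∣ x + g ∧ Odd ((x + g) / m)) ↔ (¬ p ∣ m ∧ m ∣ x ∧ Odd (x / m))) := by
    intro m hmZ hmA g hg1 hg2
    have hm0 : m ≠ 0 := by rintro rfl; exact h0 hmA
    by_cases hpm : p ∣ m
    · constructor
      · rintro ⟨h1, _⟩
        exact absurd ((Nat.dvd_add_right hpx).1 (hpm.trans h1)) hg2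
      · rintro ⟨h1, _⟩
        exact absurd hpm h1
    · have h4 : ¬ p ∣ 4 * m := by
        intro hd
        rcases hp.dvd_mul.1 hd with hd | hd
        · have : p ∣ 2 ^ 2 := by norm_num; exact hd
          have h2 := hp.dvd_of_dvd_pow this
          exact hp2 ((Nat.prime_dvd_prime_iff_eq hp Nat.prime_two).1 h2)
        · exact hpm hd
      obtain ⟨a, ha⟩ := hg1 (4 * m) (hZ m hmZ hm0) h4
      have hmg : m ∣ g := ⟨4 * a, by rw [ha]; ring⟩
      have hdv : m ∣ x + g ↔ m ∣ x := (Nat.dvd_add_left hmg)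
      have hq : (x + g) / m = x / m + 4 * a := by
        rw [ha, show x + 4 * m * a = x + m * (4 * a) by ring]
        exact Nat.add_mul_div_left _ _ (Nat.pos_of_ne_zero hm0)
      rw [hdv, hq]
      have hodd : Odd (x / m + 4 * a) ↔ Odd (x / m) := by
        rw [Nat.odd_iff, Nat.odd_iff]; omega
      rw [hodd]
      constructor
      · rintro ⟨h1, h2⟩; exact ⟨hpm, h1, h2⟩
      · rintro ⟨_, h1, h2⟩; exact ⟨h1, h2⟩
  unfold Dl
  apply Finset.sum_congr _ (fun _ _ => rfl)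
  apply Finset.filter_congr
  intro m hm
  have hmZ : m ≤ Z := by
    have := Finset.mem_range.1 hm
    omega
  constructor
  · rintro ⟨h1, h2, h3⟩
    exact ⟨h1, h2, (key m hmZ h1 H hH1 hH2).2 ((key m hmZ h1 h hh1 hh2).1 h3)⟩
  · rintro ⟨h1, h2, h3⟩
    exact ⟨h1, h2, (key m hmZ h1 h hh1 hh2).2 ((key m hmZ h1 H hH1 hH2).1 h3)⟩

end Pool.Agent.Helper75.Fib
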