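import Pool.Agent.Helper75.Fib.Defs

set_option autoImplicit false

/-! Definitions for the proof that the sum of `1 / F_n` over an infinite set `A` of positive
integers with `∑ 1/n < ∞` (`n ∈ A`) is irrational. -/

noncomputable section

namespace Pool.Agent.Helper75.Fib
open Classical Finset


theorem Dl_periodic {A : Set ℕ} (h0 : 0 ∉ A) {Z M : ℕ}
    (hZ : ∀ m : ℕ, m ≤ Z → m ≠ 0 → 4 * m ∣ M) (x : ℕ) : Dl A Z 1 (x + M) = Dl A Z 1 x := by
  unfold Dl
  have key : (range (Z + 1)).filter (fun m => m ∈ A ∧ 1 ∣ m ∧ m ∣ x + M ∧ Odd ((x + M) / m)) =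
      (range (Z + 1)).filter (fun m => m ∈ A ∧ 1 ∣ m ∧ m ∣ x ∧ Odd (x / m)) := by
    refine Finset.filter_congr fun m hm => ?_
    refine and_congr_right fun hmA => and_congr_right fun _ => ?_
    have hm0 : m ≠ 0 := fun h => h0 (h ▸ hmA)
    have hmZ : m ≤ Z := by
      have := Finset.mem_range.1 hm
      omega
    obtain ⟨k, hk⟩ := hZ m hmZ hm0
    have hM : M = m * (2 * (2 * k)) := by rw [hk]; ring
    have h1 : m ∣ x + M ↔ m ∣ x := by
      rw [hM]
      exact (Nat.dvd_add_left (Dvd.intro _ rfl))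
    have h2 : (x + M) / m = x / m + 2 * (2 * k) := by
      rw [hM, Nat.add_mul_div_left _ _ (Nat.pos_of_ne_zero hm0)]
    rw [h1, h2]
    refine and_congr_right fun _ => ?_
    generalize x / m = q
    constructor
    · rintro ⟨a, ha⟩
      exact ⟨a - 2 * k, by omega⟩
    · rintro ⟨a, ha⟩
      exact ⟨a + 2 * k, by omega⟩
  rw [key]

end Pool.Agent.Helper75.Fib
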