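import Pool.Agent.Helper75.Fib.Defs

set_option autoImplicit false

/-! Definitions for the proof that the sum of `1 / F_n` over an infinite set `A` of positive
integers with `∑ 1/n < ∞` (`n ∈ A`) is irrational. -/

noncomputable section

namespace Pool.Agent.Helper75.Fib
open Classical Finset


theorem per_count {M : ℕ} (p : ℕ → Prop) (hp : ∀ x : ℕ, p (x + M) ↔ p x) (a b : ℕ) :
    #((Ico a (a + M)).filter p) = #((Ico b (b + M)).filter p) := by
  have h : Function.Periodic p M := fun x => propext (hp x)
  rw [Nat.filter_Ico_card_eq_of_periodic a M p h, Nat.filter_Ico_card_eq_of_periodic b M p h]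

end Pool.Agent.Helper75.Fib
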