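import Pool.Agent.Helper75.Fib.Defs
import Pool.Agent.Helper75.Fib.P_per_count
import Pool.Agent.Helper75.Fib.P_Dl_periodic

set_option autoImplicit false

/-! Definitions for the proof that the sum of `1 / F_n` over an infinite set `A` of positive
integers with `∑ 1/n < ∞` (`n ∈ A`) is irrational. -/

noncomputable section

namespace Pool.Agent.Helper75.Fib
open Classical Finset


theorem bad_periodic {A : Set ℕ} (h0 : 0 ∉ A) {Z n P M : ℕ} (hn : 0 < n) (hP : 0 < P)
    (h : n * P ∣ M) (hM : 0 < M) (hZ : ∀ m : ℕ, m ≤ Z → m ≠ 0 → 4 * m ∣ M) (c : ℕ) :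
    #((Ico c (c + M)).filter
      (fun x => n ∣ x ∧ Nat.Coprime (x / n) P ∧ Dl A Z 1 x ≠ Dl A Z 1 n)) = bad A Z n P M := by
  have key := per_count (M := M)
    (fun x => n ∣ x ∧ Nat.Coprime (x / n) P ∧ Dl A Z 1 x ≠ Dl A Z 1 n) (by
      intro x
      have h1 : n ∣ x + M ↔ n ∣ x := by
        have hnM : n ∣ M := (Dvd.intro _ rfl).trans h
        exact (Nat.dvd_add_left hnM)
      have h2 : Nat.Coprime ((x + M) / n) P ↔ Nat.Coprime (x / n) P := by
        obtain ⟨k, hk⟩ := h
        rw [hk, mul_assoc, Nat.add_mul_div_left _ _ hn]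
        exact Nat.coprime_add_mul_left_left _ _ _
      rw [h1, h2, Dl_periodic h0 hZ]) c M
  unfold bad
  rw [two_mul]
  convert key

end Pool.Agent.Helper75.Fib
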