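import Pool.Agent.Helper75.Fib.Defs
import Pool.Agent.Helper75.Fib.P_bad_periodic

set_option autoImplicit false

/-! Definitions for the proof that the sum of `1 / F_n` over an infinite set `A` of positive
integers with `∑ 1/n < ∞` (`n ∈ A`) is irrational. -/

noncomputable section

namespace Pool.Agent.Helper75.Fib
open Classical Finset


theorem alpha_B2 {A : Set ℕ} (h0 : 0 ∉ A) {Z n₁ p e M h v : ℕ} (hp : p.Prime) (hp2 : p ≠ 2)
    (he : 1 ≤ e) (hpe : p ^ e ∣ n₁) (hpe' : ¬ p ^ (e + 1) ∣ n₁) (hv : p ≤ v)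
    (hvZ : v ≤ Z) (hM : Mok n₁ Z M) (hh1 : ∀ n : ℕ, n ∣ M → ¬ p ^ e ∣ n → n ∣ h)
    (hh2 : ¬ p ^ e ∣ h) :
    #((Ico M (2 * M)).filter (fun x => n₁ ∣ x ∧ Nat.Coprime (x / n₁) (primorial v) ∧
      Dl A Z 1 (x + h) ≠ Dl A Z 1 (n₁ / p))) ≤ bad A Z (n₁ / p) (primorial v) M := by
  obtain ⟨hn1, hM0, hMd⟩ := hM
  have hpn : p ∣ n₁ := dvd_trans (dvd_pow_self p (by omega)) hpe
  obtain ⟨n', hn'⟩ := hpn
  have hn'' : n₁ / p = n' := by
    rw [hn']
    exact Nat.mul_div_cancel_left _ hp.pos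
  rw [hn'']
  have hn'0 : 0 < n' := by
    apply Nat.pos_of_ne_zero
    intro h1
    rw [h1, mul_zero] at hn'
    omega
  have hn'n : n' ∣ n₁ := ⟨p, by rw [hn', mul_comm]⟩
  have hpn' : ¬ p ^ e ∣ n' := fun h1 => hpe' (by
    rw [pow_succ, hn', mul_comm p n']
    exact mul_dvd_mul_right h1 p)
  have hn1M : n₁ ∣ M := dvd_trans ⟨4 * Z.factorial ^ 2, by ring⟩ hMd
  have hn'h : n' ∣ h := hh1 n' (hn'n.trans hn1M) hpn'
  have hZ1 : n' * Z.factorial ∣ M :=
    (mul_dvd_mul_right hn'n _).trans (dvd_trans ⟨4 * Z.factorial, by ring⟩ hMd)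
  have hrM : ∀ r, 0 < r → r ≤ Z → n' * r ∣ M := fun r h1 h2 =>
    (mul_dvd_mul_left n' (Nat.dvd_factorial h1 h2)).trans hZ1
  obtain ⟨q, hq⟩ := hn'h
  have hrq : ∀ r : ℕ, r.Prime → r ≤ v → r ≠ p → r ∣ q := by
    intro r hr hrv hrp
    have h1 : n' * r ∣ h := by
      refine hh1 _ (hrM r hr.pos (hrv.trans hvZ)) fun h2 => hpn' ?_
      have hcop : Nat.Coprime (p ^ e) r :=
        Nat.Coprime.pow_left e ((Nat.coprime_primes hp hr).2 (Ne.symm hrp))
      exact hcop.dvd_of_dvd_mul_right h2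
    rw [hq] at h1
    exact Nat.dvd_of_mul_dvd_mul_left hn'0 h1
  have hpq : ¬ p ∣ q := by
    intro h1
    apply hh2
    refine hpe.trans ?_
    rw [hq, hn', mul_comm p n']
    exact mul_dvd_mul_left n' h1
  have hPd : primorial v ∣ Z.factorial := by
    refine Finset.prod_primes_dvd _ ?_ ?_
    · intro r hr
      exact (Finset.mem_filter.1 hr).2.prime
    · intro r hr
      obtain ⟨h1, h2⟩ := Finset.mem_filter.1 hr
      exact Nat.dvd_factorial h2.pos (by have := Finset.mem_range.1 h1; omega)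
  have hbad := bad_periodic (A := A) h0 (Z := Z) (n := n') (P := primorial v) (M := M) hn'0
    (primorial_pos v) ((mul_dvd_mul_left n' hPd).trans hZ1) hM0 (by
      intro m hm hm0
      have h1 : m ∣ Z.factorial := Nat.dvd_factorial (Nat.pos_of_ne_zero hm0) hm
      refine (mul_dvd_mul_left 4 h1).trans (dvd_trans ⟨n₁ * Z.factorial, by ring⟩ hMd)) (M + h)
  rw [← hbad]
  refine Finset.card_le_card_of_injOn (fun x => x + h) ?_ ?_
  · intro x hx
    have hx' := Finset.mem_filter.1 (Finset.mem_coe.1 hx)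
    obtain ⟨hxI, hxn, hxc, hxD⟩ := hx'
    rw [Finset.mem_Ico] at hxI
    have hdiv : (x + h) / n' = p * (x / n₁) + q := by
      obtain ⟨y, rfl⟩ := hxn
      rw [Nat.mul_div_cancel_left _ hn1, hn', hq]
      have h1 : p * n' * y + n' * q = n' * (p * y + q) := by ring
      rw [h1, Nat.mul_div_cancel_left _ hn'0]
    apply Finset.mem_coe.2
    change x + h ∈ _
    refine Finset.mem_filter.2 ⟨Finset.mem_Ico.2 ⟨by omega, by omega⟩, ?_, ?_, hxD⟩
    · exact dvd_add (hn'n.trans hxn) ⟨q, hq⟩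
    · rw [hdiv]
      apply Nat.Coprime.symm
      apply Nat.coprime_of_dvd
      intro r hr hrP hrd
      have hrv : r ≤ v := by
        unfold primorial at hrP
        rw [(Nat.Prime.prime hr).dvd_finsetProd_iff] at hrP
        obtain ⟨r', hr', hrr'⟩ := hrP
        obtain ⟨h1, h2⟩ := Finset.mem_filter.1 hr'
        rw [(Nat.prime_dvd_prime_iff_eq hr h2).1 hrr']
        have := Finset.mem_range.1 h1
        omega
      by_cases hrp : r = p
      · subst hrp
        exact hpq ((Nat.dvd_add_right (dvd_mul_right _ _)).1 hrd)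
      · have h1 := hrq r hr hrv hrp
        have h2 : r ∣ p * (x / n₁) := (Nat.dvd_add_left h1).1 hrd
        have h3 : r ∣ x / n₁ := by
          rcases (Nat.Prime.dvd_mul hr).1 h2 with h4 | h4
          · exact absurd ((Nat.prime_dvd_prime_iff_eq hr hp).1 h4) hrp
          · exact h4
        have h4 := Nat.dvd_gcd h3 hrP
        rw [hxc] at h4
        exact hr.one_lt.ne' (Nat.dvd_one.1 h4)
  · intro x _ y _ hxy
    exact Nat.add_right_cancel hxy

end Pool.Agent.Helper75.Fib
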