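import Pool.Agent.Helper75.Fib.Defs

set_option autoImplicit false

/-! Definitions for the proof that the sum of `1 / F_n` over an infinite set `A` of positive
integers with `∑ 1/n < ∞` (`n ∈ A`) is irrational. -/

noncomputable section

namespace Pool.Agent.Helper75.Fib
open Classical Finset


theorem alpha_D {A : Set ℕ} (h0 : 0 ∉ A) {Z n₁ p e : ℕ} (hp : p.Prime) (hp2 : p ≠ 2) (he : 1 ≤ e)
    (hA : n₁ ∈ A) (hZ : n₁ ≤ Z) (hpe : p ^ e ∣ n₁) (hpe' : ¬ p ^ (e + 1) ∣ n₁)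
    (hmin : ∀ m : ℕ, m ∈ A → p ^ e ∣ m → m ∣ n₁ → Odd (n₁ / m) → m = n₁) :
    Dl A Z 1 n₁ = Dl A Z 1 (n₁ / p) + sg n₁ := by
  have hn1 : 0 < n₁ := Nat.pos_of_ne_zero fun h => h0 (h ▸ hA)
  have hpn : p ∣ n₁ := (dvd_pow_self p (by omega)).trans hpe
  obtain ⟨n', hn'⟩ := hpn
  have hpp := hp.pos
  have hn'0 : 0 < n' := by
    rcases Nat.eq_zero_or_pos n' with h | h
    · rw [h, mul_zero] at hn'
      omega
    · exact h
  have hdiv : n₁ / p = n' := by rw [hn', Nat.mul_div_cancel_left _ hpp]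
  have hodd : Odd p := hp.odd_of_ne_two hp2
  have hp1 := hp.two_le
  have hlt : n' < n₁ := by rw [hn']; nlinarith
  -- quotients
  have hq : ∀ m, m ∣ n' → n₁ / m = p * (n' / m) := by
    intro m hm
    rw [hn', Nat.mul_div_assoc _ hm]
  have hfil : (range (Z + 1)).filter (fun m => m ∈ A ∧ 1 ∣ m ∧ m ∣ n₁ ∧ Odd (n₁ / m)) =
      insert n₁ ((range (Z + 1)).filter (fun m => m ∈ A ∧ 1 ∣ m ∧ m ∣ n' ∧ Odd (n' / m))) := by
    ext m
    rw [mem_insert, mem_filter, mem_filter]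
    constructor
    · rintro ⟨hm1, hm2, _, hm4, hm5⟩
      by_cases hmn : m ∣ n'
      · right
        refine ⟨hm1, hm2, one_dvd _, hmn, ?_⟩
        rw [hq m hmn, Nat.odd_mul] at hm5
        exact hm5.2
      · left
        obtain ⟨k, hk⟩ := hm4
        have hm0 : 0 < m := Nat.pos_of_ne_zero fun h => h0 (h ▸ hm2)
        have hpk : ¬ p ∣ k := by
          rintro ⟨k', rfl⟩
          apply hmn
          refine ⟨k', ?_⟩
          apply Nat.eq_of_mul_eq_mul_left hpp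
          rw [← hn', hk]
          ring
        have hcop : Nat.Coprime (p ^ e) k := Nat.Coprime.pow_left e ((Nat.Prime.coprime_iff_not_dvd hp).2 hpk)
        have hpm : p ^ e ∣ m := hcop.dvd_of_dvd_mul_right (by rw [← hk]; exact hpe)
        exact hmin m hm2 hpm ⟨k, hk⟩ hm5
    · rintro (rfl | ⟨hm1, hm2, _, hm4, hm5⟩)
      · refine ⟨mem_range.2 (by omega), hA, one_dvd _, dvd_rfl, ?_⟩
        rw [Nat.div_self hn1]
        exact odd_one
      · refine ⟨hm1, hm2, one_dvd _, hm4.trans ⟨p, by rw [hn']; ring⟩, ?_⟩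
        rw [hq m hm4, Nat.odd_mul]
        exact ⟨hodd, hm5⟩
  have hnot : n₁ ∉ (range (Z + 1)).filter (fun m => m ∈ A ∧ 1 ∣ m ∧ m ∣ n' ∧ Odd (n' / m)) := by
    rw [mem_filter]
    rintro ⟨_, _, _, h, _⟩
    exact absurd (Nat.le_of_dvd hn'0 h) (not_le.2 hlt)
  unfold Dl
  rw [hdiv, hfil, sum_insert hnot, add_comm]

end Pool.Agent.Helper75.Fib
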