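import Pool.Agent.Helper75.Fib.Defs

set_option autoImplicit false

/-! Definitions for the proof that the sum of `1 / F_n` over an infinite set `A` of positive
integers with `∑ 1/n < ∞` (`n ∈ A`) is irrational. -/

noncomputable section

namespace Pool.Agent.Helper75.Fib
open Classical Finset


theorem count_formula_aux20064 (P b c : ℕ) :
    #((Ico b (b + P * c)).filter (fun z => Nat.Coprime z P)) = c * Nat.totient P := by
  induction c with
  | zero => simp
  | succ c ih =>
    have h1 : Ico b (b + P * (c + 1)) = Ico b (b + P * c) ∪ Ico (b + P * c) (b + P * c + P) := by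
      rw [Finset.Ico_union_Ico_eq_Ico (by omega) (by omega)]
      congr 1
      ring
    rw [h1, Finset.filter_union, Finset.card_union_of_disjoint]
    · rw [ih, Nat.succ_mul]
      congr 1
      have h2 := Nat.filter_coprime_Ico_eq_totient P (b + P * c)
      rw [← h2]
      congr 1
      apply Finset.filter_congr
      intro x _
      exact Nat.coprime_comm
    · apply Finset.disjoint_filter_filter
      rw [Finset.disjoint_left]
      intro x hx hx'
      rw [Finset.mem_Ico] at hx hx'
      omega

theorem count_formula {n P M : ℕ} (hn : 0 < n) (hP : 0 < P) (h : n * P ∣ M) (a : ℕ) :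
    #((Ico a (a + M)).filter (fun x => n ∣ x ∧ Nat.Coprime (x / n) P)) * (n * P) =
      M * Nat.totient P := by
  obtain ⟨c, hc⟩ := h
  have h1 : (Ico a (a + M)).filter (fun x => n ∣ x ∧ Nat.Coprime (x / n) P) =
      ((Ico ((a + n - 1) / n) ((a + n - 1) / n + P * c)).filter (fun z => Nat.Coprime z P)).image
        (fun z => n * z) := by
    ext x
    simp only [Finset.mem_filter, Finset.mem_Ico, Finset.mem_image]
    constructor
    · rintro ⟨⟨h1, h2⟩, ⟨z, rfl⟩, h3⟩
      rw [Nat.mul_div_cancel_left z hn] at h3
      refine ⟨z, ⟨⟨?_, ?_⟩, h3⟩, rfl⟩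
      · have h4 : (a + n - 1) / n < z + 1 := by
          rw [Nat.div_lt_iff_lt_mul hn]
          have : (z + 1) * n = n * z + n := by ring
          omega
        omega
      · have h4 : z - P * c < (a + n - 1) / n ∨ z < P * c := by
          by_cases h5 : z < P * c
          · exact Or.inr h5
          · left
            rw [not_lt] at h5
            obtain ⟨t, rfl⟩ := Nat.exists_eq_add_of_le h5
            rw [Nat.add_sub_cancel_left]
            have h6 : n * t < a := by
              rw [hc] at h2
              have : n * (P * c + t) = n * P * c + n * t := by ring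
              omega
            rw [Nat.lt_iff_add_one_le, Nat.le_div_iff_mul_le hn]
            have : (t + 1) * n = n * t + n := by ring
            omega
        rcases h4 with h4 | h4
        · omega
        · exact lt_of_lt_of_le h4 (Nat.le_add_left _ _)
    · rintro ⟨z, ⟨⟨h1, h2⟩, h3⟩, rfl⟩
      refine ⟨⟨?_, ?_⟩, dvd_mul_right n z, ?_⟩
      · have h4 := Nat.lt_mul_div_succ (a + n - 1) hn
        have h5 : n * ((a + n - 1) / n + 1) ≤ n * (z + 1) := Nat.mul_le_mul_left n (by omega)
        have : n * (z + 1) = n * z + n := by ring
        omega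
      · have h4 := Nat.mul_div_le (a + n - 1) n
        have h5 : n * (z + 1) ≤ n * ((a + n - 1) / n + P * c) := Nat.mul_le_mul_left n (by omega)
        have h6 : n * ((a + n - 1) / n + P * c) = n * ((a + n - 1) / n) + n * P * c := by ring
        have : n * (z + 1) = n * z + n := by ring
        omega
      · rw [Nat.mul_div_cancel_left z hn]
        exact h3
  rw [h1, Finset.card_image_of_injective _ (fun x y hxy => Nat.eq_of_mul_eq_mul_left hn hxy),
    count_formula_aux20064, hc]
  ring

end Pool.Agent.Helper75.Fib
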