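import Pool.Agent.Helper75.Fib.Defs

set_option autoImplicit false

/-! Definitions for the proof that the sum of `1 / F_n` over an infinite set `A` of positive
integers with `∑ 1/n < ∞` (`n ∈ A`) is irrational. -/

noncomputable section

namespace Pool.Agent.Helper75.Fib
open Classical Finset


theorem diffD {A : Set ℕ} (h0 : 0 ∉ A) {Z w x h : ℕ} (hx : 0 < x) (hw : w ∣ x) (hwh : ¬ w ∣ h)
    (hdvd : ∀ n : ℕ, n ∈ A → n ≤ Z → ¬ w ∣ n → 4 * n ∣ h) :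
    Dl A Z 1 x = Dl A Z 1 (x + h) + Dl A Z w x := by
  unfold Dl
  rw [Finset.sum_filter, Finset.sum_filter, Finset.sum_filter, ← Finset.sum_add_distrib]
  apply Finset.sum_congr rfl
  intro m hm
  have hmZ : m ≤ Z := Nat.lt_succ_iff.1 (Finset.mem_range.1 hm)
  by_cases hmA : m ∈ A
  · have hm0 : 0 < m := Nat.pos_of_ne_zero (fun h => h0 (h ▸ hmA))
    by_cases hwm : w ∣ m
    · have h1 : ¬ (m ∈ A ∧ 1 ∣ m ∧ m ∣ x + h ∧ Odd ((x + h) / m)) := by
        rintro ⟨_, _, h2, _⟩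
        apply hwh
        exact (Nat.dvd_add_right hw).1 (dvd_trans hwm h2)
      rw [if_neg h1, zero_add]
      have h2 : (m ∈ A ∧ 1 ∣ m ∧ m ∣ x ∧ Odd (x / m)) ↔ (m ∈ A ∧ w ∣ m ∧ m ∣ x ∧ Odd (x / m)) := by
        simp [hwm]
      by_cases h3 : (m ∈ A ∧ w ∣ m ∧ m ∣ x ∧ Odd (x / m))
      · rw [if_pos h3, if_pos (h2.2 h3)]
      · rw [if_neg h3, if_neg (fun h => h3 (h2.1 h))]
    · have h1 : ¬ (m ∈ A ∧ w ∣ m ∧ m ∣ x ∧ Odd (x / m)) := fun h => hwm h.2.1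
      rw [if_neg h1, add_zero]
      obtain ⟨k, hk⟩ := hdvd m hmA hmZ hwm
      have h2 : m ∣ x + h ↔ m ∣ x := by
        rw [hk]
        exact Nat.dvd_add_left (dvd_trans (Dvd.intro_left 4 rfl) (Dvd.intro k rfl))
      have h3 : (x + h) / m = x / m + 4 * k := by
        have : x + h = x + m * (4 * k) := by rw [hk]; ring
        rw [this, Nat.add_mul_div_left _ _ hm0]
      have h4 : Odd ((x + h) / m) ↔ Odd (x / m) := by
        rw [h3, Nat.odd_add]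
        have : Even (4 * k) := ⟨2 * k, by ring⟩
        simp [this]
      by_cases h5 : (m ∈ A ∧ 1 ∣ m ∧ m ∣ x ∧ Odd (x / m))
      · rw [if_pos h5, if_pos ⟨h5.1, h5.2.1, h2.2 h5.2.2.1, h4.2 h5.2.2.2⟩]
      · rw [if_neg h5, if_neg (fun h => h5 ⟨h.1, h.2.1, h2.1 h.2.2.1, h4.1 h.2.2.2⟩)]
  · rw [if_neg (fun h => hmA h.1), if_neg (fun h => hmA h.1), if_neg (fun h => hmA h.1), add_zero]

end Pool.Agent.Helper75.Fib
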