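import Pool.Agent.Helper75.Fib.Defs

set_option autoImplicit false

/-! Definitions for the proof that the sum of `1 / F_n` over an infinite set `A` of positive
integers with `∑ 1/n < ∞` (`n ∈ A`) is irrational. -/

noncomputable section

namespace Pool.Agent.Helper75.Fib
open Classical Finset


theorem primorial_ratio {v : ℕ} (hv : 1 ≤ v) : primorial v ≤ v * Nat.totient (primorial v) := by
  induction v, hv using Nat.le_induction with
  | base => decide
  | succ v hv ih =>
    by_cases hp : (v + 1).Prime
    · have h1 : primorial (v + 1) = (v + 1) * primorial v := by
        unfold primorial
        rw [Finset.range_add_one (n := v + 1), Finset.filter_insert, if_pos hp,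
          Finset.prod_insert (by simp)]
      have h2 : Nat.Coprime (v + 1) (primorial v) := by
        unfold primorial
        apply Nat.Coprime.prod_right
        intro p hp2
        rw [Finset.mem_filter, Finset.mem_range] at hp2
        exact (Nat.coprime_primes hp hp2.2).mpr (by omega)
      rw [h1, Nat.totient_mul h2, Nat.totient_prime hp, Nat.add_sub_cancel]
      exact Nat.mul_le_mul_left _ ih
    · have h1 : primorial (v + 1) = primorial v := by
        unfold primorial
        rw [Finset.range_add_one (n := v + 1), Finset.filter_insert, if_neg hp]
      rw [h1]
      exact ih.trans (Nat.mul_le_mul_right _ (Nat.le_succ v))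

end Pool.Agent.Helper75.Fib
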