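import Pool.Agent.Helper75.Fib.Defs

set_option autoImplicit false

/-! Definitions for the proof that the sum of `1 / F_n` over an infinite set `A` of positive
integers with `∑ 1/n < ∞` (`n ∈ A`) is irrational. -/

noncomputable section

namespace Pool.Agent.Helper75.Fib
open Classical Finset


theorem shift {p M e : ℕ} (hp : p.Prime) (hp2 : p ≠ 2) (hM : 0 < M) (he : 1 ≤ e)
    (hpe : p ^ e ∣ M) :
    ∃ h : ℕ, h < M ∧ (∀ n : ℕ, n ∣ M → ¬ p ^ e ∣ n → n ∣ h) ∧
      ∀ m : ℕ, p ^ e ∣ m → p ^ (e - 1) * ((p - 1) / 2) ≤ Nat.dist m h := by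
  obtain ⟨k, M', hpM', hMeq⟩ := Nat.exists_eq_pow_mul_and_not_dvd hM.ne' p hp.ne_one
  have hcop : ∀ j, Nat.Coprime (p ^ j) M' := fun j =>
    Nat.Coprime.pow_left j ((Nat.Prime.coprime_iff_not_dvd hp).2 hpM')
  have hek : e ≤ k := by
    rw [hMeq] at hpe
    have h1 : p ^ e ∣ p ^ k := (hcop e).dvd_of_dvd_mul_right hpe
    exact (Nat.pow_dvd_pow_iff_le_right hp.one_lt).1 h1
  have hM'0 : M' ≠ 0 := by
    rintro rfl
    exact hpM' (dvd_zero p)
  set u := (p - 1) / 2 with hu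
  have hpu : p = 2 * u + 1 := by
    have := hp.eq_two_or_odd'.resolve_left hp2
    obtain ⟨r, hr⟩ := this
    omega
  obtain ⟨h, hh1, hh2⟩ : {h // h ≡ u * p ^ (e - 1) [MOD p ^ k] ∧ h ≡ 0 [MOD M']} :=
    Nat.chineseRemainder (hcop k) (u * p ^ (e - 1)) 0
  refine ⟨h % M, Nat.mod_lt _ hM, ?_, ?_⟩
  · intro n hn hnp
    have hn0 : n ≠ 0 := fun h0 => hM.ne' (Nat.eq_zero_of_zero_dvd (h0 ▸ hn))
    have hnh : n ∣ h := by
      obtain ⟨v, n', hpn', hneq⟩ := Nat.exists_eq_pow_mul_and_not_dvd hn0 p hp.ne_one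
      have hv : v ≤ e - 1 := by
        by_contra hc
        push Not at hc
        exact hnp (hneq ▸ Dvd.dvd.mul_right (pow_dvd_pow p (by omega)) n')
      have hc' : ∀ j, Nat.Coprime n' (p ^ j) := fun j =>
        (Nat.Coprime.pow_left j ((Nat.Prime.coprime_iff_not_dvd hp).2 hpn')).symm
      have hn'M : n' ∣ M' := by
        have h1 : n' ∣ p ^ k * M' := hMeq ▸ (dvd_trans (Dvd.intro_left _ hneq.symm) hn)
        exact (hc' k).dvd_of_dvd_mul_left h1
      have hn'h : n' ∣ h := (Nat.ModEq.dvd_iff hh2 hn'M).2 (dvd_zero _)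
      have hpvh : p ^ v ∣ h := by
        refine (Nat.ModEq.dvd_iff hh1 (pow_dvd_pow p (by omega))).2 ?_
        exact Dvd.dvd.mul_left (pow_dvd_pow p hv) u
      rw [hneq]
      exact Nat.Coprime.mul_dvd_of_dvd_of_dvd (hc' v).symm hpvh hn'h
    exact (Nat.dvd_mod_iff hn).2 hnh
  · intro m hm
    have h1 : h % M ≡ u * p ^ (e - 1) [MOD p ^ e] := by
      have h2 : h % M ≡ h [MOD p ^ e] := (Nat.mod_modEq h M).of_dvd hpe
      exact h2.trans (hh1.of_dvd (pow_dvd_pow p hek))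
    generalize h % M = g at h1 ⊢
    obtain ⟨s', hs'⟩ := hm
    have h3 : ((p : ℤ) ^ e) ∣ ((u * p ^ (e - 1) : ℕ) : ℤ) - (g : ℤ) := by
      have := (Nat.modEq_iff_dvd.1 h1)
      push_cast at this ⊢
      exact this
    obtain ⟨s, hs⟩ := h3
    have hpe' : (p : ℤ) ^ e = (p : ℤ) ^ (e - 1) * p := by
      rw [← pow_succ]; congr 1; omega
    have hmz : (m : ℤ) = (p : ℤ) ^ (e - 1) * p * s' := by
      rw [hs', ← hpe']; push_cast; ring
    have hdiff : (m : ℤ) - g = (p : ℤ) ^ (e - 1) * ((s' + s) * p - u) := by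
      rw [hpe'] at hs
      push_cast at hs
      linear_combination hmz + hs
    have hP : 0 < (p : ℤ) ^ (e - 1) := by
      have : 0 < (p : ℤ) := by exact_mod_cast hp.pos
      positivity
    have hpz : (p : ℤ) = 2 * u + 1 := by exact_mod_cast hpu
    have hu0 : (0 : ℤ) ≤ u := by positivity
    have hkey : (p : ℤ) ^ (e - 1) * u ≤ |(m : ℤ) - g| := by
      rw [hdiff, abs_mul, abs_of_pos hP]
      refine mul_le_mul_of_nonneg_left ?_ hP.le
      rw [le_abs]
      rcases le_or_gt ((s' : ℤ) + s) 0 with h0 | h0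
      · right
        have : ((s' : ℤ) + s) * p ≤ 0 := mul_nonpos_of_nonpos_of_nonneg h0 (by positivity)
        linarith
      · left
        have : (1 : ℤ) * p ≤ ((s' : ℤ) + s) * p :=
          mul_le_mul_of_nonneg_right (by omega) (by positivity)
        linarith
    have hkey' : ((p ^ (e - 1) * u : ℕ) : ℤ) ≤ |(m : ℤ) - g| := by
      push_cast; exact hkey
    generalize p ^ (e - 1) * u = w at hkey' ⊢
    unfold Nat.dist
    rcases le_abs.1 hkey' with h0 | h0 <;> omega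

end Pool.Agent.Helper75.Fib
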