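import Pool.Agent.Helper75.Fib.Defs

set_option autoImplicit false

/-! Definitions for the proof that the sum of `1 / F_n` over an infinite set `A` of positive
integers with `∑ 1/n < ∞` (`n ∈ A`) is irrational. -/

noncomputable section

namespace Pool.Agent.Helper75.Fib
open Classical Finset


theorem avg1_count {n₀ n M : ℕ} (hn₀ : 0 < n₀) (hn : 0 < n) (h1 : n₀ ∣ M) (h2 : n ∣ M)
    (a : ℕ) (s : ℤ) (hs : s ≠ 0) :
    #((Ico a (a + M)).filter (fun x => n₀ ∣ x ∧ (n : ℤ) ∣ (x : ℤ) + s)) * (n₀ * n) ≤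
      M * s.natAbs := by
  rcases Finset.eq_empty_or_nonempty
    ((Ico a (a + M)).filter (fun x => n₀ ∣ x ∧ (n : ℤ) ∣ (x : ℤ) + s)) with he | ⟨x₀, hx₀⟩
  · rw [he]; simp
  · obtain ⟨_, hx1, hx2⟩ := Finset.mem_filter.mp hx₀
    have hL : 0 < Nat.lcm n₀ n := Nat.lcm_pos hn₀ hn
    have hLM : Nat.lcm n₀ n ∣ M := Nat.lcm_dvd h1 h2
    obtain ⟨q, hq⟩ := hLM
    have hsub : (Ico a (a + M)).filter (fun x => n₀ ∣ x ∧ (n : ℤ) ∣ (x : ℤ) + s) ⊆
        (Ico a (a + M)).filter (fun x => x ≡ x₀ [MOD (Nat.lcm n₀ n)]) := by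
      intro x hx
      obtain ⟨hx3, hx4, hx5⟩ := Finset.mem_filter.mp hx
      refine Finset.mem_filter.mpr ⟨hx3, ?_⟩
      rw [← Int.natCast_modEq_iff, Int.modEq_iff_dvd]
      have e1 : (n₀ : ℤ) ∣ (x₀ : ℤ) - x :=
        dvd_sub (Int.natCast_dvd_natCast.mpr hx1) (Int.natCast_dvd_natCast.mpr hx4)
      have e2 : (n : ℤ) ∣ (x₀ : ℤ) - x := by
        have := dvd_sub hx2 hx5
        have e : (x₀ : ℤ) + s - ((x : ℤ) + s) = (x₀ : ℤ) - x := by ring
        rwa [e] at this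
      have e3 : Nat.lcm n₀ n ∣ ((x₀ : ℤ) - x).natAbs :=
        Nat.lcm_dvd (Int.natCast_dvd.mp e1) (Int.natCast_dvd.mp e2)
      exact Int.natCast_dvd.mpr e3
    have hcard : #((Ico a (a + M)).filter (fun x => x ≡ x₀ [MOD (Nat.lcm n₀ n)])) = q := by
      have := Nat.Ico_filter_modEq_card a (a + M) hL x₀
      have hLq : ((Nat.lcm n₀ n : ℕ) : ℚ) ≠ 0 := by exact_mod_cast hL.ne'
      have e1 : (((a + M : ℕ) : ℚ) - x₀) / ((Nat.lcm n₀ n : ℕ) : ℚ) =
          ((a : ℚ) - x₀) / ((Nat.lcm n₀ n : ℕ) : ℚ) + (q : ℤ) := by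
        rw [hq]
        push_cast
        field_simp
        ring
      rw [e1, Int.ceil_add_intCast] at this
      have e2 : max (⌈((a : ℚ) - x₀) / ((Nat.lcm n₀ n : ℕ) : ℚ)⌉ + (q : ℤ) -
          ⌈((a : ℚ) - x₀) / ((Nat.lcm n₀ n : ℕ) : ℚ)⌉) 0 = (q : ℤ) := by
        rw [add_sub_cancel_left]
        exact max_eq_left (by positivity)
      rw [e2] at this
      exact_mod_cast this
    have hle : #((Ico a (a + M)).filter (fun x => n₀ ∣ x ∧ (n : ℤ) ∣ (x : ℤ) + s)) ≤ q := by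
      rw [← hcard]
      exact Finset.card_le_card hsub
    have hg : Nat.gcd n₀ n ≤ s.natAbs := by
      refine Nat.le_of_dvd (Int.natAbs_pos.mpr hs) ?_
      have e1 : ((Nat.gcd n₀ n : ℕ) : ℤ) ∣ (x₀ : ℤ) :=
        (Int.natCast_dvd_natCast.mpr (Nat.gcd_dvd_left n₀ n)).trans (Int.natCast_dvd_natCast.mpr hx1)
      have e2 : ((Nat.gcd n₀ n : ℕ) : ℤ) ∣ (x₀ : ℤ) + s :=
        (Int.natCast_dvd_natCast.mpr (Nat.gcd_dvd_right n₀ n)).trans hx2
      have e3 : ((Nat.gcd n₀ n : ℕ) : ℤ) ∣ s := (dvd_add_right e1).mp e2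
      exact Int.natCast_dvd.mp e3
    calc #((Ico a (a + M)).filter (fun x => n₀ ∣ x ∧ (n : ℤ) ∣ (x : ℤ) + s)) * (n₀ * n)
        ≤ q * (n₀ * n) := Nat.mul_le_mul_right _ hle
      _ = q * (Nat.gcd n₀ n * Nat.lcm n₀ n) := by rw [Nat.gcd_mul_lcm]
      _ = M * Nat.gcd n₀ n := by rw [hq]; ring
      _ ≤ M * s.natAbs := Nat.mul_le_mul_left _ hg

/-- one side of the bound -/
def avg1_h (n W x : ℕ) (b : Bool) (t : ℕ) : ENNReal :=
  if W ≤ t ∧ (n : ℤ) ∣ (x : ℤ) + (if b then (t : ℤ) else -(t : ℤ)) then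
    ENNReal.ofReal (rh ^ t) else 0

theorem avg1_gg (n W x : ℕ) :
    gg n W x ≤ ∑' t : ℕ, (avg1_h n W x true t + avg1_h n W x false t) := by
  have hinj : Function.Injective (fun m : ℕ => (Nat.dist m x, decide (x < m))) := by
    intro m m' h
    simp only [Prod.mk.injEq, decide_eq_decide] at h
    obtain ⟨h1, h2⟩ := h
    unfold Nat.dist at h1
    by_cases hm : x < m
    · have := h2.mp hm; omega
    · have : ¬ x < m' := fun hh => hm (h2.mpr hh)
      omega
  have key := ENNReal.tsum_comp_le_tsum_of_injective hinj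
    (fun p : ℕ × Bool => avg1_h n W x p.2 p.1)
  have e1 : ∑' p : ℕ × Bool, avg1_h n W x p.2 p.1 =
      ∑' t : ℕ, (avg1_h n W x true t + avg1_h n W x false t) := by
    rw [ENNReal.tsum_prod']
    refine tsum_congr fun t => ?_
    rw [tsum_fintype, Fintype.sum_bool]
  rw [e1] at key
  refine le_trans ?_ key
  unfold gg
  refine ENNReal.tsum_le_tsum fun m => ?_
  by_cases h : 1 ≤ m ∧ n ∣ m ∧ W ≤ Nat.dist m x
  · rw [if_pos h]
    simp only [avg1_h]
    rw [if_pos]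
    refine ⟨h.2.2, ?_⟩
    have hd := h.2.2
    unfold Nat.dist at hd ⊢
    by_cases hm : x < m
    · rw [if_pos (by simpa using hm)]
      have : (x : ℤ) + ((m - x + (x - m) : ℕ) : ℤ) = m := by omega
      rw [this]
      exact Int.natCast_dvd_natCast.mpr h.2.1
    · rw [if_neg (by simpa using hm)]
      have : (x : ℤ) + -((m - x + (x - m) : ℕ) : ℤ) = m := by omega
      rw [this]
      exact Int.natCast_dvd_natCast.mpr h.2.1
  · rw [if_neg h]
    exact zero_le

theorem avg1_side {n₀ n M : ℕ} (hn₀ : 0 < n₀) (hn : 0 < n) (h1 : n₀ ∣ M) (h2 : n ∣ M)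
    {W : ℕ} (hW : 1 ≤ W) (a : ℕ) (b : Bool) (t : ℕ) :
    ∑ x ∈ (Ico a (a + M)).filter (fun x => n₀ ∣ x), avg1_h n W x b t ≤
      if W ≤ t then ENNReal.ofReal ((M : ℝ) / (n₀ * n) * (t * rh ^ t)) else 0 := by
  by_cases hWt : W ≤ t
  · rw [if_pos hWt]
    set s : ℤ := if b then (t : ℤ) else -(t : ℤ) with hs
    have hs0 : s ≠ 0 := by
      rw [hs]; split_ifs <;> omega
    have hsn : s.natAbs = t := by
      by_cases hb : b = true
      · have : s = t := by rw [hs, if_pos hb]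
        omega
      · have : s = -(t : ℤ) := by rw [hs, if_neg hb]
        omega
    have e1 : ∑ x ∈ (Ico a (a + M)).filter (fun x => n₀ ∣ x), avg1_h n W x b t =
        (#((Ico a (a + M)).filter (fun x => n₀ ∣ x ∧ (n : ℤ) ∣ (x : ℤ) + s)) : ENNReal) *
          ENNReal.ofReal (rh ^ t) := by
      simp only [avg1_h, hWt, true_and]
      rw [← hs, ← Finset.sum_filter, Finset.filter_filter, Finset.sum_const, nsmul_eq_mul]
    have hc := avg1_count hn₀ hn h1 h2 a s hs0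
    rw [hsn] at hc
    rw [e1, ← ENNReal.ofReal_natCast, ← ENNReal.ofReal_mul (Nat.cast_nonneg _)]
    refine ENNReal.ofReal_le_ofReal ?_
    rw [← mul_assoc]
    refine mul_le_mul_of_nonneg_right ?_ (pow_nonneg rh_pos.le _)
    have hpos : (0 : ℝ) < n₀ * n := by positivity
    rw [div_mul_eq_mul_div, le_div_iff₀ hpos]
    exact_mod_cast hc
  · rw [if_neg hWt]
    refine le_of_eq (Finset.sum_eq_zero fun x _ => ?_)
    unfold avg1_h
    rw [if_neg (fun hh => hWt hh.1)]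

theorem avg1_hasSum (W : ℕ) : HasSum (fun s : ℕ => ((s + W : ℕ) : ℝ) * rh ^ (s + W))
    (rh ^ W * (rh / (1 - rh) ^ 2 + W * (1 - rh)⁻¹)) := by
  have hn : ‖rh‖ < 1 := by
    rw [Real.norm_eq_abs, abs_of_pos rh_pos]; exact rh_lt_one
  have h1 := hasSum_coe_mul_geometric_of_norm_lt_one hn
  have h2 := (hasSum_geometric_of_lt_one rh_pos.le rh_lt_one).mul_left (W : ℝ)
  have h3 := (h1.add h2).mul_left (rh ^ W)
  have e : (fun s : ℕ => ((s + W : ℕ) : ℝ) * rh ^ (s + W)) =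
      fun i : ℕ => rh ^ W * ((i : ℝ) * rh ^ i + (W : ℝ) * rh ^ i) := by
    funext s
    push_cast
    rw [pow_add]
    ring
  rw [e]
  exact h3

theorem avg1_const (W : ℕ) :
    2 * (rh / (1 - rh) ^ 2 + W * (1 - rh)⁻¹) ≤ 12 * ((W : ℝ) + 1) := by
  have h1 : 1 - rh = rh ^ 2 := rh_sq.symm
  have hr := rh_pos
  have hpr := ph_mul_rh
  have hrne : rh ≠ 0 := hr.ne'
  have e1 : (1 - rh)⁻¹ = ph ^ 2 := by
    rw [h1]
    have : ph ^ 2 * rh ^ 2 = 1 := by rw [← mul_pow, hpr, one_pow]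
    field_simp
    linarith
  have e2 : rh / (1 - rh) ^ 2 = ph ^ 3 := by
    rw [h1]
    have : ph ^ 3 * rh ^ 3 = 1 := by rw [← mul_pow, hpr, one_pow]
    field_simp
    linarith
  rw [e1, e2]
  have h2 := ph_sq
  have h3 : ph ^ 3 = 2 * ph + 1 := by
    have : ph ^ 3 = ph * ph ^ 2 := by ring
    rw [this, h2]
    linarith [h2, show ph * (ph + 1) = ph ^ 2 + ph by ring]
  rw [h3, h2]
  have h4 := ph_lt_two
  have hW : (0 : ℝ) ≤ W := by positivity
  nlinarith

theorem avg1 {n₀ n M : ℕ} (hn₀ : 0 < n₀) (hn : 0 < n) (hM : 0 < M) (h1 : n₀ ∣ M) (h2 : n ∣ M)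
    {W : ℕ} (hW : 1 ≤ W) (a : ℕ) :
    ∑ x ∈ (Ico a (a + M)).filter (fun x => n₀ ∣ x), gg n W x ≤
      ENNReal.ofReal ((M : ℝ) / (n₀ * n) * (12 * ((W : ℝ) + 1) * rh ^ W)) := by
  set c : ℝ := (M : ℝ) / (n₀ * n) with hc
  have hc0 : 0 ≤ c := by positivity
  calc ∑ x ∈ (Ico a (a + M)).filter (fun x => n₀ ∣ x), gg n W x
      ≤ ∑ x ∈ (Ico a (a + M)).filter (fun x => n₀ ∣ x),
          ∑' t : ℕ, (avg1_h n W x true t + avg1_h n W x false t) :=
        Finset.sum_le_sum fun x _ => avg1_gg n W x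
    _ = ∑' t : ℕ, ∑ x ∈ (Ico a (a + M)).filter (fun x => n₀ ∣ x),
          (avg1_h n W x true t + avg1_h n W x false t) :=
        (Summable.tsum_finsetSum fun _ _ => ENNReal.summable).symm
    _ ≤ ∑' t : ℕ, (if W ≤ t then ENNReal.ofReal (2 * (c * (t * rh ^ t))) else 0) := by
        refine ENNReal.tsum_le_tsum fun t => ?_
        rw [Finset.sum_add_distrib]
        have e1 := avg1_side hn₀ hn h1 h2 hW a true t
        have e2 := avg1_side hn₀ hn h1 h2 hW a false t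
        refine (add_le_add e1 e2).trans ?_
        by_cases hWt : W ≤ t
        · simp only [if_pos hWt]
          have hnn : 0 ≤ c * (t * rh ^ t) :=
            mul_nonneg hc0 (mul_nonneg (by positivity) (pow_nonneg rh_pos.le _))
          rw [← ENNReal.ofReal_add hnn hnn, two_mul]
        · simp only [if_neg hWt, add_zero, le_refl]
    _ = ∑' s : ℕ, ENNReal.ofReal (2 * (c * (((s + W : ℕ) : ℝ) * rh ^ (s + W)))) := by
        have hinj : Function.Injective (fun s : ℕ => s + W) := fun x y h => by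
          simpa using h
        have := hinj.tsum_eq (f := fun t : ℕ =>
          (if W ≤ t then ENNReal.ofReal (2 * (c * ((t : ℝ) * rh ^ t))) else 0)) (by
            intro t ht
            rw [Function.mem_support] at ht
            have hWt : W ≤ t := by
              by_contra hcon
              exact ht (if_neg hcon)
            exact ⟨t - W, by simp only []; omega⟩)
        rw [← this]
        refine tsum_congr fun s => ?_
        rw [if_pos (Nat.le_add_left _ _)]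
    _ = ENNReal.ofReal (2 * (c * (rh ^ W * (rh / (1 - rh) ^ 2 + W * (1 - rh)⁻¹)))) := by
        have hs := ((avg1_hasSum W).mul_left c).mul_left 2
        rw [← hs.tsum_eq, ENNReal.ofReal_tsum_of_nonneg ?_ hs.summable]
        intro s
        exact mul_nonneg (by norm_num) (mul_nonneg hc0
          (mul_nonneg (by positivity) (pow_nonneg rh_pos.le _)))
    _ ≤ ENNReal.ofReal (c * (12 * ((W : ℝ) + 1) * rh ^ W)) := by
        refine ENNReal.ofReal_le_ofReal ?_
        have e1 := avg1_const W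
        have e2 : 2 * (c * (rh ^ W * (rh / (1 - rh) ^ 2 + W * (1 - rh)⁻¹))) =
            c * ((2 * (rh / (1 - rh) ^ 2 + W * (1 - rh)⁻¹)) * rh ^ W) := by ring
        rw [e2]
        exact mul_le_mul_of_nonneg_left
          (mul_le_mul_of_nonneg_right e1 (pow_nonneg rh_pos.le _)) hc0

end Pool.Agent.Helper75.Fib
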