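import Pool.Agent.Helper75.Fib.Defs

set_option autoImplicit false

/-! Definitions for the proof that the sum of `1 / F_n` over an infinite set `A` of positive
integers with `∑ 1/n < ∞` (`n ∈ A`) is irrational. -/

noncomputable section

namespace Pool.Agent.Helper75.Fib
open Classical Finset


theorem avg2_geo : ∑' t : ℕ, (ENNReal.ofReal rh) ^ t = ENNReal.ofReal (ph ^ 2) := by
  have hr := rh_pos
  rw [ENNReal.tsum_geometric]
  have h1 : 1 - ENNReal.ofReal rh = ENNReal.ofReal (rh ^ 2) := by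
    rw [rh_sq, ENNReal.ofReal_sub _ rh_pos.le, ENNReal.ofReal_one]
  rw [h1, ← ENNReal.ofReal_inv_of_pos (by positivity)]
  congr 1
  have h2 := ph_mul_rh
  rw [inv_eq_iff_eq_inv, eq_comm, inv_eq_iff_eq_inv]
  apply eq_inv_of_mul_eq_one_left
  rw [← mul_pow, h2, one_pow]

theorem avg2_geo1 : ∑' t : ℕ, (ENNReal.ofReal rh) ^ (t + 1) = ENNReal.ofReal ph := by
  simp_rw [pow_succ']
  rw [ENNReal.tsum_mul_left, avg2_geo, ← ENNReal.ofReal_mul rh_pos.le]
  congr 1
  have h2 := ph_mul_rh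
  calc rh * ph ^ 2 = (ph * rh) * ph := by ring
    _ = ph := by rw [h2, one_mul]

theorem avg2_T (m : ℕ) : ∑' x : ℕ, (ENNReal.ofReal rh) ^ (Nat.dist m x) ≤
    ENNReal.ofReal (ph ^ 2 + ph) := by
  rw [← Summable.sum_add_tsum_nat_add' (k := m + 1)
      (f := fun x : ℕ => (ENNReal.ofReal rh) ^ (Nat.dist m x)) ENNReal.summable,
    ENNReal.ofReal_add (by have := ph_pos; positivity) ph_pos.le]
  apply add_le_add
  · have h1 : ∑ x ∈ range (m + 1), (ENNReal.ofReal rh) ^ (Nat.dist m x)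
        = ∑ x ∈ range (m + 1), (ENNReal.ofReal rh) ^ x := by
      rw [← Finset.sum_range_reflect (fun x => (ENNReal.ofReal rh) ^ x) (m + 1)]
      refine Finset.sum_congr rfl fun x hx => ?_
      rw [Finset.mem_range] at hx
      congr 1
      rw [Nat.dist_eq_sub_of_le_right (by omega)]
      omega
    rw [h1, ← avg2_geo]
    exact ENNReal.sum_le_tsum _
  · rw [← avg2_geo1]
    apply le_of_eq
    congr 1
    funext x
    congr 1
    rw [Nat.dist_eq_sub_of_le (by omega)]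
    omega

theorem avg2_S (m L : ℕ) (s : Finset ℕ) (hs : ∀ x ∈ s, x < L) :
    ∑ x ∈ s, (ENNReal.ofReal rh) ^ (Nat.dist m x) ≤
      ENNReal.ofReal (ph ^ 2 + ph) * (ENNReal.ofReal rh) ^ (m - L) := by
  have h1 : ∑ x ∈ s, (ENNReal.ofReal rh) ^ (Nat.dist m x)
      = (∑ x ∈ s, (ENNReal.ofReal rh) ^ (Nat.dist (min m L) x)) * (ENNReal.ofReal rh) ^ (m - L) := by
    rw [Finset.sum_mul]
    refine Finset.sum_congr rfl fun x hx => ?_
    have := hs x hx
    rw [← pow_add]
    congr 1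
    unfold Nat.dist
    omega
  rw [h1]
  gcongr
  exact (ENNReal.sum_le_tsum _).trans (avg2_T _)

theorem avg2_K (L : ℕ) : ∑' k : ℕ, (ENNReal.ofReal rh) ^ (k + 1 - L) ≤
    ENNReal.ofReal (L + ph) := by
  rw [← Summable.sum_add_tsum_nat_add' (k := L)
      (f := fun k : ℕ => (ENNReal.ofReal rh) ^ (k + 1 - L)) ENNReal.summable,
    ENNReal.ofReal_add (by positivity) ph_pos.le]
  apply add_le_add
  · have h1 : ∀ x ∈ range L, (ENNReal.ofReal rh) ^ (x + 1 - L) = 1 := by
      intro x hx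
      rw [Finset.mem_range] at hx
      have : x + 1 - L = 0 := by omega
      rw [this, pow_zero]
    rw [Finset.sum_congr rfl h1]
    simp
  · rw [← avg2_geo1]
    apply le_of_eq
    congr 1
    funext x
    congr 1
    omega

theorem avg2_J (n L : ℕ) (hn : 0 < n) :
    (n : ENNReal) * ∑' j : ℕ, (ENNReal.ofReal rh) ^ (n * (j + 1) - L) ≤ ENNReal.ofReal (L + ph) := by
  refine le_trans ?_ (avg2_K L)
  have : NeZero n := ⟨hn.ne'⟩
  rw [← (Nat.divModEquiv n).symm.tsum_eq (fun k : ℕ => (ENNReal.ofReal rh) ^ (k + 1 - L)),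
    ENNReal.tsum_prod', ← ENNReal.tsum_mul_left]
  refine ENNReal.tsum_le_tsum fun j => ?_
  rw [tsum_fintype]
  have hle : ENNReal.ofReal rh ≤ 1 := by
    rw [← ENNReal.ofReal_one]
    exact ENNReal.ofReal_le_ofReal rh_lt_one.le
  calc (n : ENNReal) * (ENNReal.ofReal rh) ^ (n * (j + 1) - L)
      = ∑ b : Fin n, (ENNReal.ofReal rh) ^ (n * (j + 1) - L) := by simp
    _ ≤ _ := by
      refine Finset.sum_le_sum fun b _ => ?_
      apply pow_le_pow_right_of_le_one' hle
      have hb := b.2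
      have e : (Nat.divModEquiv n).symm (j, b) + 1 ≤ n * (j + 1) := by
        simp only [Nat.divModEquiv, Equiv.coe_fn_symm_mk]
        nlinarith
      omega

theorem avg2 {n M : ℕ} (hn : 0 < n) (hM : 0 < M) (a : ℕ) :
    ∑ x ∈ Ico a (a + M), gg n 0 x ≤ ENNReal.ofReal (13 * ((a : ℝ) + M) / n) := by
  have h1 : ∑ x ∈ Ico a (a + M), gg n 0 x =
      ∑' m : ℕ, (if 1 ≤ m ∧ n ∣ m then
        ∑ x ∈ Ico a (a + M), (ENNReal.ofReal rh) ^ (Nat.dist m x) else 0) := by
    unfold gg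
    rw [← Summable.tsum_finsetSum (fun _ _ => ENNReal.summable)]
    refine tsum_congr fun m => ?_
    by_cases hm : 1 ≤ m ∧ n ∣ m
    · rw [if_pos hm]
      refine Finset.sum_congr rfl fun x _ => ?_
      rw [if_pos ⟨hm.1, hm.2, Nat.zero_le _⟩, ENNReal.ofReal_pow rh_pos.le]
    · rw [if_neg hm]
      refine Finset.sum_eq_zero fun x _ => ?_
      rw [if_neg (fun h => hm ⟨h.1, h.2.1⟩)]
  have h2 : ∑' m : ℕ, (if 1 ≤ m ∧ n ∣ m then
        ∑ x ∈ Ico a (a + M), (ENNReal.ofReal rh) ^ (Nat.dist m x) else 0)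
      ≤ ∑' m : ℕ, (if 1 ≤ m ∧ n ∣ m then
        ENNReal.ofReal (ph ^ 2 + ph) * (ENNReal.ofReal rh) ^ (m - (a + M)) else 0) := by
    refine ENNReal.tsum_le_tsum fun m => ?_
    split_ifs
    · exact avg2_S m (a + M) _ (fun x hx => (Finset.mem_Ico.mp hx).2)
    · exact le_rfl
  have h3 : ∑' m : ℕ, (if 1 ≤ m ∧ n ∣ m then
        ENNReal.ofReal (ph ^ 2 + ph) * (ENNReal.ofReal rh) ^ (m - (a + M)) else 0)
      = ENNReal.ofReal (ph ^ 2 + ph) * ∑' j : ℕ, (ENNReal.ofReal rh) ^ (n * (j + 1) - (a + M)) := by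
    rw [← ENNReal.tsum_mul_left]
    have hinj : Function.Injective (fun j : ℕ => n * (j + 1)) := by
      intro i j hij
      have := Nat.eq_of_mul_eq_mul_left hn hij
      omega
    rw [← hinj.tsum_eq]
    · refine tsum_congr fun j => ?_
      rw [if_pos ⟨Nat.mul_pos hn (Nat.succ_pos j), dvd_mul_right _ _⟩]
    · intro m hm
      rw [Function.mem_support] at hm
      by_cases hc : 1 ≤ m ∧ n ∣ m
      · obtain ⟨h5, k, rfl⟩ := hc
        rcases k with _ | k
        · simp at h5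
        · exact ⟨k, rfl⟩
      · exact absurd (if_neg hc) hm
  rw [h1]
  refine h2.trans ?_
  rw [h3]
  have h4 := avg2_J n (a + M) hn
  have hn0 : (n : ENNReal) ≠ 0 := by exact_mod_cast hn.ne'
  have hnt : (n : ENNReal) ≠ ⊤ := ENNReal.natCast_ne_top n
  have h5 : ∑' j : ℕ, (ENNReal.ofReal rh) ^ (n * (j + 1) - (a + M)) ≤
      ENNReal.ofReal (((a + M : ℕ) : ℝ) + ph) / n := by
    rw [ENNReal.le_div_iff_mul_le (Or.inl hn0) (Or.inl hnt), mul_comm]
    exact h4
  have hnR : (0:ℝ) < n := by exact_mod_cast hn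
  calc ENNReal.ofReal (ph ^ 2 + ph) * ∑' j : ℕ, (ENNReal.ofReal rh) ^ (n * (j + 1) - (a + M))
      ≤ ENNReal.ofReal (ph ^ 2 + ph) * (ENNReal.ofReal (((a + M : ℕ) : ℝ) + ph) / n) := by
        gcongr
    _ = ENNReal.ofReal ((ph ^ 2 + ph) * ((((a + M : ℕ) : ℝ) + ph) / n)) := by
        rw [ENNReal.ofReal_mul (by have := ph_pos; positivity), ENNReal.ofReal_div_of_pos hnR,
          ENNReal.ofReal_natCast]
    _ ≤ ENNReal.ofReal (13 * ((a : ℝ) + M) / n) := by
        apply ENNReal.ofReal_le_ofReal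
        rw [← mul_div_assoc]
        apply div_le_div_of_nonneg_right _ hnR.le
        push_cast
        have hL : (1:ℝ) ≤ (a:ℝ) + M := by
          have : (1:ℝ) ≤ M := by exact_mod_cast hM
          have : (0:ℝ) ≤ a := Nat.cast_nonneg a
          linarith
        generalize (a:ℝ) + M = L at *
        have hsq := ph_sq
        have hpos := ph_pos
        have hph : ph < 1.62 := by
          by_contra hc
          push Not at hc
          nlinarith
        rw [hsq]
        nlinarith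

end Pool.Agent.Helper75.Fib
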