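import Pool.Agent.Helper75.Fib.Defs

set_option autoImplicit false

/-! Definitions for the proof that the sum of `1 / F_n` over an infinite set `A` of positive
integers with `∑ 1/n < ∞` (`n ∈ A`) is irrational. -/

noncomputable section

namespace Pool.Agent.Helper75.Fib
open Classical Finset


theorem fib_lower {n : ℕ} (hn : 0 < n) : ph ^ n * rh ≤ √5 * (Nat.fib n : ℝ) := by
  have h5 : (√5 : ℝ) ≠ 0 := by positivity
  have hr := rh_pos
  have hr1 := rh_lt_one
  have hp := one_lt_ph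
  rw [fib_eq, mul_div_cancel₀ _ h5]
  have h1 : (-rh) ^ n ≤ rh ^ n := by
    refine (le_abs_self _).trans ?_
    rw [abs_pow, abs_neg, abs_of_pos hr]
  have h2 : rh ^ n ≤ rh := by
    have h3 := pow_le_pow_of_le_one hr.le hr1.le (show 1 ≤ n from hn)
    rwa [pow_one] at h3
  have h3 : ph ≤ ph ^ n := le_self_pow₀ hp.le hn.ne'
  have h4 : ph ^ n * (1 - rh) = ph ^ n * rh ^ 2 := by rw [rh_sq]
  have h6 : ph * rh ^ 2 ≤ ph ^ n * rh ^ 2 := mul_le_mul_of_nonneg_right h3 (sq_nonneg _)
  have h7 : ph * rh ^ 2 = rh := by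
    rw [sq, ← mul_assoc, ph_mul_rh, one_mul]
  nlinarith

end Pool.Agent.Helper75.Fib
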