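import Pool.Agent.Helper75.Fib.Defs
import Pool.Agent.Helper75.Fib.P_fib_lower

set_option autoImplicit false

/-! Definitions for the proof that the sum of `1 / F_n` over an infinite set `A` of positive
integers with `∑ 1/n < ∞` (`n ∈ A`) is irrational. -/

noncomputable section

namespace Pool.Agent.Helper75.Fib
open Classical Finset


theorem hh_sign {n i : ℕ} : sg n * sg (n * (2 * i + 1)) = (-1) ^ (n * i) := by
  unfold sg
  by_cases hn : Even n
  · rw [if_pos hn, if_pos (hn.mul_right _)]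
    rw [(hn.mul_right i).neg_one_pow]
    norm_num
  · have ho : Odd n := Nat.not_even_iff_odd.1 hn
    have hx : ¬ Even (n * (2 * i + 1)) := by
      rw [Nat.not_even_iff_odd]
      exact ho.mul ⟨i, rfl⟩
    rw [if_neg hn, if_neg hx]
    have h1 : n * (2 * i + 1) / 2 = n * i + n / 2 := by
      have : n * (2 * i + 1) = n + 2 * (n * i) := by ring
      rw [this, Nat.add_mul_div_left _ _ (by norm_num)]
      ring
    rw [h1, ← pow_add]
    have h2 : n / 2 + (n * i + n / 2) = n * i + 2 * (n / 2) := by ring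
    rw [h2, pow_add, pow_mul (-1 : ℤ) 2]
    norm_num

theorem hh_active {n x j : ℕ} (hn : 0 < n) (hx : n ∣ x) (ho : Odd (x / n)) (hj : 1 ≤ j)
    (hjn : j ≤ n) :
    |hh n (x - j) - ((sg n * sg x : ℤ) : ℝ) * rh ^ j| ≤ 2 * ph * ph ^ j * rh ^ (2 * n) := by
  obtain ⟨i, hi⟩ := ho
  have hxe : x = n * (2 * i + 1) := by
    rw [← hi, Nat.mul_div_cancel' hx]
  have hsg : sg n * sg x = (-1) ^ (n * i) := by rw [hxe]; exact hh_sign
  have hge : n ≤ x := by rw [hxe]; nlinarith
  obtain ⟨d, hd⟩ : ∃ d, n = d + j := ⟨n - j, by omega⟩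
  have hN : x - j + n = 2 * n * i + (2 * n - j) := by
    have : x = 2 * n * i + n := by rw [hxe]; ring
    omega
  have hq : (x - j + n) / (2 * n) = i := by
    rw [hN, Nat.mul_add_div (by omega), Nat.div_eq_of_lt (by omega), add_zero]
  have hz : ((x - j : ℕ) : ℤ) - 2 * (n : ℤ) * ((i : ℕ) : ℤ) = (d : ℤ) := by
    rw [Nat.cast_sub (by omega), hxe]
    push_cast
    rw [hd]
    push_cast
    ring
  have hh1 : hh n (x - j) = (-1) ^ (n * i) * (((ph ^ d - (-rh) ^ d) / √5) / (Nat.fib n : ℝ)) := by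
    unfold hh
    rw [hq, hz]
    unfold fz
    rw [zpow_natCast, zpow_natCast, mul_div_assoc]
  have hfib := fib_lower hn
  have hs5 : (0 : ℝ) < √5 := Real.sqrt_pos.2 (by norm_num)
  have hD : √5 * (Nat.fib n : ℝ) = ph ^ n - (-rh) ^ n := by
    rw [fib_eq]
    field_simp
  have hp := ph_pos
  have hr := rh_pos
  have hDpos : 0 < √5 * (Nat.fib n : ℝ) := lt_of_lt_of_le (by positivity) hfib
  have hpr : ∀ k : ℕ, ph ^ k * rh ^ k = 1 := by
    intro k
    rw [← mul_pow, ph_mul_rh, one_pow]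
  rw [hh1, hsg]
  push_cast
  rw [← mul_sub, abs_mul, abs_pow, abs_neg, abs_one, one_pow, one_mul]
  have e1 : (ph ^ d - (-rh) ^ d) / √5 / (Nat.fib n : ℝ) - rh ^ j =
      (rh ^ j * (-rh) ^ n - (-rh) ^ d) / (√5 * (Nat.fib n : ℝ)) := by
    rw [div_div, eq_div_iff hDpos.ne', sub_mul, div_mul_cancel₀ _ hDpos.ne', hD]
    have : ph ^ n * rh ^ j = ph ^ d := by
      rw [hd, pow_add, mul_assoc, hpr, mul_one]
    linear_combination -this
  rw [e1, abs_div, abs_of_pos hDpos, div_le_iff₀ hDpos]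
  have e2 : |rh ^ j * (-rh) ^ n - (-rh) ^ d| ≤ 2 * rh ^ d := by
    have h1 : |rh ^ j * (-rh) ^ n| = rh ^ j * rh ^ n := by
      rw [abs_mul, abs_pow, abs_pow, abs_neg, abs_of_pos hr]
    have h2 : |(-rh) ^ d| = rh ^ d := by
      rw [abs_pow, abs_neg, abs_of_pos hr]
    have h3 : rh ^ j * rh ^ n ≤ rh ^ d := by
      rw [← pow_add]
      exact pow_le_pow_of_le_one hr.le rh_lt_one.le (by omega)
    have h4 := abs_sub (rh ^ j * (-rh) ^ n) ((-rh) ^ d)
    rw [h1, h2] at h4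
    linarith
  refine e2.trans ?_
  have e3 : 2 * ph * ph ^ j * rh ^ (2 * n) * (ph ^ n * rh) = 2 * rh ^ d := by
    have a1 : rh ^ (2 * n) = rh ^ n * (rh ^ d * rh ^ j) := by
      rw [two_mul, pow_add]
      congr 1
      rw [hd, pow_add]
    rw [a1]
    have a2 := hpr n
    have a3 := hpr j
    have a4 := ph_mul_rh
    calc 2 * ph * ph ^ j * (rh ^ n * (rh ^ d * rh ^ j)) * (ph ^ n * rh)
        = 2 * rh ^ d * (ph * rh) * (ph ^ j * rh ^ j) * (ph ^ n * rh ^ n) := by ring
      _ = 2 * rh ^ d := by rw [a2, a3, a4]; ring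
  rw [← e3]
  apply mul_le_mul_of_nonneg_left hfib
  positivity

end Pool.Agent.Helper75.Fib
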