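import Pool.Agent.Helper75.Fib.Defs

set_option autoImplicit false

/-! Definitions for the proof that the sum of `1 / F_n` over an infinite set `A` of positive
integers with `∑ 1/n < ∞` (`n ∈ A`) is irrational. -/

noncomputable section

namespace Pool.Agent.Helper75.Fib
open Classical Finset

theorem fib_ratio_a (r : ℕ) : ph * (Nat.fib r : ℝ) ≤ ph ^ r ∧
    ph * (Nat.fib (r + 1) : ℝ) ≤ ph ^ (r + 1) := by
  induction r with
  | zero => simp
  | succ r ih =>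
    refine ⟨ih.2, ?_⟩
    have h : (Nat.fib (r + 1 + 1) : ℝ) = Nat.fib r + Nat.fib (r + 1) := by
      rw [Nat.fib_add_two]; push_cast; ring
    have h2 : ph ^ (r + 1 + 1) = ph ^ r + ph ^ (r + 1) := by
      have : ph ^ (r + 1 + 1) = ph ^ r * ph ^ 2 := by ring
      rw [this, ph_sq]; ring
    rw [h, h2]
    linarith [ih.1, ih.2]

theorem fib_ratio_b (r : ℕ) : ph ^ (r + 1) ≤ ph ^ 2 * (Nat.fib (r + 1) : ℝ) ∧
    ph ^ (r + 2) ≤ ph ^ 2 * (Nat.fib (r + 2) : ℝ) := by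
  induction r with
  | zero =>
    have h1 := one_lt_ph
    simp
    nlinarith
  | succ r ih =>
    refine ⟨ih.2, ?_⟩
    have h : (Nat.fib (r + 1 + 2) : ℝ) = Nat.fib (r + 1) + Nat.fib (r + 2) := by
      rw [Nat.fib_add_two]; push_cast; ring
    have h2 : ph ^ (r + 1 + 2) = ph ^ (r + 1) + ph ^ (r + 2) := by
      have : ph ^ (r + 1 + 2) = ph ^ (r + 1) * ph ^ 2 := by ring
      rw [this, ph_sq]; ring
    rw [h, h2]
    linarith [ih.1, ih.2]

theorem fib_ratio {r n : ℕ} (hr : r ≤ n) (hn : 0 < n) :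
    (Nat.fib r : ℝ) / (Nat.fib n : ℝ) ≤ ph * rh ^ (n - r) := by
  obtain ⟨d, rfl⟩ := Nat.exists_eq_add_of_le hr
  rw [Nat.add_sub_cancel_left]
  have hF : (0 : ℝ) < (Nat.fib (r + d) : ℝ) := by
    exact_mod_cast Nat.fib_pos.2 hn
  rw [div_le_iff₀ hF]
  have h1 := (fib_ratio_a r).1
  have h2 : ph ^ (r + d) ≤ ph ^ 2 * (Nat.fib (r + d) : ℝ) := by
    obtain ⟨m, hm⟩ : ∃ m, r + d = m + 1 := ⟨r + d - 1, by omega⟩
    rw [hm]
    exact (fib_ratio_b m).1
  have hrd : 0 < rh ^ d := pow_pos rh_pos d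
  have h3 := mul_le_mul_of_nonneg_left h2 hrd.le
  have h4 : rh ^ d * ph ^ (r + d) = ph ^ r := by
    have : rh ^ d * ph ^ (r + d) = ph ^ r * (ph * rh) ^ d := by ring
    rw [this, ph_mul_rh, one_pow, mul_one]
  rw [h4] at h3
  refine le_of_mul_le_mul_left ?_ ph_pos
  calc ph * (Nat.fib r : ℝ) ≤ ph ^ r := h1
    _ ≤ _ := h3
    _ = _ := by ring

end Pool.Agent.Helper75.Fib
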