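import Pool.Agent.Helper75.Fib.Defs
import Pool.Agent.Helper75.Fib.P_fib_ratio

set_option autoImplicit false

/-! Definitions for the proof that the sum of `1 / F_n` over an infinite set `A` of positive
integers with `∑ 1/n < ∞` (`n ∈ A`) is irrational. -/

noncomputable section

namespace Pool.Agent.Helper75.Fib
open Classical Finset


theorem hh_bound_nat (s : ℕ) : fz (s : ℤ) = (Nat.fib s : ℝ) := by
  unfold fz
  rw [zpow_natCast, zpow_natCast, ← fib_eq]

theorem hh_bound_neg (s : ℕ) : |fz (-(s : ℤ))| = (Nat.fib s : ℝ) := by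
  have e1 : (ph ^ s)⁻¹ = rh ^ s := by
    unfold rh ph
    rw [inv_pow]
  have e0 : rh⁻¹ = ph := by
    unfold rh ph
    rw [inv_inv]
  have e2 : ((-rh) ^ s)⁻¹ = (-1) ^ s * ph ^ s := by
    rw [neg_pow, mul_inv, ← inv_pow, ← inv_pow, e0]
    norm_num
  have e3 : (-rh) ^ s = (-1) ^ s * rh ^ s := neg_pow _ _
  have e4 : ((-1 : ℝ) ^ s) * (-1) ^ s = 1 := by
    rw [← mul_pow]; norm_num
  have h1 : fz (-(s : ℤ)) = -(-1) ^ s * (Nat.fib s : ℝ) := by
    unfold fz
    rw [zpow_neg, zpow_neg, zpow_natCast, zpow_natCast, fib_eq, e1, e2, e3]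
    field_simp
    linear_combination (- rh ^ s) * e4
  rw [h1, abs_mul, abs_neg, abs_pow, abs_neg, abs_one, one_pow, one_mul, Nat.abs_cast]

theorem hh_bound_abs (n N : ℕ) (F : ℕ)
    (h : |fz ((N : ℤ) - 2 * (n : ℤ) * (((N + n) / (2 * n) : ℕ) : ℤ))| = (Nat.fib F : ℝ)) :
    |hh n N| = (Nat.fib F : ℝ) / (Nat.fib n : ℝ) := by
  unfold hh
  rw [abs_div, abs_mul, abs_pow, abs_neg, abs_one, one_pow, one_mul, h, Nat.abs_cast]

theorem hh_bound {n : ℕ} (hn : 0 < n) (N : ℕ) :
    ∃ m : ℕ, 1 ≤ m ∧ n ∣ m ∧ Odd (m / n) ∧ |hh n N| ≤ ph * rh ^ Nat.dist m N := by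
  obtain ⟨k, hk⟩ : ∃ k, k = (N + n) / (2 * n) := ⟨_, rfl⟩
  obtain ⟨s, hs⟩ : ∃ s, s = (N + n) % (2 * n) := ⟨_, rfl⟩
  have h1 : N + n = 2 * n * k + s := by
    rw [hk, hs]
    exact (Nat.div_add_mod _ _).symm
  have h2 : s < 2 * n := by
    rw [hs]
    exact Nat.mod_lt _ (by omega)
  obtain ⟨q, hq⟩ : ∃ q, q = n * k := ⟨_, rfl⟩
  have h1' : N + n = 2 * q + s := by rw [h1, hq]; ring
  by_cases hsn : n ≤ s
  · -- r ≥ 0
    refine ⟨n * (2 * k + 1), ?_, Dvd.intro _ rfl, ?_, ?_⟩
    · have : 0 < n * (2 * k + 1) := by positivity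
      omega
    · rw [Nat.mul_div_cancel_left _ hn]
      exact ⟨k, rfl⟩
    · have hF : |fz ((N : ℤ) - 2 * (n : ℤ) * (((N + n) / (2 * n) : ℕ) : ℤ))| =
          (Nat.fib (s - n) : ℝ) := by
        have h3 : (N : ℤ) - 2 * (n : ℤ) * (((N + n) / (2 * n) : ℕ) : ℤ) = ((s - n : ℕ) : ℤ) := by
          rw [← hk]
          have h4 : 2 * (n : ℤ) * (k : ℤ) = 2 * (q : ℤ) := by
            rw [hq]; push_cast; ring
          rw [h4]
          omega
        rw [h3, hh_bound_nat, Nat.abs_cast]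
      rw [hh_bound_abs n N _ hF]
      have h5 := fib_ratio (r := s - n) (n := n) (by omega) hn
      have h6 : Nat.dist (n * (2 * k + 1)) N = n - (s - n) := by
        have h7 : n * (2 * k + 1) = 2 * q + n := by rw [hq]; ring
        rw [h7]
        unfold Nat.dist
        omega
      rw [h6]
      exact h5
  · push Not at hsn
    have hk1 : 1 ≤ k := by
      by_contra h0
      have : k = 0 := by omega
      rw [this, mul_zero] at hq
      omega
    refine ⟨n * (2 * k - 1), ?_, Dvd.intro _ rfl, ?_, ?_⟩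
    · have : 0 < n * (2 * k - 1) := Nat.mul_pos hn (by omega)
      omega
    · rw [Nat.mul_div_cancel_left _ hn]
      exact ⟨k - 1, by omega⟩
    · have hF : |fz ((N : ℤ) - 2 * (n : ℤ) * (((N + n) / (2 * n) : ℕ) : ℤ))| =
          (Nat.fib (n - s) : ℝ) := by
        have h3 : (N : ℤ) - 2 * (n : ℤ) * (((N + n) / (2 * n) : ℕ) : ℤ) = -((n - s : ℕ) : ℤ) := by
          rw [← hk]
          have h4 : 2 * (n : ℤ) * (k : ℤ) = 2 * (q : ℤ) := by
            rw [hq]; push_cast; ring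
          rw [h4]
          omega
        rw [h3, hh_bound_neg]
      rw [hh_bound_abs n N _ hF]
      have h5 := fib_ratio (r := n - s) (n := n) (by omega) hn
      have h6 : Nat.dist (n * (2 * k - 1)) N = n - (n - s) := by
        have h7 : n * (2 * k - 1) + n = 2 * q := by
          have : 2 * k - 1 + 1 = 2 * k := by omega
          calc n * (2 * k - 1) + n = n * (2 * k - 1 + 1) := by ring
            _ = n * (2 * k) := by rw [this]
            _ = 2 * q := by rw [hq]; ring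
        unfold Nat.dist
        omega
      rw [h6]
      exact h5

end Pool.Agent.Helper75.Fib
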