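import Pool.Agent.Helper75.Fib.Defs

set_option autoImplicit false

/-! Definitions for the proof that the sum of `1 / F_n` over an infinite set `A` of positive
integers with `∑ 1/n < ∞` (`n ∈ A`) is irrational. -/

noncomputable section

namespace Pool.Agent.Helper75.Fib
open Classical Finset


theorem hh_period {n m : ℕ} (hn : 0 < n) (h : 4 * n ∣ m) (N : ℕ) : hh n (N + m) = hh n N := by
  obtain ⟨t, rfl⟩ := h
  have hk : (N + 4 * n * t + n) / (2 * n) = (N + n) / (2 * n) + 2 * t := by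
    have h1 : N + 4 * n * t + n = (N + n) + (2 * n) * (2 * t) := by ring
    rw [h1, Nat.add_mul_div_left _ _ (by omega)]
  unfold hh
  rw [hk]
  have h2 : ((-1 : ℝ)) ^ (n * ((N + n) / (2 * n) + 2 * t)) = (-1) ^ (n * ((N + n) / (2 * n))) := by
    have h3 : n * ((N + n) / (2 * n) + 2 * t) = n * ((N + n) / (2 * n)) + 2 * (n * t) := by ring
    rw [h3, pow_add, pow_mul (-1 : ℝ) 2 (n * t)]
    simp
  rw [h2]
  have h4 : ((N + 4 * n * t : ℕ) : ℤ) - 2 * (n : ℤ) * ((((N + n) / (2 * n) + 2 * t : ℕ)) : ℤ)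
      = (N : ℤ) - 2 * (n : ℤ) * (((N + n) / (2 * n) : ℕ) : ℤ) := by
    generalize (N + n) / (2 * n) = k
    push_cast
    ring
  rw [h4]

end Pool.Agent.Helper75.Fib
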