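import Pool.Agent.Helper75.Fib.Defs
import Pool.Agent.Helper75.Fib.P_hh_period
import Pool.Agent.Helper75.Fib.P_hh_bound
import Pool.Agent.Helper75.Fib.P_hh_active

set_option autoImplicit false

/-! Definitions for the proof that the sum of `1 / F_n` over an infinite set `A` of positive
integers with `∑ 1/n < ∞` (`n ∈ A`) is irrational. -/

noncomputable section

namespace Pool.Agent.Helper75.Fib
open Classical Finset


theorem det_term_rh {d d' j : ℕ} (h : d ≤ d' + j) : rh ^ d' ≤ ph ^ j * rh ^ d := by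
  have h1 : rh ^ (d' + j) ≤ rh ^ d := pow_le_pow_of_le_one rh_pos.le rh_lt_one.le h
  have h2 : ph ^ j * rh ^ (d' + j) = rh ^ d' := by
    rw [pow_add, mul_comm (rh ^ d'), ← mul_assoc, ← mul_pow, ph_mul_rh, one_pow, one_mul]
  rw [← h2]
  exact mul_le_mul_of_nonneg_left h1 (pow_nonneg ph_pos.le _)

theorem det_term_val {n X j W m : ℕ} (hn : 0 < n) (hX : j ≤ X) (hm1 : 1 ≤ m) (hnm : n ∣ m)
    (hW : W ≤ Nat.dist m X) (hb : |hh n (X - j)| ≤ ph * rh ^ Nat.dist m (X - j)) :
    ENNReal.ofReal |hh n (X - j)| ≤ ENNReal.ofReal (ph * ph ^ j) * gg n W X := by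
  have hd : Nat.dist m X ≤ Nat.dist m (X - j) + j := by
    unfold Nat.dist; omega
  have h1 : |hh n (X - j)| ≤ ph * ph ^ j * rh ^ Nat.dist m X := by
    refine hb.trans ?_
    rw [mul_assoc]
    exact mul_le_mul_of_nonneg_left (det_term_rh hd) ph_pos.le
  have hC : 0 ≤ ph * ph ^ j := mul_nonneg ph_pos.le (pow_nonneg ph_pos.le _)
  refine (ENNReal.ofReal_le_ofReal h1).trans ?_
  rw [ENNReal.ofReal_mul hC]
  refine mul_le_mul_right ?_ _
  unfold gg
  have h2 := ENNReal.le_tsum (f := fun m : ℕ => if 1 ≤ m ∧ n ∣ m ∧ W ≤ Nat.dist m X then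
    ENNReal.ofReal (rh ^ Nat.dist m X) else 0) m
  simp only [hm1, hnm, hW, and_self, if_true] at h2
  exact h2

theorem det_term_add (a b c : ℝ) : ENNReal.ofReal |a - b - c| ≤
    ENNReal.ofReal |a - c| + ENNReal.ofReal |b| := by
  rw [← ENNReal.ofReal_add (abs_nonneg _) (abs_nonneg _)]
  refine ENNReal.ofReal_le_ofReal ?_
  have : a - b - c = (a - c) - b := by ring
  rw [this]
  exact abs_sub _ _

/-- One term of the difference. -/
theorem det_term {Z w W x h j n : ℕ} (hn : 0 < n) (hx : 0 < x) (hj : 1 ≤ j) (hjw : j ≤ w)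
    (hw : w ∣ x) (hWw : W ≤ w) (hdist : ∀ m : ℕ, w ∣ m → W ≤ Nat.dist m (x + h))
    (hdvd : n ≤ Z → ¬ w ∣ n → 4 * n ∣ h) :
    ENNReal.ofReal |hh n (x - j) - hh n (x - j + h) -
        (if n ≤ Z ∧ w ∣ n ∧ n ∣ x ∧ Odd (x / n) then ((sg n * sg x : ℤ) : ℝ) * rh ^ j else 0)| ≤
      (if w ∣ n then ENNReal.ofReal (2 * ph * ph ^ j * rh ^ (2 * n)) else 0) +
        ENNReal.ofReal (ph * ph ^ j) * En Z W x h n := by
  have hwx : w ≤ x := Nat.le_of_dvd hx hw
  have hjx : j ≤ x := hjw.trans hwx
  have hxh : x - j + h = x + h - j := by omega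
  have hjxh : j ≤ x + h := by omega
  by_cases hZ : n ≤ Z
  · by_cases hwn : w ∣ n
    · have hwn' : w ≤ n := Nat.le_of_dvd hn hwn
      have hEn : En Z W x h n = gg n W x + gg n W (x + h) := by
        unfold En; rw [if_pos hZ]
      rw [hEn, if_pos hwn, mul_add]
      have hsec : ENNReal.ofReal |hh n (x - j + h)| ≤
          ENNReal.ofReal (ph * ph ^ j) * gg n W (x + h) := by
        obtain ⟨m, hm1, hm2, _, hm4⟩ := hh_bound hn (x + h - j)
        rw [hxh]
        exact det_term_val hn hjxh hm1 hm2 (hdist m (hwn.trans hm2)) hm4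
      by_cases hmain : n ∣ x ∧ Odd (x / n)
      · rw [if_pos ⟨hZ, hwn, hmain.1, hmain.2⟩]
        have h1 := hh_active hn hmain.1 hmain.2 hj (hjw.trans hwn')
        refine (det_term_add _ _ _).trans ?_
        refine (add_le_add (ENNReal.ofReal_le_ofReal h1) hsec).trans ?_
        refine add_le_add le_rfl ?_
        exact le_add_self
      · rw [if_neg (fun h => hmain ⟨h.2.2.1, h.2.2.2⟩)]
        have hfst : ENNReal.ofReal |hh n (x - j)| ≤
            ENNReal.ofReal (ph * ph ^ j) * gg n W x := by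
          obtain ⟨m, hm1, hm2, hm3, hm4⟩ := hh_bound hn (x - j)
          have hne : m ≠ x := by
            rintro rfl
            exact hmain ⟨hm2, hm3⟩
          have hwm : w ∣ m := hwn.trans hm2
          have hdw : w ∣ Nat.dist m x := by
            unfold Nat.dist
            exact Nat.dvd_add (Nat.dvd_sub hwm hw) (Nat.dvd_sub hw hwm)
          have hpos : 0 < Nat.dist m x := by
            unfold Nat.dist; omega
          exact det_term_val hn hjx hm1 hm2 (hWw.trans (Nat.le_of_dvd hpos hdw)) hm4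
        refine (det_term_add _ _ _).trans ?_
        rw [sub_zero]
        refine (add_le_add hfst hsec).trans ?_
        exact le_add_self
    · rw [if_neg (fun h => hwn h.2.1), hh_period hn (hdvd hZ hwn)]
      simp
  · have hEn : En Z W x h n = gg n 0 x + gg n 0 (x + h) := by
      unfold En; rw [if_neg hZ]
    rw [hEn, if_neg (fun h => hZ h.1), mul_add]
    refine (det_term_add _ _ _).trans ?_
    rw [sub_zero]
    obtain ⟨m, hm1, hm2, _, hm4⟩ := hh_bound hn (x - j)
    obtain ⟨m', hm1', hm2', _, hm4'⟩ := hh_bound hn (x + h - j)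
    have h1 := det_term_val hn hjx hm1 hm2 (Nat.zero_le _) hm4
    have h2 := det_term_val hn hjxh hm1' hm2' (Nat.zero_le _) hm4'
    rw [← hxh] at h2
    refine (add_le_add h1 h2).trans ?_
    exact le_add_self

end Pool.Agent.Helper75.Fib
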