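import Pool.Agent.Helper75.Fib.Defs
import Pool.Agent.Helper75.Fib.P_det_term

set_option autoImplicit false

/-! Definitions for the proof that the sum of `1 / F_n` over an infinite set `A` of positive
integers with `∑ 1/n < ∞` (`n ∈ A`) is irrational. -/

noncomputable section

namespace Pool.Agent.Helper75.Fib
open Classical Finset


theorem ds_tail (w : ℕ) (c : ℝ) (hc : 0 ≤ c) :
    ∑' n : ℕ, (if w ≤ n then ENNReal.ofReal (c * rh ^ (2 * n)) else 0) =
      ENNReal.ofReal (c * rh ^ (2 * w) * ph) := by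
  have hinj : Function.Injective (fun m : ℕ => m + w) := fun a b h => Nat.add_right_cancel h
  have h1 : ∑' n : ℕ, (if w ≤ n then ENNReal.ofReal (c * rh ^ (2 * n)) else 0) =
      ∑' m : ℕ, ENNReal.ofReal (c * rh ^ (2 * (m + w))) := by
    rw [← hinj.tsum_eq (f := fun n : ℕ => if w ≤ n then ENNReal.ofReal (c * rh ^ (2 * n)) else 0)]
    · refine tsum_congr fun m => ?_
      rw [if_pos (Nat.le_add_left w m)]
    · intro n hn
      rw [Function.mem_support] at hn
      have h2 : w ≤ n := by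
        by_contra h3
        exact hn (if_neg h3)
      exact ⟨n - w, Nat.sub_add_cancel h2⟩
  have hr0 := rh_pos
  have hr1 := rh_lt_one
  have hq : rh ^ 2 < 1 := by nlinarith
  have h2 : HasSum (fun m : ℕ => c * rh ^ (2 * (m + w))) (c * rh ^ (2 * w) * ph) := by
    have h3 := (hasSum_geometric_of_lt_one (sq_nonneg rh) hq).mul_left (c * rh ^ (2 * w))
    have h4 : (1 - rh ^ 2)⁻¹ = ph := by
      have h5 : 1 - rh ^ 2 = rh := by rw [rh_sq]; ring
      rw [h5]
      show (Real.goldenRatio⁻¹)⁻¹ = Real.goldenRatio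
      rw [inv_inv]
    rw [h4] at h3
    refine h3.congr_fun (fun m => ?_)
    rw [mul_add, pow_add, pow_mul rh 2 m]
    ring
  rw [h1, ← ENNReal.ofReal_tsum_of_nonneg, h2.tsum_eq]
  · intro m
    positivity
  · exact h2.summable

/-- The difference of two values of `Y`. -/
theorem det_sum {A : Set ℕ} (h0 : 0 ∉ A) {Q : ℕ} (hR : RatHyp A Q) {Z w W x h j : ℕ}
    (hx : 0 < x) (hj : 1 ≤ j) (hjw : j ≤ w)
    (hw : w ∣ x) (hWw : W ≤ w) (hdist : ∀ m : ℕ, w ∣ m → W ≤ Nat.dist m (x + h))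
    (hdvd : ∀ n : ℕ, n ∈ A → n ≤ Z → ¬ w ∣ n → 4 * n ∣ h) :
    ENNReal.ofReal |Y A (x - j) - Y A (x - j + h) - (sg x : ℝ) * (Dl A Z w x : ℝ) * rh ^ j| ≤
      ENNReal.ofReal (2 * ph ^ 2 * ph ^ j * rh ^ (2 * w)) +
        ENNReal.ofReal (ph * ph ^ j) * EE A Z W x h := by
  obtain ⟨mn, hmn⟩ : ∃ mn : ℕ → ℝ, ∀ n, mn n =
      if n ≤ Z ∧ w ∣ n ∧ n ∣ x ∧ Odd (x / n) then ((sg n * sg x : ℤ) : ℝ) * rh ^ j else 0 :=
    ⟨_, fun n => rfl⟩
  have hs1 := (hR (x - j)).1.hasSum
  have hs2 := (hR (x - j + h)).1.hasSum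
  have hs3 : HasSum (fun n : ℕ => if n ∈ A then mn n else 0)
      ((sg x : ℝ) * (Dl A Z w x : ℝ) * rh ^ j) := by
    have h1 : (sg x : ℝ) * (Dl A Z w x : ℝ) * rh ^ j =
        ∑ n ∈ range (Z + 1), (if n ∈ A then mn n else 0) := by
      unfold Dl
      rw [Finset.sum_filter, Int.cast_sum, Finset.mul_sum, Finset.sum_mul]
      refine Finset.sum_congr rfl fun n hn => ?_
      have hnZ : n ≤ Z := by
        rw [Finset.mem_range] at hn
        omega
      rw [hmn]
      by_cases hA : n ∈ A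
      · rw [if_pos hA]
        by_cases hB : w ∣ n ∧ n ∣ x ∧ Odd (x / n)
        · rw [if_pos ⟨hA, hB⟩, if_pos ⟨hnZ, hB⟩]
          push_cast
          ring
        · rw [if_neg (fun h => hB h.2), if_neg (fun h => hB h.2)]
          simp
      · rw [if_neg hA, if_neg (fun h => hA h.1)]
        simp
    rw [h1]
    apply hasSum_sum_of_ne_finset_zero
    intro n hn
    have hnZ : ¬ n ≤ Z := by
      rw [Finset.mem_range] at hn
      omega
    rw [hmn, if_neg (fun h : n ≤ Z ∧ w ∣ n ∧ n ∣ x ∧ Odd (x / n) => hnZ h.1), ite_self]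
  have hs := (hs1.sub hs2).sub hs3
  have hY : Y A (x - j) - Y A (x - j + h) - (sg x : ℝ) * (Dl A Z w x : ℝ) * rh ^ j =
      ∑' n : ℕ, (((if n ∈ A then hh n (x - j) else 0) - (if n ∈ A then hh n (x - j + h) else 0)) -
        (if n ∈ A then mn n else 0)) := by
    rw [hs.tsum_eq]
    rfl
  rw [← Real.enorm_eq_ofReal_abs, hY]
  refine enorm_tsum_le_tsum_enorm.trans ?_
  have hp0 := ph_pos
  have hr0 := rh_pos
  have hterm : ∀ n : ℕ, ‖(((if n ∈ A then hh n (x - j) else 0) -
        (if n ∈ A then hh n (x - j + h) else 0)) - (if n ∈ A then mn n else 0))‖ₑ ≤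
      (if w ≤ n then ENNReal.ofReal (2 * ph * ph ^ j * rh ^ (2 * n)) else 0) +
        ENNReal.ofReal (ph * ph ^ j) * (if n ∈ A then En Z W x h n else 0) := by
    intro n
    by_cases hA : n ∈ A
    · rw [if_pos hA, if_pos hA, if_pos hA, if_pos hA, Real.enorm_eq_ofReal_abs]
      have hn : 0 < n := by
        rcases Nat.eq_zero_or_pos n with h1 | h1
        · rw [h1] at hA
          exact absurd hA h0
        · exact h1
      have h2 := det_term (Z := Z) (w := w) (W := W) (x := x) (h := h) (j := j) (n := n) hn hx hj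
        hjw hw hWw hdist (hdvd n hA)
      rw [← hmn] at h2
      refine h2.trans (add_le_add_left ?_ _)
      by_cases h3 : w ∣ n
      · rw [if_pos h3, if_pos (Nat.le_of_dvd hn h3)]
      · rw [if_neg h3]
        exact zero_le
    · rw [if_neg hA, if_neg hA, if_neg hA, sub_zero, sub_zero, enorm_zero]
      exact zero_le
  refine (ENNReal.tsum_le_tsum hterm).trans ?_
  rw [ENNReal.tsum_add, ENNReal.tsum_mul_left, ds_tail w (2 * ph * ph ^ j) (by positivity)]
  have h5 : 2 * ph * ph ^ j * rh ^ (2 * w) * ph = 2 * ph ^ 2 * ph ^ j * rh ^ (2 * w) := by ring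
  rw [h5]
  rfl

end Pool.Agent.Helper75.Fib
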