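import Pool.Agent.Helper75.Fib.Defs
import Pool.Agent.Helper75.Fib.P_det_sum

set_option autoImplicit false

/-! Definitions for the proof that the sum of `1 / F_n` over an infinite set `A` of positive
integers with `∑ 1/n < ∞` (`n ∈ A`) is irrational. -/

noncomputable section

namespace Pool.Agent.Helper75.Fib
open Classical Finset


theorem det_aux_sg (n : ℕ) : |((sg n : ℤ) : ℝ)| = 1 := by
  unfold sg
  split_ifs
  · simp
  · push_cast
    rw [abs_pow, abs_neg, abs_one, one_pow]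

theorem det_aux_int (z : ℤ) (s u p : ℝ) (hs : |s| = u) (hu1 : 1 / (2 * p) ≤ u) (hu2 : u < 1 / 2)
    (hp : 1 < p) : 1 / (2 * p) ≤ |(z : ℝ) - s| := by
  have hp2 : 1 / (2 * p) ≤ 1 / 2 := by
    apply one_div_le_one_div_of_le (by norm_num)
    linarith
  by_cases hz : z = 0
  · rw [hz]
    simp only [Int.cast_zero, zero_sub, abs_neg]
    rw [hs]
    exact hu1
  · have h1 : (1:ℝ) ≤ |(z:ℝ)| := by
      have := Int.one_le_abs hz
      exact_mod_cast this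
    have h2 := abs_sub_abs_le_abs_sub (z:ℝ) s
    linarith

/-- If `0 < |Dl A Z w x| ≤ K` then the error term is not small. -/
theorem det {A : Set ℕ} (h0 : 0 ∉ A) {Q : ℕ} (hQ : 0 < Q) (hR : RatHyp A Q) {Z w W x h : ℕ}
    {K : ℝ} (hx : 0 < x) (hw : w ∣ x) (hWw : W ≤ w)
    (hdist : ∀ m : ℕ, w ∣ m → W ≤ Nat.dist m (x + h))
    (hdvd : ∀ n : ℕ, n ∈ A → n ≤ Z → ¬ w ∣ n → 4 * n ∣ h)
    (hK1 : 1 ≤ K) (hK : 16 * ph ^ 4 * (Q : ℝ) ^ 2 * K * rh ^ (2 * w) ≤ 1)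
    (hKw : 2 * ph ^ 2 * Q * K ≤ ph ^ w) (hD0 : Dl A Z w x ≠ 0) (hDK : |(Dl A Z w x : ℝ)| ≤ K) :
    ENNReal.ofReal (1 / (8 * ph ^ 3 * (Q : ℝ) ^ 2 * K)) ≤ EE A Z W x h := by
  by_cases hE : EE A Z W x h = ⊤
  · rw [hE]; exact le_top
  set E := (EE A Z W x h).toReal with hEdef
  have hE2 : EE A Z W x h = ENNReal.ofReal E := (ENNReal.ofReal_toReal hE).symm
  have hE0 : 0 ≤ E := ENNReal.toReal_nonneg
  rw [hE2]
  apply ENNReal.ofReal_le_ofReal
  have hph := ph_pos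
  have hph1 := one_lt_ph
  have hrh := rh_pos
  have hpr := ph_mul_rh
  have hQ1 : (1:ℝ) ≤ Q := by exact_mod_cast hQ
  set D : ℝ := |(Dl A Z w x : ℝ)| with hDd
  have hD1 : 1 ≤ D := by
    have h1 : 1 ≤ |Dl A Z w x| := Int.one_le_abs hD0
    rw [hDd]
    exact_mod_cast h1
  have hex : ∃ j : ℕ, 2 * Q * D < ph ^ j := pow_unbounded_of_one_lt _ one_lt_ph
  set j := Nat.find hex with hjd
  have hj : 2 * Q * D < ph ^ j := Nat.find_spec hex
  have hQD : 1 ≤ Q * D := by nlinarith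
  have hj1 : 1 ≤ j := by
    by_contra hc
    have h0' : j = 0 := by omega
    rw [h0', pow_zero] at hj
    linarith
  have hj2 : ph ^ (j - 1) ≤ 2 * Q * D := not_lt.1 (Nat.find_min hex (by omega))
  have hpj : ph ^ j = ph * ph ^ (j - 1) := by
    rw [← pow_succ', Nat.sub_add_cancel hj1]
  have hj3 : ph ^ j ≤ 2 * ph * Q * D := by
    rw [hpj]
    calc ph * ph ^ (j - 1) ≤ ph * (2 * Q * D) := by gcongr
      _ = _ := by ring
  have hj4 : ph ^ j ≤ 2 * ph * Q * K := by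
    refine hj3.trans ?_
    gcongr
  have hjw : j ≤ w := by
    by_contra hc
    push Not at hc
    have h1 : ph ^ w < ph ^ j := pow_lt_pow_right₀ hph1 hc
    have h2 : 2 * ph * Q * K ≤ 2 * ph ^ 2 * Q * K := by
      have h3 : ph ≤ ph ^ 2 := by nlinarith
      have h4 : 0 ≤ (Q:ℝ) * K := by positivity
      nlinarith
    linarith
  have hds := det_sum h0 hR (Z := Z) (w := w) (W := W) (x := x) (h := h) (j := j) hx hj1 hjw hw hWw
    hdist hdvd
  rw [hE2, ← ENNReal.ofReal_mul (by positivity), ← ENNReal.ofReal_add (by positivity)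
    (by positivity), ENNReal.ofReal_le_ofReal_iff (by positivity)] at hds
  obtain ⟨-, z1, hz1⟩ := hR (x - j)
  obtain ⟨-, z2, hz2⟩ := hR (x - j + h)
  set s : ℝ := Q * ((sg x : ℝ) * (Dl A Z w x : ℝ) * rh ^ j) with hsd
  set u : ℝ := Q * D * rh ^ j with hud
  have hsu : |s| = u := by
    rw [hsd, hud, abs_mul, abs_mul, abs_mul, det_aux_sg, abs_of_pos (by linarith : (0:ℝ) < Q),
      abs_of_pos (by positivity : 0 < rh ^ j)]
    ring
  have hprj : ph ^ j * rh ^ j = 1 := by rw [← mul_pow, hpr, one_pow]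
  have hrj : 0 < rh ^ j := by positivity
  have hu1 : 1 / (2 * ph) ≤ u := by
    rw [div_le_iff₀ (by positivity), hud]
    calc (1:ℝ) = ph ^ j * rh ^ j := hprj.symm
      _ ≤ (2 * ph * Q * D) * rh ^ j := by gcongr
      _ = _ := by ring
  have hu2 : u < 1 / 2 := by
    rw [hud]
    have h1 : 2 * Q * D * rh ^ j < ph ^ j * rh ^ j := by gcongr
    rw [hprj] at h1
    linarith
  have hint := det_aux_int (z1 - z2) s u ph hsu hu1 hu2 hph1
  have hQeq : ((z1 - z2 : ℤ) : ℝ) - s =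
      Q * (Y A (x - j) - Y A (x - j + h) - (sg x : ℝ) * (Dl A Z w x : ℝ) * rh ^ j) := by
    push_cast
    rw [← hz1, ← hz2, hsd]
    ring
  rw [hQeq, abs_mul, abs_of_pos (by linarith : (0:ℝ) < Q)] at hint
  have h5 : 1 / (2 * ph) ≤ Q * (2 * ph ^ 2 * ph ^ j * rh ^ (2 * w) + ph * ph ^ j * E) := by
    refine hint.trans ?_
    gcongr
  have h6 : Q * (2 * ph ^ 2 * ph ^ j * rh ^ (2 * w) + ph * ph ^ j * E) ≤
      Q * (2 * ph * Q * K) * (2 * ph ^ 2 * rh ^ (2 * w) + ph * E) := by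
    have h7 : Q * (2 * ph ^ 2 * ph ^ j * rh ^ (2 * w) + ph * ph ^ j * E) =
        Q * ph ^ j * (2 * ph ^ 2 * rh ^ (2 * w) + ph * E) := by ring
    rw [h7]
    gcongr
  have h8 : Q * (2 * ph * Q * K) * (2 * ph ^ 2 * rh ^ (2 * w)) ≤ 1 / (4 * ph) := by
    rw [le_div_iff₀ (by positivity)]
    calc Q * (2 * ph * Q * K) * (2 * ph ^ 2 * rh ^ (2 * w)) * (4 * ph) =
        16 * ph ^ 4 * (Q : ℝ) ^ 2 * K * rh ^ (2 * w) := by ring
      _ ≤ 1 := hK
  have h9 : 1 / (2 * ph) = 1 / (4 * ph) + 1 / (4 * ph) := by field_simp; norm_num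
  have h10 : 1 / (4 * ph) ≤ Q * (2 * ph * Q * K) * (ph * E) := by
    have h11 : Q * (2 * ph * Q * K) * (2 * ph ^ 2 * rh ^ (2 * w) + ph * E) =
      Q * (2 * ph * Q * K) * (2 * ph ^ 2 * rh ^ (2 * w)) + Q * (2 * ph * Q * K) * (ph * E) := by
      ring
    linarith
  rw [div_le_iff₀ (by positivity)] at h10 ⊢
  calc (1:ℝ) ≤ Q * (2 * ph * Q * K) * (ph * E) * (4 * ph) := h10
    _ = _ := by ring

end Pool.Agent.Helper75.Fib
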