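import Pool.Agent.Helper75.Fib.Defs
import Pool.Agent.Helper75.Fib.P_det
import Pool.Agent.Helper75.Fib.P_avg1
import Pool.Agent.Helper75.Fib.P_avg2

set_option autoImplicit false

/-! Definitions for the proof that the sum of `1 / F_n` over an infinite set `A` of positive
integers with `∑ 1/n < ∞` (`n ∈ A`) is irrational. -/

noncomputable section

namespace Pool.Agent.Helper75.Fib
open Classical Finset


theorem swap_shift (f : ℕ → ENNReal) (s t : Finset ℕ) (h : ℕ) (hst : ∀ x ∈ s, x + h ∈ t) :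
    ∑ x ∈ s, f (x + h) ≤ ∑ y ∈ t, f y := by
  have h1 : ∑ x ∈ s, f (x + h) = ∑ y ∈ s.map (addRightEmbedding h), f y := by
    rw [Finset.sum_map]
    rfl
  rw [h1]
  apply Finset.sum_le_sum_of_subset
  intro y hy
  rw [Finset.mem_map] at hy
  obtain ⟨x, hx, rfl⟩ := hy
  exact hst x hx

theorem swap_small {M p n₀ h n W : ℕ} (hM : 0 < M) (hp : 0 < p) (hn₀ : 0 < n₀) (hW1 : 1 ≤ W)
    (hnM : p * n₀ ∣ M) (hnh : n₀ ∣ h) (hn : 0 < n) (hnM' : n ∣ M) :
    ∑ x ∈ (Ico M (2 * M)).filter (fun x => p * n₀ ∣ x), (gg n W x + gg n W (x + h)) ≤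
      ENNReal.ofReal ((M : ℝ) * (12 * (1 + p) * ((W : ℝ) + 1) * rh ^ W / (p * n₀)) * (1 / n)) := by
  have h2M : 2 * M = M + M := by ring
  rw [h2M, Finset.sum_add_distrib]
  have e1 := avg1 (n₀ := p * n₀) (n := n) (M := M) (Nat.mul_pos hp hn₀) hn hM hnM hnM' hW1 M
  have e2 : ∑ x ∈ (Ico M (M + M)).filter (fun x => p * n₀ ∣ x), gg n W (x + h) ≤
      ∑ y ∈ (Ico (M + h) (M + h + M)).filter (fun x => n₀ ∣ x), gg n W y := by
    apply swap_shift
    intro x hx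
    rw [Finset.mem_filter, Finset.mem_Ico] at hx ⊢
    refine ⟨⟨by omega, by omega⟩, ?_⟩
    exact dvd_add ((Dvd.intro_left p rfl).trans hx.2) hnh
  have e3 := avg1 (n₀ := n₀) (n := n) (M := M) hn₀ hn hM ((Dvd.intro_left p rfl).trans hnM) hnM' hW1
    (M + h)
  refine (add_le_add e1 (e2.trans e3)).trans ?_
  have hr : 0 ≤ rh := rh_pos.le
  rw [← ENNReal.ofReal_add (by positivity) (by positivity)]
  apply ENNReal.ofReal_le_ofReal
  apply le_of_eq
  have hp' : (p : ℝ) ≠ 0 := by exact_mod_cast hp.ne'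
  have hn₀' : (n₀ : ℝ) ≠ 0 := by exact_mod_cast hn₀.ne'
  have hn' : (n : ℝ) ≠ 0 := by exact_mod_cast hn.ne'
  push_cast
  field_simp

theorem swap_large {M p n₀ h n : ℕ} (hM : 0 < M) (hhM : h < M) (hn : 0 < n) :
    ∑ x ∈ (Ico M (2 * M)).filter (fun x => p * n₀ ∣ x), (gg n 0 x + gg n 0 (x + h)) ≤
      ENNReal.ofReal ((M : ℝ) * 65 * (1 / n)) := by
  have h2M : 2 * M = M + M := by ring
  rw [h2M, Finset.sum_add_distrib]
  have e1 : ∑ x ∈ (Ico M (M + M)).filter (fun x => p * n₀ ∣ x), gg n 0 x ≤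
      ∑ x ∈ Ico M (M + M), gg n 0 x :=
    Finset.sum_le_sum_of_subset (Finset.filter_subset _ _)
  have e1' := avg2 (n := n) (M := M) hn hM M
  have e2 : ∑ x ∈ (Ico M (M + M)).filter (fun x => p * n₀ ∣ x), gg n 0 (x + h) ≤
      ∑ y ∈ Ico (M + h) (M + h + M), gg n 0 y := by
    apply swap_shift
    intro x hx
    rw [Finset.mem_filter, Finset.mem_Ico] at hx
    rw [Finset.mem_Ico]
    omega
  have e3 := avg2 (n := n) (M := M) hn hM (M + h)
  refine (add_le_add (e1.trans e1') (e2.trans e3)).trans ?_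
  rw [← ENNReal.ofReal_add (by positivity) (by positivity)]
  apply ENNReal.ofReal_le_ofReal
  have hn' : (0 : ℝ) < n := by exact_mod_cast hn
  have hh : (h : ℝ) ≤ M := by exact_mod_cast hhM.le
  push_cast
  rw [← add_div, mul_one_div]
  apply div_le_div_of_nonneg_right _ hn'.le
  nlinarith

/-- The number of `x` with `0 < |Dl A Z w x| ≤ K` is small. -/
theorem swap {A : Set ℕ} (h0 : 0 ∉ A) (hS : Summable fun n : ℕ => if n ∈ A then 1 / (n : ℝ) else 0)
    {Q : ℕ} (hQ : 0 < Q) (hR : RatHyp A Q) {Z M p w W n₀ h : ℕ} {K : ℝ} (hM : 0 < M) (hp : 0 < p)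
    (hn₀ : 0 < n₀) (hW1 : 1 ≤ W) (hWw : W ≤ w) (hwn : w ∣ p * n₀) (hnM : p * n₀ ∣ M)
    (hnh : n₀ ∣ h) (hhM : h < M) (hdist : ∀ m : ℕ, w ∣ m → W ≤ Nat.dist m h)
    (hdvd : ∀ n : ℕ, n ∈ A → n ≤ Z → ¬ w ∣ n → 4 * n ∣ h)
    (hAM : ∀ n : ℕ, n ∈ A → n ≤ Z → n ∣ M)
    (hK1 : 1 ≤ K) (hK : 16 * ph ^ 4 * (Q : ℝ) ^ 2 * K * rh ^ (2 * w) ≤ 1)
    (hKw : 2 * ph ^ 2 * Q * K ≤ ph ^ w) :
    (#((Ico M (2 * M)).filter
        (fun x => p * n₀ ∣ x ∧ Dl A Z w x ≠ 0 ∧ |(Dl A Z w x : ℝ)| ≤ K)) : ℝ) ≤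
      8 * ph ^ 3 * (Q : ℝ) ^ 2 * K * M *
        (12 * (1 + p) * ((W : ℝ) + 1) * rh ^ W * SS A / (p * n₀) + 65 * Tl A Z) := by
  set C := (Ico M (2 * M)).filter (fun x => p * n₀ ∣ x) with hC
  set B := (Ico M (2 * M)).filter
        (fun x => p * n₀ ∣ x ∧ Dl A Z w x ≠ 0 ∧ |(Dl A Z w x : ℝ)| ≤ K) with hB
  have hph : 0 < ph := ph_pos
  have hr : 0 < rh := rh_pos
  have hQ' : (0 : ℝ) < Q := by exact_mod_cast hQ
  have hK0 : 0 < K := by linarith
  have hBC : B ⊆ C := by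
    intro x hx
    rw [hB, Finset.mem_filter] at hx
    rw [hC, Finset.mem_filter]
    exact ⟨hx.1, hx.2.1⟩
  -- Step 1
  have s1 : ∀ x ∈ B, ENNReal.ofReal (1 / (8 * ph ^ 3 * (Q : ℝ) ^ 2 * K)) ≤ EE A Z W x h := by
    intro x hx
    rw [hB, Finset.mem_filter, Finset.mem_Ico] at hx
    obtain ⟨⟨hx1, hx2⟩, hx3, hx4, hx5⟩ := hx
    have hwx : w ∣ x := hwn.trans hx3
    have hx0 : 0 < x := by omega
    refine det h0 hQ hR hx0 hwx hWw ?_ hdvd hK1 hK hKw hx4 hx5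
    intro m hm
    rcases le_or_gt x m with hxm | hxm
    · have h1 := hdist (m - x) (Nat.dvd_sub hm hwx)
      unfold Nat.dist at h1 ⊢
      omega
    · have h1 : w ∣ x - m := Nat.dvd_sub hwx hm
      have h2 : w ≤ x - m := Nat.le_of_dvd (by omega) h1
      unfold Nat.dist
      omega
  -- Step 2
  have s2 : (#B : ENNReal) * ENNReal.ofReal (1 / (8 * ph ^ 3 * (Q : ℝ) ^ 2 * K)) ≤
      ∑ x ∈ C, EE A Z W x h := by
    calc (#B : ENNReal) * ENNReal.ofReal (1 / (8 * ph ^ 3 * (Q : ℝ) ^ 2 * K)) =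
        ∑ x ∈ B, ENNReal.ofReal (1 / (8 * ph ^ 3 * (Q : ℝ) ^ 2 * K)) := by
          rw [Finset.sum_const, nsmul_eq_mul]
      _ ≤ ∑ x ∈ B, EE A Z W x h := Finset.sum_le_sum s1
      _ ≤ ∑ x ∈ C, EE A Z W x h := Finset.sum_le_sum_of_subset hBC
  -- Step 3
  have s3 : ∑ x ∈ C, EE A Z W x h = ∑' n : ℕ, ∑ x ∈ C, (if n ∈ A then En Z W x h n else 0) := by
    unfold EE
    exact (Summable.tsum_finsetSum fun _ _ => ENNReal.summable).symm
  set α : ℝ := (M : ℝ) * (12 * (1 + p) * ((W : ℝ) + 1) * rh ^ W / (p * n₀)) with hα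
  have hα0 : 0 ≤ α := by positivity
  have hβ0 : (0 : ℝ) ≤ (M : ℝ) * 65 := by positivity
  -- Step 4
  have s4 : ∀ n : ℕ, ∑ x ∈ C, (if n ∈ A then En Z W x h n else 0) ≤
      ENNReal.ofReal (α * (if n ∈ A then 1 / (n : ℝ) else 0)) +
        ENNReal.ofReal ((M : ℝ) * 65 * (if n ∈ A ∧ Z < n then 1 / (n : ℝ) else 0)) := by
    intro n
    by_cases hnA : n ∈ A
    · have hn0 : 0 < n := by
        rcases Nat.eq_zero_or_pos n with h | h
        · rw [h] at hnA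
          exact absurd hnA h0
        · exact h
      by_cases hnZ : n ≤ Z
      · simp only [hnA, if_true, En, hnZ]
        refine le_trans ?_ le_self_add
        exact swap_small hM hp hn₀ hW1 hnM hnh hn0 (hAM n hnA hnZ)
      · have hnZ' : Z < n := by omega
        simp only [hnA, if_true, En, hnZ, if_false, hnZ', and_self]
        refine le_trans ?_ le_add_self
        exact swap_large hM hhM hn0
    · simp only [hnA, if_false, Finset.sum_const_zero]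
      exact zero_le
  -- Step 5
  have hT : Summable fun n : ℕ => if n ∈ A ∧ Z < n then 1 / (n : ℝ) else 0 := by
    refine Summable.of_nonneg_of_le (fun n => ?_) (fun n => ?_) hS
    · split_ifs
      · positivity
      · exact le_rfl
    · by_cases hnA : n ∈ A
      · by_cases hnZ : Z < n
        · simp [hnA, hnZ]
        · simp [hnA, hnZ]
      · simp [hnA]
  have hSnn : ∀ n : ℕ, 0 ≤ α * (if n ∈ A then 1 / (n : ℝ) else 0) := by
    intro n
    apply mul_nonneg hα0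
    split_ifs
    · positivity
    · exact le_rfl
  have hTnn : ∀ n : ℕ, 0 ≤ (M : ℝ) * 65 * (if n ∈ A ∧ Z < n then 1 / (n : ℝ) else 0) := by
    intro n
    apply mul_nonneg hβ0
    split_ifs
    · positivity
    · exact le_rfl
  have hS0 : 0 ≤ SS A := tsum_nonneg fun n => by
    split_ifs
    · positivity
    · exact le_rfl
  have hT0 : 0 ≤ Tl A Z := tsum_nonneg fun n => by
    split_ifs
    · positivity
    · exact le_rfl
  have s5 : ∑' n : ℕ, ∑ x ∈ C, (if n ∈ A then En Z W x h n else 0) ≤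
      ENNReal.ofReal (α * SS A + (M : ℝ) * 65 * Tl A Z) := by
    calc ∑' n : ℕ, ∑ x ∈ C, (if n ∈ A then En Z W x h n else 0) ≤
        ∑' n : ℕ, (ENNReal.ofReal (α * (if n ∈ A then 1 / (n : ℝ) else 0)) +
        ENNReal.ofReal ((M : ℝ) * 65 * (if n ∈ A ∧ Z < n then 1 / (n : ℝ) else 0))) :=
          ENNReal.tsum_le_tsum s4
      _ = ENNReal.ofReal (α * SS A) + ENNReal.ofReal ((M : ℝ) * 65 * Tl A Z) := by
          rw [ENNReal.tsum_add, ← ENNReal.ofReal_tsum_of_nonneg hSnn (hS.mul_left α),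
            ← ENNReal.ofReal_tsum_of_nonneg hTnn (hT.mul_left _), tsum_mul_left, tsum_mul_left]
          rfl
      _ = _ := by
          rw [ENNReal.ofReal_add (mul_nonneg hα0 hS0) (mul_nonneg hβ0 hT0)]
  -- Step 6
  have s6 : (#B : ENNReal) * ENNReal.ofReal (1 / (8 * ph ^ 3 * (Q : ℝ) ^ 2 * K)) ≤
      ENNReal.ofReal (α * SS A + (M : ℝ) * 65 * Tl A Z) := by
    rw [s3] at s2
    exact s2.trans s5
  rw [← ENNReal.ofReal_natCast, ← ENNReal.ofReal_mul (by positivity),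
    ENNReal.ofReal_le_ofReal_iff (add_nonneg (mul_nonneg hα0 hS0) (mul_nonneg hβ0 hT0)),
    mul_one_div, div_le_iff₀ (by positivity)] at s6
  refine s6.trans (le_of_eq ?_)
  rw [hα]
  ring

end Pool.Agent.Helper75.Fib
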