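import Pool.Agent.Helper75.Fib.Defs
import Pool.Agent.Helper75.Fib.P_swap
import Pool.Agent.Helper75.Fib.P_shift
import Pool.Agent.Helper75.Fib.P_diffD
import Pool.Agent.Helper75.Fib.P_count_formula
import Pool.Agent.Helper75.Fib.P_primorial_ratio
import Pool.Agent.Helper75.Fib.P_alpha_D
import Pool.Agent.Helper75.Fib.P_alpha_B2

set_option autoImplicit false

/-! Definitions for the proof that the sum of `1 / F_n` over an infinite set `A` of positive
integers with `∑ 1/n < ∞` (`n ∈ A`) is irrational. -/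

noncomputable section

namespace Pool.Agent.Helper75.Fib
open Classical Finset


theorem primorial_dvd_factorial_ac {v Z : ℕ} (hvZ : v ≤ Z) : primorial v ∣ Z.factorial := by
  unfold primorial
  apply Finset.prod_primes_dvd
  · intro q hq
    exact (Finset.mem_filter.1 hq).2.prime
  · intro q hq
    rw [Finset.mem_filter, Finset.mem_range] at hq
    exact Nat.dvd_factorial hq.2.pos (by omega)

theorem alpha_core {A : Set ℕ} (h0 : 0 ∉ A)
    (hS : Summable fun n : ℕ => if n ∈ A then 1 / (n : ℝ) else 0) {Q : ℕ} (hQ : 0 < Q)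
    (hR : RatHyp A Q) {Z n₁ p e M v W : ℕ} (hp : p.Prime) (hp2 : p ≠ 2) (he : 1 ≤ e)
    (hA : n₁ ∈ A) (hZ : n₁ ≤ Z) (hpe : p ^ e ∣ n₁) (hpe' : ¬ p ^ (e + 1) ∣ n₁)
    (hmin : ∀ m : ℕ, m ∈ A → p ^ e ∣ m → m ∣ n₁ → Odd (n₁ / m) → m = n₁)
    (hv : p ≤ v) (hvZ : v ≤ Z) (hM : Mok n₁ Z M) (hW : W = p ^ (e - 1) * ((p - 1) / 2))
    (hb1 : (bad A Z n₁ (primorial v) M : ℝ) ≤ cnt n₁ (primorial v) M / 8)
    (hb2 : (bad A Z (n₁ / p) (primorial v) M : ℝ) ≤ cnt (n₁ / p) (primorial v) M / (8 * p))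
    (hK : 16 * ph ^ 4 * (Q : ℝ) ^ 2 * rh ^ (2 * p ^ e) ≤ 1)
    (hKw : 2 * ph ^ 2 * Q ≤ ph ^ (p ^ e))
    (hsmall : 8 * ph ^ 3 * (Q : ℝ) ^ 2 * v *
      (12 * (1 + p) * ((W : ℝ) + 1) * rh ^ W * SS A + 65 * n₁ * Tl A Z) ≤ 1 / 4) : False := by
  obtain ⟨hn1, hM0, hMd⟩ := hM
  have hn1M : n₁ ∣ M := by
    refine Dvd.dvd.trans ?_ hMd
    exact ⟨4 * (Z.factorial) ^ 2, by ring⟩
  have hp3 : 3 ≤ p := by
    have := hp.two_le
    omega
  obtain ⟨h, hhM, hhdvd, hdist⟩ := shift hp hp2 hM0 he (hpe.trans hn1M)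
  rw [← hW] at hdist
  have hpow : p ^ e = p ^ (e - 1) * p := by
    rw [← pow_succ]; congr 1; omega
  have hpn1 : p ∣ n₁ := by
    refine Dvd.dvd.trans ?_ hpe
    exact dvd_pow_self p (by omega)
  obtain ⟨n', hn'⟩ := hpn1
  have hpp : 0 < p := hp.pos
  have hdiv : n₁ / p = n' := by
    rw [hn']; exact Nat.mul_div_cancel_left n' hpp
  have hn'0 : 0 < n' := by
    rcases Nat.eq_zero_or_pos n' with h' | h'
    · rw [h', mul_zero] at hn'; omega
    · exact h'
  rw [hdiv] at hb2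
  have hW1 : 1 ≤ W := by
    rw [hW]
    have h1 : 1 ≤ p ^ (e - 1) := Nat.one_le_pow _ _ hpp
    have h2 : 1 ≤ (p - 1) / 2 := by omega
    exact Nat.mul_le_mul h1 h2
  have hWw : W ≤ p ^ e := by
    rw [hW, hpow]
    exact Nat.mul_le_mul_left _ (by omega)
  have hwh : ¬ p ^ e ∣ h := by
    intro hc
    have := hdist h hc
    rw [Nat.dist_self] at this
    omega
  have hcop4 : Nat.Coprime (p ^ e) 4 := by
    have h1 : Nat.Coprime p 2 := (Nat.coprime_primes hp Nat.prime_two).2 hp2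
    have h2 : Nat.Coprime (p ^ e) (2 ^ 2) := Nat.Coprime.pow _ _ h1
    simpa using h2
  have hAM4 : ∀ n : ℕ, n ∈ A → n ≤ Z → 4 * n ∣ M := by
    intro n hn hnZ
    have hn0 : 0 < n := Nat.pos_of_ne_zero fun hh => h0 (hh ▸ hn)
    obtain ⟨k, hk⟩ := Nat.dvd_factorial hn0 hnZ
    refine Dvd.dvd.trans ?_ hMd
    exact ⟨n₁ * k * Z.factorial, by rw [pow_two]; conv_lhs => rw [hk]; 
                                    ring_nf
                                    rw [hk]; ring⟩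
  have hdvd : ∀ n : ℕ, n ∈ A → n ≤ Z → ¬ p ^ e ∣ n → 4 * n ∣ h := by
    intro n hn hnZ hnw
    refine hhdvd (4 * n) (hAM4 n hn hnZ) ?_
    intro hc
    exact hnw (hcop4.dvd_of_dvd_mul_left hc)
  have hn'h : n' ∣ h := by
    refine hhdvd n' (Dvd.dvd.trans ⟨p, by rw [hn']; ring⟩ hn1M) ?_
    intro hc
    apply hpe'
    rw [hn', pow_succ, mul_comm]
    exact Nat.mul_dvd_mul_left p hc
  -- counting
  set P := primorial v with hP
  have hP0 : 0 < P := primorial_pos v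
  have hPM : n₁ * P ∣ M := by
    obtain ⟨k, hk⟩ := primorial_dvd_factorial_ac hvZ
    refine Dvd.dvd.trans ?_ hMd
    refine ⟨4 * k * Z.factorial, ?_⟩
    rw [pow_two]
    nth_rewrite 1 [hk]
    ring
  have hPM' : n' * P ∣ M := by
    refine Dvd.dvd.trans ?_ hPM
    exact ⟨p, by rw [hn']; ring⟩
  have hc1 : cnt n₁ P M * (n₁ * P) = M * Nat.totient P := by
    have := count_formula hn1 hP0 hPM M
    rw [← two_mul] at this
    exact this
  have hc2 : cnt n' P M * (n' * P) = M * Nat.totient P := by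
    have := count_formula hn'0 hP0 hPM' M
    rw [← two_mul] at this
    exact this
  have hc12 : cnt n' P M = p * cnt n₁ P M := by
    have h1 : cnt n' P M * (n' * P) = (p * cnt n₁ P M) * (n' * P) := by
      rw [hc2, ← hc1, hn']; ring
    exact Nat.eq_of_mul_eq_mul_right (Nat.mul_pos hn'0 hP0) h1
  have hMc : M ≤ n₁ * v * cnt n₁ P M := by
    have h1 := primorial_ratio (v := v) (by omega)
    rw [← hP] at h1
    have h2 : M * P ≤ (n₁ * v * cnt n₁ P M) * P := by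
      calc M * P ≤ M * (v * Nat.totient P) := Nat.mul_le_mul_left _ h1
        _ = v * (M * Nat.totient P) := by ring
        _ = v * (cnt n₁ P M * (n₁ * P)) := by rw [hc1]
        _ = _ := by ring
    exact Nat.le_of_mul_le_mul_right h2 hP0
  have hcpos : 0 < cnt n₁ P M := by
    rcases Nat.eq_zero_or_pos (cnt n₁ P M) with h' | h'
    · rw [h', mul_zero] at hMc; omega
    · exact h'
  set c : ℝ := (cnt n₁ P M : ℝ) with hcdef
  have hc0 : 0 < c := by rw [hcdef]; exact_mod_cast hcpos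
  set G := (Ico M (2 * M)).filter
        (fun x => p * n' ∣ x ∧ Dl A Z (p ^ e) x ≠ 0 ∧ |(Dl A Z (p ^ e) x : ℝ)| ≤ 1) with hG
  set S0 := (Ico M (2 * M)).filter (fun x => n₁ ∣ x ∧ Nat.Coprime (x / n₁) P) with hS0
  set B1 := (Ico M (2 * M)).filter (fun x => n₁ ∣ x ∧ Nat.Coprime (x / n₁) P ∧
    Dl A Z 1 x ≠ Dl A Z 1 n₁) with hB1
  set B2 := (Ico M (2 * M)).filter (fun x => n₁ ∣ x ∧ Nat.Coprime (x / n₁) P ∧
      Dl A Z 1 (x + h) ≠ Dl A Z 1 (n₁ / p)) with hB2
  have hsub : S0 ⊆ G ∪ (B1 ∪ B2) := by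
    intro x hx
    rw [hS0, mem_filter] at hx
    rw [mem_union, mem_union]
    by_cases h1 : Dl A Z 1 x = Dl A Z 1 n₁
    · by_cases h2 : Dl A Z 1 (x + h) = Dl A Z 1 (n₁ / p)
      · left
        rw [hG, mem_filter]
        have hx0 : 0 < x := by
          have := (mem_Ico.1 hx.1).1
          omega
        have h3 := diffD h0 (Z := Z) hx0 (hpe.trans hx.2.1) hwh hdvd
        have h4 := alpha_D h0 hp hp2 he hA hZ hpe hpe' hmin
        have h5 : Dl A Z (p ^ e) x = sg n₁ := by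
          rw [h1, h2, h4] at h3
          linarith
        refine ⟨hx.1, ?_, ?_, ?_⟩
        · rw [← hn']; exact hx.2.1
        · rw [h5]
          unfold sg
          split_ifs
          · exact one_ne_zero
          · exact pow_ne_zero _ (by norm_num)
        · rw [h5]
          unfold sg
          split_ifs
          · simp
          · push_cast
            rw [abs_pow, abs_neg, abs_one, one_pow]
      · right; right
        rw [hB2, mem_filter]
        exact ⟨hx.1, hx.2.1, hx.2.2, h2⟩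
    · right; left
      rw [hB1, mem_filter]
      exact ⟨hx.1, hx.2.1, hx.2.2, h1⟩
  have hcard : #S0 ≤ #G + (#B1 + #B2) :=
    (card_le_card hsub).trans ((card_union_le _ _).trans
      (Nat.add_le_add_left (card_union_le _ _) _))
  have hB2le : #B2 ≤ bad A Z (n₁ / p) P M :=
    alpha_B2 h0 hp hp2 he hpe hpe' hv hvZ ⟨hn1, hM0, hMd⟩ hhdvd hwh
  rw [hdiv] at hB2le
  have hcardR : c ≤ (#G : ℝ) + c / 4 := by
    have h1 : (#S0 : ℝ) ≤ #G + (#B1 + #B2) := by exact_mod_cast hcard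
    have h2 : (#S0 : ℝ) = c := rfl
    have h3 : (#B1 : ℝ) ≤ c / 8 := hb1
    have h4 : (#B2 : ℝ) ≤ c / 8 := by
      have h5 : (#B2 : ℝ) ≤ (bad A Z n' P M : ℝ) := by exact_mod_cast hB2le
      refine h5.trans (hb2.trans (le_of_eq ?_))
      rw [hc12]
      push_cast
      have : (p:ℝ) ≠ 0 := by exact_mod_cast hpp.ne'
      rw [← hcdef]
      field_simp
    linarith
  have hsw := swap (A := A) h0 hS hQ hR (Z := Z) (M := M) (p := p) (w := p ^ e) (W := W) (n₀ := n')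
    (h := h) (K := 1) hM0 hpp hn'0 hW1 hWw (by rw [← hn']; exact hpe) (by rw [← hn']; exact hn1M)
    hn'h hhM hdist hdvd (fun n hn hnZ => Dvd.dvd.trans ⟨4, by ring⟩ (hAM4 n hn hnZ)) le_rfl
    (by rw [mul_one]; exact hK) (by rw [mul_one]; exact hKw)
  rw [← hG] at hsw
  have hn1R : (p:ℝ) * n' = n₁ := by rw [hn']; push_cast; ring
  rw [hn1R, mul_one] at hsw
  have hSS : 0 ≤ SS A := by
    unfold SS
    apply tsum_nonneg
    intro n
    split_ifs
    · positivity
    · exact le_rfl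
  have hTl : 0 ≤ Tl A Z := by
    unfold Tl
    apply tsum_nonneg
    intro n
    split_ifs
    · positivity
    · exact le_rfl
  have hrh := rh_pos
  have hph := ph_pos
  have hn1pos : (0:ℝ) < n₁ := by exact_mod_cast hn1
  set X : ℝ := 12 * (1 + p) * ((W : ℝ) + 1) * rh ^ W * SS A + 65 * n₁ * Tl A Z with hX
  have hX0 : 0 ≤ X := by positivity
  have h1 : 12 * (1 + (p:ℝ)) * ((W : ℝ) + 1) * rh ^ W * SS A / n₁ + 65 * Tl A Z = X / n₁ := by
    rw [hX]
    field_simp
  rw [h1] at hsw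
  have h2 : (M : ℝ) ≤ n₁ * v * c := by
    rw [hcdef]; exact_mod_cast hMc
  have h3 : 8 * ph ^ 3 * (Q : ℝ) ^ 2 * M * (X / n₁) ≤ c * (8 * ph ^ 3 * (Q : ℝ) ^ 2 * v * X) := by
    have h4 : (M : ℝ) * (X / n₁) ≤ (n₁ * v * c) * (X / n₁) :=
      mul_le_mul_of_nonneg_right h2 (by positivity)
    have h5 : (n₁ * v * c : ℝ) * (X / n₁) = v * c * X := by
      field_simp
    rw [h5] at h4
    have h6 : 0 ≤ 8 * ph ^ 3 * (Q : ℝ) ^ 2 := by positivity
    nlinarith [mul_le_mul_of_nonneg_left h4 h6]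
  have h7 : c * (8 * ph ^ 3 * (Q : ℝ) ^ 2 * v * X) ≤ c * (1 / 4) :=
    mul_le_mul_of_nonneg_left hsmall hc0.le
  linarith

end Pool.Agent.Helper75.Fib
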