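import Pool.Agent.Helper75.Fib.Defs

set_option autoImplicit false

/-! Definitions for the proof that the sum of `1 / F_n` over an infinite set `A` of positive
integers with `∑ 1/n < ∞` (`n ∈ A`) is irrational. -/

noncomputable section

namespace Pool.Agent.Helper75.Fib
open Classical Finset


theorem lq1 : ∃ q₁ : ℕ, ∀ q : ℕ, q₁ ≤ q → q ≤ ⌊(21 / 20 : ℝ) ^ q⌋₊ := by
  have h := tendsto_pow_const_div_const_pow_of_one_lt 1 (show (1 : ℝ) < 21 / 20 by norm_num)
  have h1 := h.eventually (gt_mem_nhds (show (0 : ℝ) < 1 by norm_num))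
  obtain ⟨q₁, hq₁⟩ := Filter.eventually_atTop.1 h1
  refine ⟨q₁, fun q hq => Nat.le_floor ?_⟩
  have h2 := hq₁ q hq
  rw [pow_one, div_lt_one (by positivity)] at h2
  exact h2.le

end Pool.Agent.Helper75.Fib
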