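import Pool.Agent.Helper75.Fib.Defs

set_option autoImplicit false

/-! Definitions for the proof that the sum of `1 / F_n` over an infinite set `A` of positive
integers with `∑ 1/n < ∞` (`n ∈ A`) is irrational. -/

noncomputable section

namespace Pool.Agent.Helper75.Fib
open Classical Finset


theorem lq3_ev (C r : ℝ) (hr0 : 0 ≤ r) (hr : r < 1) :
    ∀ᶠ v : ℕ in Filter.atTop, C * r ^ v ≤ 1 := by
  have h1 : Filter.Tendsto (fun v : ℕ => C * r ^ v) Filter.atTop (nhds (C * 0)) :=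
    (tendsto_pow_atTop_nhds_zero_of_lt_one hr0 hr).const_mul C
  rw [mul_zero] at h1
  exact (h1.eventually (eventually_lt_nhds zero_lt_one)).mono fun v hv => hv.le

theorem lq3 (Q : ℕ) : ∃ q₁ : ℕ, ∀ v : ℕ, q₁ ≤ v →
    16 * ph ^ 4 * (Q : ℝ) ^ 2 * (21 / 20 : ℝ) ^ v * rh ^ (2 * v) ≤ 1 ∧
      2 * ph ^ 2 * Q * (21 / 20 : ℝ) ^ v ≤ ph ^ v := by
  have p0 := ph_pos
  have p1 := one_lt_ph
  have p2 := ph_lt_two
  have p3 := ph_sq
  have r0 := rh_pos
  have r1 := rh_lt_one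
  have r2 := rh_sq
  have r3 : 1 / 2 < rh := by
    have h := ph_mul_rh
    nlinarith
  have a1 : (21 / 20 : ℝ) * rh ^ 2 < 1 := by rw [r2]; linarith
  have a1' : (0 : ℝ) ≤ (21 / 20 : ℝ) * rh ^ 2 := by positivity
  have a2 : (21 / 20 : ℝ) / ph < 1 := by
    rw [div_lt_one p0]
    nlinarith
  have a2' : (0 : ℝ) ≤ (21 / 20 : ℝ) / ph := by positivity
  have e := (lq3_ev (16 * ph ^ 4 * (Q : ℝ) ^ 2) _ a1' a1).and
    (lq3_ev (2 * ph ^ 2 * Q) _ a2' a2)
  obtain ⟨q, hq⟩ := Filter.eventually_atTop.1 e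
  refine ⟨q, fun v hv => ?_⟩
  obtain ⟨h1, h2⟩ := hq v hv
  constructor
  · refine le_of_eq_of_le ?_ h1
    rw [mul_pow, pow_mul]
    ring
  · rw [div_pow, ← mul_div_assoc, div_le_one (pow_pos p0 v)] at h2
    exact h2

end Pool.Agent.Helper75.Fib
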