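import Pool.Agent.Helper75.Fib.Defs

set_option autoImplicit false

/-! Definitions for the proof that the sum of `1 / F_n` over an infinite set `A` of positive
integers with `∑ 1/n < ∞` (`n ∈ A`) is irrational. -/

noncomputable section

namespace Pool.Agent.Helper75.Fib
open Classical Finset


theorem lq5 (C : ℝ) (hC : 0 ≤ C) : ∃ q₁ : ℕ, ∀ v W : ℕ, q₁ ≤ v → v ≤ 3 * W → W ≤ v →
    C * (21 / 20 : ℝ) ^ v * ((1 + v) * ((W : ℝ) + 1) * rh ^ W) ≤ 1 := by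
  have hr0 := rh_pos
  have hr : rh < 62 / 100 := by
    by_contra h
    push Not at h
    have := rh_sq
    nlinarith
  have ht : Filter.Tendsto (fun n : ℕ => (n : ℝ) ^ 2 * (3 / 4 : ℝ) ^ n) Filter.atTop (nhds 0) :=
    tendsto_pow_const_mul_const_pow_of_abs_lt_one 2 (by rw [abs_of_pos] <;> norm_num)
  have hδ : 0 < 1 / (4 * C + 1) := by positivity
  obtain ⟨W0, hW0⟩ := Filter.eventually_atTop.mp (ht.eventually (gt_mem_nhds hδ))
  refine ⟨3 * W0, fun v W hv1 hv2 hv3 => ?_⟩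
  have hW : W0 ≤ W + 1 := by omega
  have h1 := hW0 (W + 1) hW
  have hv2' : (v : ℝ) ≤ 3 * W := by exact_mod_cast hv2
  have hWn : (0 : ℝ) ≤ W := Nat.cast_nonneg _
  have e1 : (21 / 20 : ℝ) ^ v ≤ ((21 / 20 : ℝ) ^ 3) ^ W := by
    rw [← pow_mul]
    exact pow_le_pow_right₀ (by norm_num) hv2
  have e2 : (1 + (v : ℝ)) * ((W : ℝ) + 1) * rh ^ W ≤ 3 * ((W : ℝ) + 1) ^ 2 * rh ^ W := by
    apply mul_le_mul_of_nonneg_right _ (pow_nonneg hr0.le _)
    nlinarith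
  have e3 : ((21 / 20 : ℝ) ^ 3) ^ W * rh ^ W ≤ (3 / 4 : ℝ) ^ W := by
    rw [← mul_pow]
    apply pow_le_pow_left₀ (by positivity)
    nlinarith
  have e4 : 0 ≤ (1 + (v : ℝ)) * ((W : ℝ) + 1) * rh ^ W := by positivity
  calc C * (21 / 20 : ℝ) ^ v * ((1 + v) * ((W : ℝ) + 1) * rh ^ W)
      ≤ C * ((21 / 20 : ℝ) ^ 3) ^ W * (3 * ((W : ℝ) + 1) ^ 2 * rh ^ W) := by
        apply mul_le_mul (mul_le_mul_of_nonneg_left e1 hC) e2 e4
        positivity
    _ = 3 * C * ((W : ℝ) + 1) ^ 2 * (((21 / 20 : ℝ) ^ 3) ^ W * rh ^ W) := by ring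
    _ ≤ 3 * C * ((W : ℝ) + 1) ^ 2 * (3 / 4 : ℝ) ^ W :=
        mul_le_mul_of_nonneg_left e3 (by positivity)
    _ = 4 * C * (((W + 1 : ℕ) : ℝ) ^ 2 * (3 / 4 : ℝ) ^ (W + 1)) := by
        push_cast
        rw [pow_succ]
        ring
    _ ≤ 4 * C * (1 / (4 * C + 1)) := mul_le_mul_of_nonneg_left h1.le (by positivity)
    _ ≤ 1 := by
        rw [mul_one_div, div_le_one (by positivity)]
        linarith

end Pool.Agent.Helper75.Fib
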