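import Pool.Agent.Helper75.Fib.Defs

set_option autoImplicit false

/-! Definitions for the proof that the sum of `1 / F_n` over an infinite set `A` of positive
integers with `∑ 1/n < ∞` (`n ∈ A`) is irrational. -/

noncomputable section

namespace Pool.Agent.Helper75.Fib
open Classical Finset

theorem lq6a_rh : rh ≤ 62 / 100 := by
  by_contra h
  push Not at h
  have h1 := rh_sq
  nlinarith [rh_pos]

theorem lq6a_B : ∃ B : ℝ, 0 ≤ B ∧ ∀ m : ℕ, ((m : ℝ) + 2) ^ 2 * (69 / 81 : ℝ) ^ m ≤ B := by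
  have h1 : Filter.Tendsto (fun n : ℕ => (n : ℝ) ^ 2 * (69 / 81 : ℝ) ^ n) Filter.atTop (nhds 0) :=
    tendsto_pow_const_mul_const_pow_of_abs_lt_one 2 (by rw [abs_of_pos] <;> norm_num)
  obtain ⟨B, hB⟩ := h1.bddAbove_range
  have hB0 : 0 ≤ B := by
    have := hB ⟨0, rfl⟩
    simpa using this
  refine ⟨B * (81 / 69) ^ 2, by positivity, fun m => ?_⟩
  have h2 : ((m + 2 : ℕ) : ℝ) ^ 2 * (69 / 81 : ℝ) ^ (m + 2) ≤ B := hB ⟨m + 2, rfl⟩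
  calc ((m : ℝ) + 2) ^ 2 * (69 / 81 : ℝ) ^ m
      = (((m + 2 : ℕ) : ℝ) ^ 2 * (69 / 81 : ℝ) ^ (m + 2)) * (81 / 69) ^ 2 := by
        push_cast; rw [pow_add]; ring
    _ ≤ B * (81 / 69) ^ 2 := mul_le_mul_of_nonneg_right h2 (by positivity)

theorem lq6a_term (C : ℝ) (hC : 0 ≤ C) : ∃ D : ℝ, 0 ≤ D ∧ ∀ p : ℕ,
    C * (21 / 20 : ℝ) ^ p * ((1 + p) * ((((p - 1) / 2 : ℕ) : ℝ) + 1) * rh ^ ((p - 1) / 2)) ≤
      D * (9 / 10 : ℝ) ^ p := by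
  obtain ⟨B, hB0, hB⟩ := lq6a_B
  refine ⟨C * (441 / 400) * 2 * B * (100 / 81), by positivity, fun p => ?_⟩
  have hp : p ≤ 2 * ((p - 1) / 2) + 2 := by omega
  generalize (p - 1) / 2 = m at hp ⊢
  have hpR : (p : ℝ) ≤ 2 * m + 2 := by exact_mod_cast hp
  have hm0 : (0 : ℝ) ≤ m := Nat.cast_nonneg m
  have h1 : (21 / 20 : ℝ) ^ p ≤ (21 / 20 : ℝ) ^ (2 * m + 2) :=
    pow_le_pow_right₀ (by norm_num) hp
  have h2 : (9 / 10 : ℝ) ^ (2 * m + 2) ≤ (9 / 10 : ℝ) ^ p :=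
    pow_le_pow_of_le_one (by norm_num) (by norm_num) hp
  have h3 : ((441 / 400 : ℝ) * rh) ^ m ≤ (69 / 100 : ℝ) ^ m :=
    pow_le_pow_left₀ (mul_nonneg (by norm_num) rh_pos.le) (by linarith [lq6a_rh]) m
  have hrm : 0 ≤ rh ^ m := pow_nonneg rh_pos.le m
  calc C * (21 / 20 : ℝ) ^ p * ((1 + p) * ((m : ℝ) + 1) * rh ^ m)
      ≤ C * (21 / 20 : ℝ) ^ (2 * m + 2) * ((2 * ((m : ℝ) + 2) ^ 2) * rh ^ m) := by
        apply mul_le_mul (mul_le_mul_of_nonneg_left h1 hC) _ (by positivity) (by positivity)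
        apply mul_le_mul_of_nonneg_right _ hrm
        have h4 : (1 + (p : ℝ)) * ((m : ℝ) + 1) ≤ (2 * m + 3) * ((m : ℝ) + 1) :=
          mul_le_mul_of_nonneg_right (by linarith) (by linarith)
        nlinarith
    _ = C * (441 / 400) * 2 * (((m : ℝ) + 2) ^ 2 * ((441 / 400 : ℝ) * rh) ^ m) := by
        rw [mul_pow (441 / 400 : ℝ) rh m, pow_add, pow_mul]
        norm_num
        ring
    _ ≤ C * (441 / 400) * 2 * (((m : ℝ) + 2) ^ 2 * (69 / 100 : ℝ) ^ m) := by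
        apply mul_le_mul_of_nonneg_left _ (by positivity)
        exact mul_le_mul_of_nonneg_left h3 (by positivity)
    _ = C * (441 / 400) * 2 * ((((m : ℝ) + 2) ^ 2 * (69 / 81 : ℝ) ^ m) * (81 / 100 : ℝ) ^ m) := by
        rw [mul_assoc (((m : ℝ) + 2) ^ 2), ← mul_pow]
        norm_num
    _ ≤ C * (441 / 400) * 2 * (B * (81 / 100 : ℝ) ^ m) := by
        apply mul_le_mul_of_nonneg_left _ (by positivity)
        exact mul_le_mul_of_nonneg_right (hB m) (by positivity)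
    _ = C * (441 / 400) * 2 * B * (100 / 81) * (9 / 10 : ℝ) ^ (2 * m + 2) := by
        rw [pow_add, pow_mul]
        norm_num
        ring
    _ ≤ C * (441 / 400) * 2 * B * (100 / 81) * (9 / 10 : ℝ) ^ p :=
        mul_le_mul_of_nonneg_left h2 (by positivity)

theorem lq6a (C : ℝ) (hC : 0 ≤ C) : ∃ q₁ : ℕ, ∀ q : ℕ, q₁ ≤ q → ∀ Z₁ : ℕ,
    ∑ p ∈ Ioc ⌊(21 / 20 : ℝ) ^ q⌋₊ Z₁,
      C * (21 / 20 : ℝ) ^ p * ((1 + p) * ((((p - 1) / 2 : ℕ) : ℝ) + 1) * rh ^ ((p - 1) / 2)) ≤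
        (1 : ℝ) / q := by
  obtain ⟨D, hD0, hD⟩ := lq6a_term C hC
  have e1 : ∀ᶠ q : ℕ in Filter.atTop, (q : ℝ) ^ 1 / (21 / 20 : ℝ) ^ q < 1 :=
    (tendsto_pow_const_div_const_pow_of_one_lt 1 (by norm_num : (1 : ℝ) < 21 / 20)).eventually_lt_const
      (by norm_num)
  have e2 : ∀ᶠ q : ℕ in Filter.atTop, 10 * D * ((q : ℝ) ^ 1 * (9 / 10 : ℝ) ^ q) < 1 := by
    have h1 : Filter.Tendsto (fun q : ℕ => 10 * D * ((q : ℝ) ^ 1 * (9 / 10 : ℝ) ^ q)) Filter.atTop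
        (nhds (10 * D * 0)) :=
      (tendsto_pow_const_mul_const_pow_of_abs_lt_one 1
        (by rw [abs_of_pos] <;> norm_num : |(9 / 10 : ℝ)| < 1)).const_mul _
    exact h1.eventually_lt_const (by norm_num)
  obtain ⟨q₁, hq₁⟩ := Filter.eventually_atTop.1 (e1.and (e2.and (Filter.eventually_ge_atTop 1)))
  refine ⟨q₁, fun q hq Z₁ => ?_⟩
  obtain ⟨h1, h2, h3⟩ := hq₁ q hq
  have hq0 : (0 : ℝ) < q := by exact_mod_cast h3
  rw [pow_one, div_lt_one (by positivity)] at h1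
  have hY : q ≤ ⌊(21 / 20 : ℝ) ^ q⌋₊ := Nat.le_floor h1.le
  generalize ⌊(21 / 20 : ℝ) ^ q⌋₊ = Y at hY ⊢
  have hI : Ioc Y Z₁ = Ico (Y + 1) (Z₁ + 1) := by
    ext a; simp only [Finset.mem_Ioc, Finset.mem_Ico]; omega
  calc ∑ p ∈ Ioc Y Z₁,
      C * (21 / 20 : ℝ) ^ p * ((1 + p) * ((((p - 1) / 2 : ℕ) : ℝ) + 1) * rh ^ ((p - 1) / 2))
      ≤ ∑ p ∈ Ioc Y Z₁, D * (9 / 10 : ℝ) ^ p := Finset.sum_le_sum fun p _ => hD p
    _ = D * ∑ p ∈ Ico (Y + 1) (Z₁ + 1), (9 / 10 : ℝ) ^ p := by rw [hI, Finset.mul_sum]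
    _ ≤ D * ((9 / 10 : ℝ) ^ (Y + 1) / (1 - 9 / 10)) :=
        mul_le_mul_of_nonneg_left (geom_sum_Ico_le_of_lt_one (by norm_num) (by norm_num)) hD0
    _ = 10 * D * (9 / 10 : ℝ) ^ (Y + 1) := by norm_num; ring
    _ ≤ 10 * D * (9 / 10 : ℝ) ^ q :=
        mul_le_mul_of_nonneg_left (pow_le_pow_of_le_one (by norm_num) (by norm_num) (by omega))
          (by positivity)
    _ ≤ 1 / q := by
        rw [le_div_iff₀ hq0]
        rw [pow_one] at h2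
        nlinarith [h2]

end Pool.Agent.Helper75.Fib
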