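import Pool.Agent.Helper75.Fib.Defs

set_option autoImplicit false

/-! Definitions for the proof that the sum of `1 / F_n` over an infinite set `A` of positive
integers with `∑ 1/n < ∞` (`n ∈ A`) is irrational. -/

noncomputable section

namespace Pool.Agent.Helper75.Fib
open Classical Finset


theorem lq6b (C : ℝ) (hC : 0 ≤ C) : ∃ q₁ : ℕ, ∀ q : ℕ, q₁ ≤ q → ∀ n Z₁ : ℕ,
    (n : ℝ) ^ 4 ≤ (21 / 20 : ℝ) ^ ⌊(21 / 20 : ℝ) ^ q⌋₊ →
      ∑ p ∈ Ioc ⌊(21 / 20 : ℝ) ^ q⌋₊ Z₁, (n : ℝ) * p * (C / (21 / 20 : ℝ) ^ p) ≤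
        (1 : ℝ) / q := by
  -- a bound for `p ^ 16 (20/21) ^ (3 p)`
  obtain ⟨K, hK1, hK⟩ : ∃ K : ℝ, 1 ≤ K ∧ ∀ p : ℕ, (p : ℝ) ^ 16 * ((20 / 21 : ℝ) ^ 3) ^ p ≤ K := by
    have h1 : Filter.Tendsto (fun n : ℕ => (n : ℝ) ^ 16 * ((20 / 21 : ℝ) ^ 3) ^ n) Filter.atTop
        (nhds 0) := by
      apply tendsto_pow_const_mul_const_pow_of_abs_lt_one
      rw [abs_of_pos (by positivity)]
      norm_num
    obtain ⟨K, hK⟩ := h1.bddAbove_range
    refine ⟨max 1 K, le_max_left _ _, fun p => ?_⟩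
    exact (hK ⟨p, rfl⟩).trans (le_max_right _ _)
  obtain ⟨S, hS⟩ : ∃ S : ℝ, S = ∑' p : ℕ, 1 / (p : ℝ) ^ 2 := ⟨_, rfl⟩
  have hsum : Summable fun p : ℕ => 1 / (p : ℝ) ^ 2 :=
    Real.summable_one_div_nat_pow.2 one_lt_two
  have hS0 : 0 ≤ S := by
    rw [hS]
    exact tsum_nonneg fun p => by positivity
  have h2 : Filter.Tendsto (fun q : ℕ => (q : ℝ) ^ 1 / (21 / 20 : ℝ) ^ q * (C * K * S))
      Filter.atTop (nhds (0 * (C * K * S))) :=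
    (tendsto_pow_const_div_const_pow_of_one_lt 1 (by norm_num)).mul_const _
  rw [zero_mul] at h2
  have h3 := h2.eventually (gt_mem_nhds (show (0 : ℝ) < 1 by norm_num))
  obtain ⟨q₀, hq₀⟩ := Filter.eventually_atTop.1 h3
  refine ⟨max q₀ 1, fun q hq n Z₁ hn => ?_⟩
  have hq1 : q₀ ≤ q := le_trans (le_max_left _ _) hq
  have hq2 : 1 ≤ q := le_trans (le_max_right _ _) hq
  have hqpos : (0 : ℝ) < q := by exact_mod_cast hq2
  obtain ⟨Y, hY⟩ : ∃ Y : ℕ, Y = ⌊(21 / 20 : ℝ) ^ q⌋₊ := ⟨_, rfl⟩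
  rw [← hY] at hn ⊢
  have hYlt : (21 / 20 : ℝ) ^ q < (Y : ℝ) + 1 := by
    rw [hY]
    exact Nat.lt_floor_add_one _
  have hbq : (0 : ℝ) < (21 / 20 : ℝ) ^ q := by positivity
  have hY1 : (0 : ℝ) < (Y : ℝ) + 1 := by positivity
  -- the terms
  have hterm : ∀ p ∈ Ioc Y Z₁, (n : ℝ) * p * (C / (21 / 20 : ℝ) ^ p) ≤
      C * K / ((Y : ℝ) + 1) * (1 / (p : ℝ) ^ 2) := by
    intro p hp
    rw [Finset.mem_Ioc] at hp
    have hp1 : (Y : ℝ) + 1 ≤ p := by exact_mod_cast hp.1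
    have hp0 : (0 : ℝ) < p := by linarith
    have hbp : (0 : ℝ) < (21 / 20 : ℝ) ^ p := by positivity
    have hn4 : (n : ℝ) ^ 4 ≤ (21 / 20 : ℝ) ^ p :=
      hn.trans (pow_le_pow_right₀ (by norm_num) hp.1.le)
    obtain ⟨x, hx⟩ : ∃ x : ℝ, x = (p : ℝ) ^ 4 * (n / (21 / 20 : ℝ) ^ p) := ⟨_, rfl⟩
    have hx0 : 0 ≤ x := by rw [hx]; positivity
    have hx4 : x ^ 4 ≤ K := by
      refine le_trans ?_ (hK p)
      have e1 : x ^ 4 = (p : ℝ) ^ 16 * ((n : ℝ) ^ 4 / ((21 / 20 : ℝ) ^ p) ^ 4) := by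
        rw [hx, mul_pow, div_pow]
        ring
      rw [e1]
      refine mul_le_mul_of_nonneg_left ?_ (by positivity)
      rw [div_le_iff₀ (by positivity)]
      have e2 : ((20 / 21 : ℝ) ^ 3) ^ p * ((21 / 20 : ℝ) ^ p) ^ 4 = (21 / 20 : ℝ) ^ p := by
        rw [← pow_mul, ← pow_mul, mul_comm p 4, pow_mul (21 / 20 : ℝ) 4 p,
          pow_mul (20 / 21 : ℝ) 3 p, ← mul_pow]
        norm_num
      rw [e2]
      exact hn4
    have hxK : x ≤ K := by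
      by_contra hcon
      push Not at hcon
      have hx1 : 1 ≤ x := hK1.trans hcon.le
      have : x ≤ x ^ 4 := by
        calc x = x ^ 1 := (pow_one x).symm
          _ ≤ x ^ 4 := pow_le_pow_right₀ hx1 (by norm_num)
      linarith
    have e3 : (n : ℝ) * p * (C / (21 / 20 : ℝ) ^ p) = C * x / (p : ℝ) ^ 3 := by
      rw [hx]
      field_simp
    rw [e3]
    have e4 : C * K / ((Y : ℝ) + 1) * (1 / (p : ℝ) ^ 2) = C * K / (((Y : ℝ) + 1) * (p : ℝ) ^ 2) := by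
      field_simp
    rw [e4]
    refine div_le_div₀ (by positivity) (mul_le_mul_of_nonneg_left hxK hC) (by positivity) ?_
    have : (p : ℝ) ^ 3 = p * (p : ℝ) ^ 2 := by ring
    rw [this]
    exact mul_le_mul_of_nonneg_right hp1 (by positivity)
  refine (Finset.sum_le_sum hterm).trans ?_
  rw [← Finset.mul_sum]
  have h4 : ∑ p ∈ Ioc Y Z₁, 1 / (p : ℝ) ^ 2 ≤ S := by
    rw [hS]
    exact hsum.sum_le_tsum _ fun p _ => by positivity
  have h5 : C * K / ((Y : ℝ) + 1) * ∑ p ∈ Ioc Y Z₁, 1 / (p : ℝ) ^ 2 ≤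
      C * K / ((Y : ℝ) + 1) * S := mul_le_mul_of_nonneg_left h4 (by positivity)
  refine h5.trans ?_
  have h6 := hq₀ q hq1
  simp only [pow_one] at h6
  rw [le_div_iff₀ hqpos]
  have h7 : C * K / ((Y : ℝ) + 1) * S * q ≤ (q : ℝ) / (21 / 20 : ℝ) ^ q * (C * K * S) := by
    have e5 : C * K / ((Y : ℝ) + 1) * S * q = (q : ℝ) / ((Y : ℝ) + 1) * (C * K * S) := by
      field_simp
    rw [e5]
    refine mul_le_mul_of_nonneg_right ?_ (by positivity)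
    exact div_le_div_of_nonneg_left hqpos.le hbq hYlt.le
  linarith

end Pool.Agent.Helper75.Fib
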