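import Pool.Agent.Helper75.Fib.Defs
import Pool.Agent.Helper75.Fib.P_lq1
import Pool.Agent.Helper75.Fib.P_lq3
import Pool.Agent.Helper75.Fib.P_lq5
import Pool.Agent.Helper75.Fib.P_lq6a
import Pool.Agent.Helper75.Fib.P_lq6b

set_option autoImplicit false

/-! Definitions for the proof that the sum of `1 / F_n` over an infinite set `A` of positive
integers with `∑ 1/n < ∞` (`n ∈ A`) is irrational. -/

noncomputable section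

namespace Pool.Agent.Helper75.Fib
open Classical Finset


/-- The numerical conditions for large `q`. -/
theorem large_q (A : Set ℕ) (Q : ℕ) : ∃ q₁ : ℕ, ∀ q : ℕ, q₁ ≤ q →
    q ≤ ⌊(21 / 20 : ℝ) ^ q⌋₊ ∧ 3 ≤ q ∧
    (∀ v : ℕ, q ≤ v → 16 * ph ^ 4 * (Q : ℝ) ^ 2 * (21 / 20 : ℝ) ^ v * rh ^ (2 * v) ≤ 1) ∧
    (∀ v : ℕ, q ≤ v → 2 * ph ^ 2 * Q * (21 / 20 : ℝ) ^ v ≤ ph ^ v) ∧
    (∀ v W : ℕ, q ≤ v → v ≤ 3 * W → W ≤ v →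
      8 * ph ^ 3 * (Q : ℝ) ^ 2 * (21 / 20 : ℝ) ^ v * (12 * (1 + v) * ((W : ℝ) + 1) * rh ^ W * SS A)
        ≤ 1 / 8) ∧
    (∀ n Z₁ : ℕ, (n : ℝ) ^ 4 ≤ (21 / 20 : ℝ) ^ ⌊(21 / 20 : ℝ) ^ q⌋₊ →
      ∑ p ∈ Ioc ⌊(21 / 20 : ℝ) ^ q⌋₊ Z₁,
        (8 * ph ^ 3 * (Q : ℝ) ^ 2 * (21 / 20 : ℝ) ^ p *
          (12 * (1 + p) * ((((p - 1) / 2 : ℕ) : ℝ) + 1) * rh ^ ((p - 1) / 2) * SS A) +
            n * p * (SS A / (21 / 20 : ℝ) ^ p)) ≤ (1 : ℝ) / (64 * q)) := by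
  have hSS : 0 ≤ SS A := by
    unfold SS
    apply tsum_nonneg
    intro n
    split_ifs
    · positivity
    · exact le_rfl
  have hph := ph_pos
  have hrh := rh_pos
  have hD : 0 ≤ 8 * ph ^ 3 * (Q : ℝ) ^ 2 * (12 * SS A) := by positivity
  obtain ⟨a1, h1⟩ := lq1
  obtain ⟨a3, h3⟩ := lq3 Q
  obtain ⟨a5, h5⟩ := lq5 (8 * (8 * ph ^ 3 * (Q : ℝ) ^ 2 * (12 * SS A))) (by positivity)
  obtain ⟨a6, h6⟩ := lq6a (128 * (8 * ph ^ 3 * (Q : ℝ) ^ 2 * (12 * SS A))) (by positivity)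
  obtain ⟨a7, h7⟩ := lq6b (128 * SS A) (by positivity)
  refine ⟨a1 + a3 + a5 + a6 + a7 + 3, fun q hq => ⟨h1 q (by omega), by omega,
    fun v hv => (h3 v (by omega)).1, fun v hv => (h3 v (by omega)).2, ?_, ?_⟩⟩
  · intro v W hv h31 hW
    have h := h5 v W (by omega) h31 hW
    have e : 8 * (8 * ph ^ 3 * (Q : ℝ) ^ 2 * (12 * SS A)) * (21 / 20 : ℝ) ^ v *
        ((1 + v) * ((W : ℝ) + 1) * rh ^ W) = 8 * (8 * ph ^ 3 * (Q : ℝ) ^ 2 * (21 / 20 : ℝ) ^ v *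
        (12 * (1 + v) * ((W : ℝ) + 1) * rh ^ W * SS A)) := by ring
    rw [e] at h
    linarith
  · intro n Z₁ hn
    have hA := h6 q (by omega) Z₁
    have hB := h7 q (by omega) n Z₁ hn
    rw [Finset.sum_add_distrib]
    have eA : ∑ p ∈ Ioc ⌊(21 / 20 : ℝ) ^ q⌋₊ Z₁,
        128 * (8 * ph ^ 3 * (Q : ℝ) ^ 2 * (12 * SS A)) * (21 / 20 : ℝ) ^ p *
          ((1 + p) * ((((p - 1) / 2 : ℕ) : ℝ) + 1) * rh ^ ((p - 1) / 2)) =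
        128 * ∑ p ∈ Ioc ⌊(21 / 20 : ℝ) ^ q⌋₊ Z₁, 8 * ph ^ 3 * (Q : ℝ) ^ 2 * (21 / 20 : ℝ) ^ p *
          (12 * (1 + p) * ((((p - 1) / 2 : ℕ) : ℝ) + 1) * rh ^ ((p - 1) / 2) * SS A) := by
      rw [Finset.mul_sum]
      refine Finset.sum_congr rfl fun p _ => ?_
      ring
    have eB : ∑ p ∈ Ioc ⌊(21 / 20 : ℝ) ^ q⌋₊ Z₁,
        (n : ℝ) * p * (128 * SS A / (21 / 20 : ℝ) ^ p) =
        128 * ∑ p ∈ Ioc ⌊(21 / 20 : ℝ) ^ q⌋₊ Z₁, (n : ℝ) * p * (SS A / (21 / 20 : ℝ) ^ p) := by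
      rw [Finset.mul_sum]
      refine Finset.sum_congr rfl fun p _ => ?_
      ring
    rw [eA] at hA
    rw [eB] at hB
    have hq3 : (0 : ℝ) < q := by
      have : 0 < q := by omega
      exact_mod_cast this
    have e2 : (1 : ℝ) / (64 * q) = (1 : ℝ) / q / 64 := by
      rw [div_div, mul_comm]
    rw [e2]
    linarith

end Pool.Agent.Helper75.Fib
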