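import Pool.Agent.Helper75.Fib.Defs

set_option autoImplicit false

/-! Definitions for the proof that the sum of `1 / F_n` over an infinite set `A` of positive
integers with `∑ 1/n < ∞` (`n ∈ A`) is irrational. -/

noncomputable section

namespace Pool.Agent.Helper75.Fib
open Classical Finset


theorem crt_shift {p M i : ℕ} (hp : p.Prime) (hM : 0 < M) (hpM : p ∣ M) (hi : i < p) :
    ∃ H : ℕ, (∀ m : ℕ, m ∣ M → ¬ p ∣ m → m ∣ H) ∧ H % p = i := by
  obtain ⟨e, M', hM', hMe⟩ := Nat.exists_eq_pow_mul_and_not_dvd hM.ne' p hp.ne_one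
  have hco : Nat.Coprime M' p := ((Nat.Prime.coprime_iff_not_dvd hp).mpr hM').symm
  obtain ⟨H, h1, h2⟩ := Nat.chineseRemainder hco 0 i
  refine ⟨H, ?_, ?_⟩
  · intro m hm hpm
    have h3 : Nat.Coprime m (p ^ e) :=
      Nat.Coprime.pow_right e ((Nat.Prime.coprime_iff_not_dvd hp).mpr hpm).symm
    rw [hMe] at hm
    have h4 : m ∣ M' := h3.dvd_of_dvd_mul_left hm
    exact h4.trans ((Nat.modEq_zero_iff_dvd).mp h1)
  · have h3 : H % p = i % p := h2
    rw [h3, Nat.mod_eq_of_lt hi]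

end Pool.Agent.Helper75.Fib
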