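import Pool.Agent.Helper75.Fib.Defs
import Pool.Agent.Helper75.Fib.P_per_count
import Pool.Agent.Helper75.Fib.P_Dl_periodic
import Pool.Agent.Helper75.Fib.P_D_shift
import Pool.Agent.Helper75.Fib.P_crt_shift

set_option autoImplicit false

/-! Definitions for the proof that the sum of `1 / F_n` over an infinite set `A` of positive
integers with `∑ 1/n < ∞` (`n ∈ A`) is irrational. -/

noncomputable section

namespace Pool.Agent.Helper75.Fib
open Classical Finset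


theorem equi_class_cop {n P K x : ℕ} (hn : 0 < n) (hK : n * P ∣ K) (hx : n ∣ x) :
    Nat.Coprime ((x + K) / n) P ↔ Nat.Coprime (x / n) P := by
  obtain ⟨c, rfl⟩ := hK
  obtain ⟨y, rfl⟩ := hx
  have e1 : (n * y + n * P * c) / n = y + P * c := by
    rw [mul_assoc, ← mul_add, Nat.mul_div_cancel_left _ hn]
  rw [e1, Nat.mul_div_cancel_left _ hn]
  exact Nat.coprime_add_mul_left_left y P c

theorem equi_class {A : Set ℕ} (h0 : 0 ∉ A) {Z n M v h i : ℕ} (hv : (v + 1).Prime) (hv2 : 2 ≤ v)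
    (hn : 0 < n) (hpn : ¬ (v + 1) ∣ n) (hM : 0 < M) (h1 : n * primorial (v + 1) ∣ M)
    (hZ : ∀ m : ℕ, m ≤ Z → m ≠ 0 → 4 * m ∣ M)
    (hh1 : ∀ m : ℕ, m ∣ M → ¬ (v + 1) ∣ m → m ∣ h) (hh2 : ¬ (v + 1) ∣ h)
    (hi : 1 ≤ i) (hi2 : i ≤ v) :
    #((Ico M (2 * M)).filter (fun x => n ∣ x ∧ Nat.Coprime (x / n) (primorial v) ∧
        (v + 1) ∣ x ∧ Dl A Z 1 (x + h) ≠ Dl A Z 1 n)) =
      #((Ico M (2 * M)).filter (fun y => n ∣ y ∧ Nat.Coprime (y / n) (primorial v) ∧
        y % (v + 1) = i ∧ Dl A Z 1 y ≠ Dl A Z 1 n)) := by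
  have hpM : (v + 1) ∣ M :=
    (hv.dvd_primorial.trans (Dvd.intro_left n rfl)).trans h1
  obtain ⟨H, hH1, hH⟩ := crt_shift hv hM hpM (show i < v + 1 by omega)
  have hH2 : ¬ (v + 1) ∣ H := by
    intro hd
    have := Nat.mod_eq_zero_of_dvd hd
    omega
  have hp2 : v + 1 ≠ 2 := by omega
  have hMn : n * primorial v ∣ M :=
    (Nat.mul_dvd_mul_left n (primorial_dvd_primorial (Nat.le_succ v))).trans h1
  have hpnv : ¬ (v + 1) ∣ n * primorial v := by
    rw [hv.dvd_mul]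
    rintro (hd | hd)
    · exact hpn hd
    · have := (Nat.Prime.dvd_primorial_iff hv).1 hd
      omega
  have hHn : n * primorial v ∣ H := hH1 _ hMn hpnv
  have hnM : n ∣ M := (Dvd.intro _ rfl).trans hMn
  have hnH : n ∣ H := (Dvd.intro _ rfl).trans hHn
  -- first step: shift by `H`
  have step1 : #((Ico M (2 * M)).filter (fun x => n ∣ x ∧ Nat.Coprime (x / n) (primorial v) ∧
        (v + 1) ∣ x ∧ Dl A Z 1 (x + h) ≠ Dl A Z 1 n)) =
      #((Ico (M + H) (M + H + M)).filter (fun y => n ∣ y ∧ Nat.Coprime (y / n) (primorial v) ∧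
        y % (v + 1) = i ∧ Dl A Z 1 y ≠ Dl A Z 1 n)) := by
    refine Finset.card_nbij' (fun x => x + H) (fun y => y - H) ?_ ?_ ?_ ?_
    · intro x hx
      simp only [Finset.coe_filter, Finset.mem_Ico, Set.mem_setOf_eq] at hx ⊢
      obtain ⟨⟨hx1, hx2⟩, hx3, hx4, hx5, hx6⟩ := hx
      refine ⟨⟨by omega, by omega⟩, dvd_add hx3 hnH, (equi_class_cop hn hHn hx3).2 hx4, ?_, ?_⟩
      · rw [Nat.add_mod, Nat.mod_eq_zero_of_dvd hx5, zero_add, Nat.mod_mod, hH]
      · rw [← D_shift h0 hv hp2 hZ hx5 hh1 hh2 hH1 hH2]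
        exact hx6
    · intro y hy
      simp only [Finset.coe_filter, Finset.mem_Ico, Set.mem_setOf_eq] at hy ⊢
      obtain ⟨⟨hy1, hy2⟩, hy3, hy4, hy5, hy6⟩ := hy
      obtain ⟨x, rfl⟩ : ∃ x, y = x + H := ⟨y - H, by omega⟩
      rw [Nat.add_sub_cancel]
      have hnx : n ∣ x := (Nat.dvd_add_left hnH).1 hy3
      have hpx : (v + 1) ∣ x := by
        have h3 : (x + H) ≡ 0 + H [MOD (v + 1)] := by
          rw [zero_add]
          exact hy5.trans hH.symm
        have h4 := Nat.ModEq.add_right_cancel' H h3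
        exact (Nat.modEq_zero_iff_dvd).1 h4
      refine ⟨⟨by omega, by omega⟩, hnx, (equi_class_cop hn hHn hnx).1 hy4, hpx, ?_⟩
      rw [D_shift h0 hv hp2 hZ hpx hh1 hh2 hH1 hH2]
      exact hy6
    · intro x _
      simp
    · intro y hy
      simp only [Finset.coe_filter, Finset.mem_Ico, Set.mem_setOf_eq] at hy
      show y - H + H = y
      omega
  rw [step1]
  have step2 := per_count (M := M) (fun y => n ∣ y ∧ Nat.Coprime (y / n) (primorial v) ∧
        y % (v + 1) = i ∧ Dl A Z 1 y ≠ Dl A Z 1 n) (by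
      intro y
      have e1 : n ∣ y + M ↔ n ∣ y := Nat.dvd_add_left hnM
      have e2 : (y + M) % (v + 1) = y % (v + 1) := by
        rw [Nat.add_mod, Nat.mod_eq_zero_of_dvd hpM, add_zero, Nat.mod_mod]
      rw [e1, e2, Dl_periodic h0 hZ]
      constructor
      · rintro ⟨a1, a2, a3, a4⟩
        exact ⟨a1, (equi_class_cop hn hMn a1).1 a2, a3, a4⟩
      · rintro ⟨a1, a2, a3, a4⟩
        exact ⟨a1, (equi_class_cop hn hMn a1).2 a2, a3, a4⟩) (M + H) M
  rw [two_mul]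
  convert step2

end Pool.Agent.Helper75.Fib
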