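import Pool.Agent.Helper75.Fib.Defs
import Pool.Agent.Helper75.Fib.P_equi_class

set_option autoImplicit false

/-! Definitions for the proof that the sum of `1 / F_n` over an infinite set `A` of positive
integers with `∑ 1/n < ∞` (`n ∈ A`) is irrational. -/

noncomputable section

namespace Pool.Agent.Helper75.Fib
open Classical Finset


theorem primorial_succ_prime {v : ℕ} (hv : (v + 1).Prime) :
    primorial (v + 1) = (v + 1) * primorial v := by
  unfold primorial
  rw [Finset.range_add_one (n := v + 1), Finset.filter_insert, if_pos hv,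
    Finset.prod_insert (by simp)]

theorem cop_iff {n v y : ℕ} (hv : (v + 1).Prime) (hpn : ¬ (v + 1) ∣ n) (hny : n ∣ y) :
    Nat.Coprime (y / n) (primorial (v + 1)) ↔
      (Nat.Coprime (y / n) (primorial v) ∧ y % (v + 1) ≠ 0) := by
  rw [primorial_succ_prime hv, Nat.coprime_mul_iff_right]
  have e : n * (y / n) = y := Nat.mul_div_cancel' hny
  have h1 : (v + 1) ∣ y ↔ (v + 1) ∣ y / n := by
    conv_lhs => rw [← e]
    rw [hv.dvd_mul]
    constructor
    · rintro (h | h)
      · exact absurd h hpn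
      · exact h
    · exact Or.inr
  have h2 : Nat.Coprime (y / n) (v + 1) ↔ ¬ (v + 1) ∣ y / n := by
    rw [Nat.coprime_comm, hv.coprime_iff_not_dvd]
  rw [h2, ← h1, Nat.dvd_iff_mod_eq_zero, and_comm]

/-- Equidistribution of the residues prime to `p`. -/
theorem equi {A : Set ℕ} (h0 : 0 ∉ A) {Z n M v h : ℕ} (hv : (v + 1).Prime) (hv2 : 2 ≤ v)
    (hn : 0 < n)
    (hpn : ¬ (v + 1) ∣ n) (hM : 0 < M) (h1 : n * primorial (v + 1) ∣ M)
    (hZ : ∀ m : ℕ, m ≤ Z → m ≠ 0 → 4 * m ∣ M)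
    (hh1 : ∀ m : ℕ, m ∣ M → ¬ (v + 1) ∣ m → m ∣ h) (hh2 : ¬ (v + 1) ∣ h) :
    v * #((Ico M (2 * M)).filter (fun x => n ∣ x ∧ Nat.Coprime (x / n) (primorial v) ∧
        (v + 1) ∣ x ∧ Dl A Z 1 (x + h) ≠ Dl A Z 1 n)) = bad A Z n (primorial (v + 1)) M := by
  unfold bad
  symm
  rw [Finset.card_eq_sum_card_fiberwise (f := fun y => y % (v + 1)) (t := Finset.Icc 1 v)]
  · have key : ∀ i ∈ Finset.Icc 1 v,
        #(((Ico M (2 * M)).filter (fun x => n ∣ x ∧ Nat.Coprime (x / n) (primorial (v + 1)) ∧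
          Dl A Z 1 x ≠ Dl A Z 1 n)).filter (fun y => y % (v + 1) = i)) =
        #((Ico M (2 * M)).filter (fun x => n ∣ x ∧ Nat.Coprime (x / n) (primorial v) ∧
        (v + 1) ∣ x ∧ Dl A Z 1 (x + h) ≠ Dl A Z 1 n)) := by
      intro i hi
      rw [Finset.mem_Icc] at hi
      rw [equi_class h0 hv hv2 hn hpn hM h1 hZ hh1 hh2 hi.1 hi.2, Finset.filter_filter]
      congr 1
      apply Finset.filter_congr
      intro y _
      constructor
      · rintro ⟨⟨a, b, c⟩, d⟩
        exact ⟨a, ((cop_iff hv hpn a).1 b).1, d, c⟩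
      · rintro ⟨a, b, c, d⟩
        refine ⟨⟨a, (cop_iff hv hpn a).2 ⟨b, ?_⟩, d⟩, c⟩
        have := hi.1
        omega
    rw [Finset.sum_congr rfl key, Finset.sum_const, Nat.card_Icc]
    simp
  · intro y hy
    simp only [Finset.coe_filter, Set.mem_ofPred_eq] at hy
    obtain ⟨_, a, b, _⟩ := hy
    have h3 := ((cop_iff hv hpn a).1 b).2
    have h4 : y % (v + 1) < v + 1 := Nat.mod_lt _ (by omega)
    simp only [Finset.coe_Icc, Set.mem_Icc]
    omega

end Pool.Agent.Helper75.Fib
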