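import Pool.Agent.Helper75.Fib.Defs

set_option autoImplicit false

/-! Definitions for the proof that the sum of `1 / F_n` over an infinite set `A` of positive
integers with `∑ 1/n < ∞` (`n ∈ A`) is irrational. -/

noncomputable section

namespace Pool.Agent.Helper75.Fib
open Classical Finset


theorem mk845_sg (m : ℕ) : |(sg m : ℝ)| ≤ 1 := by
  unfold sg
  split_ifs
  · simp
  · rcases neg_one_pow_eq_or ℤ (m / 2) with h | h <;> rw [h] <;> simp

theorem mk845_card {m M : ℕ} (hm : 0 < m) (h : m ∣ M) :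
    (∑ x ∈ Ico M (2 * M), if m ∣ x then (1 : ℝ) else 0) = (M : ℝ) / m := by
  obtain ⟨k, rfl⟩ := h
  rw [← Finset.sum_filter]
  have e : (Ico (m * k) (2 * (m * k))).filter (fun x => m ∣ x) =
      (Ico k (2 * k)).image (fun j => m * j) := by
    ext x
    simp only [mem_filter, mem_Ico, mem_image]
    constructor
    · rintro ⟨⟨h1, h2⟩, j, rfl⟩
      refine ⟨j, ⟨Nat.le_of_mul_le_mul_left h1 hm, ?_⟩, rfl⟩
      have h3 : m * j < m * (2 * k) := by
        calc m * j < 2 * (m * k) := h2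
          _ = m * (2 * k) := by ring
      exact Nat.lt_of_mul_lt_mul_left h3
    · rintro ⟨j, ⟨h1, h2⟩, rfl⟩
      refine ⟨⟨Nat.mul_le_mul_left m h1, ?_⟩, dvd_mul_right m j⟩
      calc m * j < m * (2 * k) := Nat.mul_lt_mul_of_pos_left h2 hm
        _ = 2 * (m * k) := by ring
  rw [e, Finset.sum_const, Finset.card_image_of_injective _ (fun a b hab =>
    Nat.eq_of_mul_eq_mul_left hm hab), Nat.card_Ico]
  have : 2 * k - k = k := by omega
  rw [this, nsmul_eq_mul, mul_one, Nat.cast_mul]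
  have hm' : (m : ℝ) ≠ 0 := by exact_mod_cast hm.ne'
  field_simp

theorem mk845_Dl (A : Set ℕ) (Z w x : ℕ) : |(Dl A Z w x : ℝ)| ≤
    ∑ m ∈ (range (Z + 1)).filter (fun m => m ∈ A), if m ∣ x then (1 : ℝ) else 0 := by
  unfold Dl
  rw [Int.cast_sum]
  refine (Finset.abs_sum_le_sum_abs _ _).trans ?_
  refine (Finset.sum_le_sum fun m _ => mk845_sg m).trans ?_
  rw [← Finset.sum_filter]
  refine Finset.sum_le_sum_of_subset_of_nonneg ?_ fun _ _ _ => zero_le_one
  intro m hm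
  simp only [mem_filter] at hm ⊢
  exact ⟨⟨hm.1, hm.2.1⟩, hm.2.2.2.1⟩

theorem markov {A : Set ℕ} (h0 : 0 ∉ A)
    (hS : Summable fun n : ℕ => if n ∈ A then 1 / (n : ℝ) else 0) {Z M w : ℕ} {K : ℝ}
    (hK : 0 < K) (hAM : ∀ n : ℕ, n ∈ A → n ≤ Z → n ∣ M) :
    (#((Ico M (2 * M)).filter (fun x => K < |(Dl A Z w x : ℝ)|)) : ℝ) ≤ M * (SS A / K) := by
  set F := (Ico M (2 * M)).filter (fun x => K < |(Dl A Z w x : ℝ)|) with hF
  have h1 : (#F : ℝ) * K ≤ ∑ x ∈ F, |(Dl A Z w x : ℝ)| := by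
    have := Finset.card_nsmul_le_sum F (fun x => |(Dl A Z w x : ℝ)|) K (by
      intro x hx
      exact (Finset.mem_filter.1 hx).2.le)
    rwa [nsmul_eq_mul] at this
  have h2 : ∑ x ∈ F, |(Dl A Z w x : ℝ)| ≤ ∑ x ∈ Ico M (2 * M), |(Dl A Z w x : ℝ)| :=
    Finset.sum_le_sum_of_subset_of_nonneg (Finset.filter_subset _ _) fun _ _ _ => abs_nonneg _
  have h3 : ∑ x ∈ Ico M (2 * M), |(Dl A Z w x : ℝ)| ≤
      ∑ x ∈ Ico M (2 * M), ∑ m ∈ (range (Z + 1)).filter (fun m => m ∈ A),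
        if m ∣ x then (1 : ℝ) else 0 := Finset.sum_le_sum fun x _ => mk845_Dl A Z w x
  rw [Finset.sum_comm] at h3
  have h4 : ∑ m ∈ (range (Z + 1)).filter (fun m => m ∈ A), ∑ x ∈ Ico M (2 * M),
      (if m ∣ x then (1 : ℝ) else 0) =
      ∑ m ∈ (range (Z + 1)).filter (fun m => m ∈ A), (M : ℝ) / m := by
    refine Finset.sum_congr rfl fun m hm => ?_
    rw [Finset.mem_filter, Finset.mem_range] at hm
    refine mk845_card (Nat.pos_of_ne_zero ?_) (hAM m hm.2 (by omega))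
    rintro rfl
    exact h0 hm.2
  have h5 : ∑ m ∈ (range (Z + 1)).filter (fun m => m ∈ A), (M : ℝ) / m =
      M * ∑ m ∈ range (Z + 1), if m ∈ A then 1 / (m : ℝ) else 0 := by
    rw [Finset.mul_sum, Finset.sum_filter]
    refine Finset.sum_congr rfl fun m _ => ?_
    split_ifs
    · ring
    · ring
  have h6 : ∑ m ∈ range (Z + 1), (if m ∈ A then 1 / (m : ℝ) else 0) ≤ SS A := by
    refine hS.sum_le_tsum _ fun m _ => ?_
    split_ifs
    · positivity
    · exact le_rfl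
  have h7 : (M : ℝ) * ∑ m ∈ range (Z + 1), (if m ∈ A then 1 / (m : ℝ) else 0) ≤ M * SS A :=
    mul_le_mul_of_nonneg_left h6 (Nat.cast_nonneg _)
  rw [← mul_div_assoc, le_div_iff₀ hK]
  linarith

end Pool.Agent.Helper75.Fib
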