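import Pool.Agent.Helper75.Fib.Defs
import Pool.Agent.Helper75.Fib.P_swap
import Pool.Agent.Helper75.Fib.P_shift
import Pool.Agent.Helper75.Fib.P_diffD
import Pool.Agent.Helper75.Fib.P_count_formula
import Pool.Agent.Helper75.Fib.P_primorial_ratio
import Pool.Agent.Helper75.Fib.P_equi
import Pool.Agent.Helper75.Fib.P_markov

set_option autoImplicit false

/-! Definitions for the proof that the sum of `1 / F_n` over an infinite set `A` of positive
integers with `∑ 1/n < ∞` (`n ∈ A`) is irrational. -/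

noncomputable section

namespace Pool.Agent.Helper75.Fib
open Classical Finset


theorem rs_primorial_dvd {p Z : ℕ} (h : p ≤ Z) : primorial p ∣ Z.factorial := by
  unfold primorial
  apply Finset.prod_primes_dvd
  · intro a ha
    exact (mem_filter.1 ha).2.prime
  · intro a ha
    have h1 := mem_filter.1 ha
    have h2 := mem_range.1 h1.1
    exact (h1.2.dvd_factorial).2 (by omega)

theorem rs_primorial_succ {v : ℕ} (hp : (v + 1).Prime) :
    primorial (v + 1) = (v + 1) * primorial v := by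
  unfold primorial
  rw [Finset.range_add_one (n := v + 1), filter_insert, if_pos hp, prod_insert (by simp)]

theorem rs_primorial_succ_not {v : ℕ} (hp : ¬ (v + 1).Prime) :
    primorial (v + 1) = primorial v := by
  unfold primorial
  rw [Finset.range_add_one (n := v + 1), filter_insert, if_neg hp]

theorem rs_SS_nonneg (A : Set ℕ) : 0 ≤ SS A :=
  tsum_nonneg fun n => by split_ifs <;> positivity

theorem rs_Tl_nonneg (A : Set ℕ) (Z : ℕ) : 0 ≤ Tl A Z :=
  tsum_nonneg fun n => by split_ifs <;> positivity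

theorem rs_tm_nonneg (A : Set ℕ) (Q Z n p : ℕ) : 0 ≤ tm A Q Z n p := by
  have h1 := rs_SS_nonneg A
  have h2 := rs_Tl_nonneg A Z
  have h3 := ph_pos
  have h4 := rh_pos
  unfold tm
  positivity

theorem rs_split {A : Set ℕ} (h0 : 0 ∉ A) {Z n v M h : ℕ} {K : ℝ} (hp : (v + 1).Prime)
    (hn : 0 < n) (hM : 0 < M) (hpn : ¬ (v + 1) ∣ n) (hph : ¬ (v + 1) ∣ h)
    (hdvd : ∀ m : ℕ, m ∈ A → m ≤ Z → ¬ (v + 1) ∣ m → 4 * m ∣ h) :
    bad A Z n (primorial v) M ≤ bad A Z n (primorial (v + 1)) M +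
      (#((Ico M (2 * M)).filter (fun x => n ∣ x ∧ Nat.Coprime (x / n) (primorial v) ∧
        (v + 1) ∣ x ∧ Dl A Z 1 (x + h) ≠ Dl A Z 1 n)) +
      (#((Ico M (2 * M)).filter
        (fun x => (v + 1) * n ∣ x ∧ Dl A Z (v + 1) x ≠ 0 ∧ |(Dl A Z (v + 1) x : ℝ)| ≤ K)) +
      #((Ico M (2 * M)).filter (fun x => K < |(Dl A Z (v + 1) x : ℝ)|)))) := by
  unfold bad
  refine le_trans (Finset.card_le_card ?_) ((Finset.card_union_le _ _).trans
    (Nat.add_le_add le_rfl ((Finset.card_union_le _ _).trans (Nat.add_le_add le_rfl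
      (Finset.card_union_le _ _)))))
  intro x hx
  rw [mem_filter] at hx
  obtain ⟨hxM, hnx, hcop, hD⟩ := hx
  have hx0 : 0 < x := hM.trans_le (mem_Ico.1 hxM).1
  rw [mem_union, mem_union, mem_union, mem_filter, mem_filter, mem_filter, mem_filter]
  by_cases hpx : (v + 1) ∣ x
  · right
    by_cases hD2 : Dl A Z 1 (x + h) = Dl A Z 1 n
    · right
      have hdiff := diffD h0 (Z := Z) hx0 hpx hph hdvd
      have hne : Dl A Z (v + 1) x ≠ 0 := by
        intro hz
        rw [hz, add_zero, hD2] at hdiff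
        exact hD hdiff
      have hpnx : (v + 1) * n ∣ x :=
        Nat.Coprime.mul_dvd_of_dvd_of_dvd ((Nat.Prime.coprime_iff_not_dvd hp).2 hpn) hpx hnx
      rcases le_or_gt |(Dl A Z (v + 1) x : ℝ)| K with hK | hK
      · left
        exact ⟨hxM, hpnx, hne, hK⟩
      · right
        exact ⟨hxM, hK⟩
    · left
      exact ⟨hxM, hnx, hcop, hpx, hD2⟩
  · left
    refine ⟨hxM, hnx, ?_, hD⟩
    rw [rs_primorial_succ hp]
    refine Nat.Coprime.mul_right ?_ hcop
    rw [Nat.coprime_comm, Nat.Prime.coprime_iff_not_dvd hp]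
    intro h1
    apply hpx
    obtain ⟨y, rfl⟩ := hnx
    rw [Nat.mul_div_cancel_left _ hn] at h1
    exact h1.mul_left _

/-- One step of the recursion over the primes. -/
theorem rec_step {A : Set ℕ} (h0 : 0 ∉ A)
    (hS : Summable fun n : ℕ => if n ∈ A then 1 / (n : ℝ) else 0) {Q : ℕ} (hQ : 0 < Q)
    (hR : RatHyp A Q) {Z n v M : ℕ} (hv : 2 ≤ v) (hvZ : v + 1 ≤ Z) (hM : Mok n Z M)
    (hprimes : ∀ r : ℕ, r.Prime → r ∣ n → r ≤ v)
    (hK : 16 * ph ^ 4 * (Q : ℝ) ^ 2 * (21 / 20 : ℝ) ^ (v + 1) * rh ^ (2 * (v + 1)) ≤ 1)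
    (hKw : 2 * ph ^ 2 * Q * (21 / 20 : ℝ) ^ (v + 1) ≤ ph ^ (v + 1)) :
    (bad A Z n (primorial v) M : ℝ) / cnt n (primorial v) M ≤
      (bad A Z n (primorial (v + 1)) M : ℝ) / cnt n (primorial (v + 1)) M + tm A Q Z n (v + 1) := by
  have htm := rs_tm_nonneg A Q Z n (v + 1)
  by_cases hp : (v + 1).Prime
  swap
  · rw [rs_primorial_succ_not hp]
    linarith
  obtain ⟨hn, hM0, hMd⟩ := hM
  have hfac : ∀ m : ℕ, m ≤ Z → m ≠ 0 → m ∣ Z.factorial := fun m h1 h2 =>
    Nat.dvd_factorial (Nat.pos_of_ne_zero h2) h1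
  have hZ : ∀ m : ℕ, m ≤ Z → m ≠ 0 → 4 * m ∣ M := by
    intro m h1 h2
    refine dvd_trans ?_ hMd
    obtain ⟨y, hy⟩ := hfac m h1 h2
    rw [hy]
    exact ⟨n * m * y ^ 2, by ring⟩
  have hnZ : n * Z.factorial ∣ M := by
    refine dvd_trans ?_ hMd
    exact ⟨4 * Z.factorial, by ring⟩
  have hprim : n * primorial (v + 1) ∣ M :=
    (Nat.mul_dvd_mul_left n (rs_primorial_dvd hvZ)).trans hnZ
  have hprim' : n * primorial v ∣ M :=
    (Nat.mul_dvd_mul_left n (rs_primorial_dvd (by omega))).trans hnZ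
  have hpnM : (v + 1) * n ∣ M := by
    rw [mul_comm]
    exact (Nat.mul_dvd_mul_left n (hfac _ hvZ (by omega))).trans hnZ
  have hpM : (v + 1) ^ 1 ∣ M := by
    rw [pow_one]
    exact (Dvd.intro _ rfl).trans hpnM
  have hpn : ¬ (v + 1) ∣ n := by
    intro h
    have := hprimes _ hp h
    omega
  obtain ⟨h, hhM, hh1, hh2⟩ := shift hp (by omega) hM0 le_rfl hpM
  rw [pow_one] at hh1
  simp only [pow_one, Nat.sub_self, pow_zero, one_mul] at hh2
  have hWpos : 1 ≤ (v + 1 - 1) / 2 := by omega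
  have hph : ¬ (v + 1) ∣ h := by
    intro hd
    have := hh2 h hd
    rw [Nat.dist_self] at this
    omega
  have hnh : n ∣ h := hh1 n ((Dvd.intro _ rfl).trans hnZ) hpn
  have hp4 : ¬ (v + 1) ∣ 4 := by
    intro hd
    have h4 : (v + 1) ∣ 2 ^ 2 := by simpa using hd
    have := Nat.le_of_dvd (by norm_num) (hp.dvd_of_dvd_pow h4)
    omega
  have hA0 : ∀ m ∈ A, m ≠ 0 := fun m hm h => h0 (h ▸ hm)
  have hdvd : ∀ m : ℕ, m ∈ A → m ≤ Z → ¬ (v + 1) ∣ m → 4 * m ∣ h := by
    intro m hm hmZ hpm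
    refine hh1 _ (hZ m hmZ (hA0 m hm)) ?_
    intro hd
    rcases hp.dvd_mul.1 hd with h1 | h1
    · exact hp4 h1
    · exact hpm h1
  have hAM : ∀ m : ℕ, m ∈ A → m ≤ Z → m ∣ M := fun m hm hmZ =>
    (Dvd.intro_left 4 rfl).trans (hZ m hmZ (hA0 m hm))
  have hKpos : (0 : ℝ) < (21 / 20 : ℝ) ^ (v + 1) := by positivity
  have hK1 : (1 : ℝ) ≤ (21 / 20 : ℝ) ^ (v + 1) := one_le_pow₀ (by norm_num)
  have hN1 := swap h0 hS hQ hR (Z := Z) (M := M) (p := v + 1) (w := v + 1)
    (W := (v + 1 - 1) / 2) (n₀ := n) (h := h) (K := (21 / 20 : ℝ) ^ (v + 1)) hM0 (by omega) hn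
    hWpos (by omega) (Dvd.intro _ rfl) hpnM hnh hhM hh2 hdvd hAM hK1 hK hKw
  have hN2 := markov h0 hS (Z := Z) (M := M) (w := v + 1) (K := (21 / 20 : ℝ) ^ (v + 1)) hKpos hAM
  have hequi := equi h0 (Z := Z) (n := n) (M := M) (v := v) (h := h) hp hv hn hpn hM0 hprim hZ
    (fun m h1 h2 => hh1 m h1 h2) hph
  have hsplit := rs_split h0 (Z := Z) (K := (21 / 20 : ℝ) ^ (v + 1)) hp hn hM0 hpn hph hdvd
  -- counting
  have hc1 : cnt n (primorial v) M * (n * primorial v) = M * Nat.totient (primorial v) := by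
    have := count_formula hn (primorial_pos v) hprim' M
    rw [← two_mul] at this
    exact this
  have hc2 : cnt n (primorial (v + 1)) M * (n * primorial (v + 1)) =
      M * Nat.totient (primorial (v + 1)) := by
    have := count_formula hn (primorial_pos (v + 1)) hprim M
    rw [← two_mul] at this
    exact this
  have hcopr : Nat.Coprime (v + 1) (primorial v) := by
    rw [Nat.Prime.coprime_iff_not_dvd hp, hp.dvd_primorial_iff]
    omega
  have htot : Nat.totient (primorial (v + 1)) = v * Nat.totient (primorial v) := by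
    rw [rs_primorial_succ hp, Nat.totient_mul hcopr, Nat.totient_prime hp]
    rfl
  have hPpos := primorial_pos v
  have htotpos : 0 < Nat.totient (primorial v) := Nat.totient_pos.2 hPpos
  have hcpos : 0 < cnt n (primorial v) M := by
    rcases Nat.eq_zero_or_pos (cnt n (primorial v) M) with h1 | h1
    · rw [h1, zero_mul] at hc1
      have : 0 < M * Nat.totient (primorial v) := by positivity
      omega
    · exact h1
  have hc3 : (v + 1) * cnt n (primorial (v + 1)) M = v * cnt n (primorial v) M := by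
    have h1 : (n * primorial v) * ((v + 1) * cnt n (primorial (v + 1)) M) =
        (n * primorial v) * (v * cnt n (primorial v) M) := by
      calc (n * primorial v) * ((v + 1) * cnt n (primorial (v + 1)) M)
          = cnt n (primorial (v + 1)) M * (n * ((v + 1) * primorial v)) := by ring
        _ = M * (v * Nat.totient (primorial v)) := by rw [← rs_primorial_succ hp, hc2, htot]
        _ = v * (M * Nat.totient (primorial v)) := by ring
        _ = v * (cnt n (primorial v) M * (n * primorial v)) := by rw [hc1]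
        _ = _ := by ring
    exact Nat.eq_of_mul_eq_mul_left (by positivity) h1
  -- real numbers
  have hvR : (0 : ℝ) < v := by exact_mod_cast (by omega : 0 < v)
  have hnR : (0 : ℝ) < n := by exact_mod_cast hn
  have hMR : (0 : ℝ) < M := by exact_mod_cast hM0
  have hcR : (0 : ℝ) < cnt n (primorial v) M := by exact_mod_cast hcpos
  have hc3R : ((v : ℝ) + 1) * cnt n (primorial (v + 1)) M = v * cnt n (primorial v) M := by
    exact_mod_cast hc3
  have hc'R : (cnt n (primorial (v + 1)) M : ℝ) = v * cnt n (primorial v) M / (v + 1) := by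
    rw [eq_div_iff (by positivity), mul_comm, hc3R]
  have hclow : (M : ℝ) ≤ n * v * cnt n (primorial v) M := by
    have h1 : M * primorial v ≤ (n * v * cnt n (primorial v) M) * primorial v := by
      calc M * primorial v ≤ M * (v * Nat.totient (primorial v)) :=
            Nat.mul_le_mul_left _ (primorial_ratio (by omega))
        _ = v * (M * Nat.totient (primorial v)) := by ring
        _ = v * (cnt n (primorial v) M * (n * primorial v)) := by rw [hc1]
        _ = (n * v * cnt n (primorial v) M) * primorial v := by ring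
    have h2 := Nat.le_of_mul_le_mul_right h1 hPpos
    exact_mod_cast h2
  have hequiR : (v : ℝ) * (#((Ico M (2 * M)).filter (fun x => n ∣ x ∧
      Nat.Coprime (x / n) (primorial v) ∧ (v + 1) ∣ x ∧ Dl A Z 1 (x + h) ≠ Dl A Z 1 n)) : ℝ) =
      bad A Z n (primorial (v + 1)) M := by exact_mod_cast hequi
  have hsplitR : (bad A Z n (primorial v) M : ℝ) ≤ bad A Z n (primorial (v + 1)) M +
      ((#((Ico M (2 * M)).filter (fun x => n ∣ x ∧ Nat.Coprime (x / n) (primorial v) ∧
        (v + 1) ∣ x ∧ Dl A Z 1 (x + h) ≠ Dl A Z 1 n)) : ℝ) +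
      ((#((Ico M (2 * M)).filter
        (fun x => (v + 1) * n ∣ x ∧ Dl A Z (v + 1) x ≠ 0 ∧
          |(Dl A Z (v + 1) x : ℝ)| ≤ (21 / 20 : ℝ) ^ (v + 1))) : ℝ) +
      (#((Ico M (2 * M)).filter
        (fun x => (21 / 20 : ℝ) ^ (v + 1) < |(Dl A Z (v + 1) x : ℝ)|)) : ℝ))) := by
    exact_mod_cast hsplit
  set c2 : ℝ := (#((Ico M (2 * M)).filter (fun x => n ∣ x ∧ Nat.Coprime (x / n) (primorial v) ∧
        (v + 1) ∣ x ∧ Dl A Z 1 (x + h) ≠ Dl A Z 1 n)) : ℝ) with hc2def
  set s1 : ℝ := (#((Ico M (2 * M)).filter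
        (fun x => (v + 1) * n ∣ x ∧ Dl A Z (v + 1) x ≠ 0 ∧
          |(Dl A Z (v + 1) x : ℝ)| ≤ (21 / 20 : ℝ) ^ (v + 1))) : ℝ) with hs1def
  set s2 : ℝ := (#((Ico M (2 * M)).filter
        (fun x => (21 / 20 : ℝ) ^ (v + 1) < |(Dl A Z (v + 1) x : ℝ)|)) : ℝ) with hs2def
  set B : ℝ := (bad A Z n (primorial v) M : ℝ) with hB
  set B' : ℝ := (bad A Z n (primorial (v + 1)) M : ℝ) with hB'
  set c : ℝ := (cnt n (primorial v) M : ℝ) with hcdef
  set K : ℝ := (21 / 20 : ℝ) ^ (v + 1) with hKdef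
  have hSS := rs_SS_nonneg A
  have hTl := rs_Tl_nonneg A Z
  have hph0 := ph_pos
  have hrh0 := rh_pos
  have hmain : (s1 + s2) ≤ c * tm A Q Z n (v + 1) := by
    have e0 : M * tm A Q Z n (v + 1) ≤ n * v * c * tm A Q Z n (v + 1) :=
      mul_le_mul_of_nonneg_right hclow htm
    have e1 : n * v * (s1 + s2) ≤ M * tm A Q Z n (v + 1) := by
      have a1 : (n : ℝ) * v * s1 ≤ M * (8 * ph ^ 3 * (Q : ℝ) ^ 2 * K *
          (12 * (1 + ((v + 1 : ℕ) : ℝ)) * ((((v + 1 - 1) / 2 : ℕ) : ℝ) + 1) *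
            rh ^ ((v + 1 - 1) / 2) * SS A + 65 * n * ((v + 1 : ℕ) : ℝ) * Tl A Z)) := by
        calc (n : ℝ) * v * s1 ≤ n * v * (8 * ph ^ 3 * (Q : ℝ) ^ 2 * K * M *
              (12 * (1 + ((v + 1 : ℕ) : ℝ)) * ((((v + 1 - 1) / 2 : ℕ) : ℝ) + 1) *
                rh ^ ((v + 1 - 1) / 2) * SS A / (((v + 1 : ℕ) : ℝ) * n) + 65 * Tl A Z)) :=
              mul_le_mul_of_nonneg_left hN1 (by positivity)
          _ = M * (8 * ph ^ 3 * (Q : ℝ) ^ 2 * K *
              ((12 * (1 + ((v + 1 : ℕ) : ℝ)) * ((((v + 1 - 1) / 2 : ℕ) : ℝ) + 1) *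
                rh ^ ((v + 1 - 1) / 2) * SS A) * (v / ((v + 1 : ℕ) : ℝ)) +
                65 * n * (v : ℝ) * Tl A Z)) := by
              field_simp
          _ ≤ _ := by
              have q1 : (v : ℝ) / ((v + 1 : ℕ) : ℝ) ≤ 1 := by
                rw [div_le_one (by positivity)]
                push_cast
                linarith
              have q2 : (v : ℝ) ≤ ((v + 1 : ℕ) : ℝ) := by
                push_cast
                linarith
              have q4 : 0 ≤ 12 * (1 + ((v + 1 : ℕ) : ℝ)) * ((((v + 1 - 1) / 2 : ℕ) : ℝ) + 1) *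
                rh ^ ((v + 1 - 1) / 2) * SS A := by positivity
              have q5 : 65 * (n : ℝ) * (v : ℝ) * Tl A Z ≤ 65 * n * ((v + 1 : ℕ) : ℝ) * Tl A Z :=
                mul_le_mul_of_nonneg_right (mul_le_mul_of_nonneg_left q2 (by positivity)) hTl
              exact mul_le_mul_of_nonneg_left (mul_le_mul_of_nonneg_left
                (add_le_add (mul_le_of_le_one_right q4 q1) q5) (by positivity)) hMR.le
      have a2 : (n : ℝ) * v * s2 ≤ M * (n * ((v + 1 : ℕ) : ℝ) * (SS A / K)) := by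
        calc (n : ℝ) * v * s2 ≤ n * v * (M * (SS A / K)) :=
              mul_le_mul_of_nonneg_left hN2 (by positivity)
          _ = M * (n * v * (SS A / K)) := by ring
          _ ≤ _ := by
              have q2 : (v : ℝ) ≤ ((v + 1 : ℕ) : ℝ) := by
                push_cast
                linarith
              have q3 : 0 ≤ SS A / K := div_nonneg hSS hKpos.le
              gcongr
      have a3 : M * tm A Q Z n (v + 1) = M * (8 * ph ^ 3 * (Q : ℝ) ^ 2 * K *
          (12 * (1 + ((v + 1 : ℕ) : ℝ)) * ((((v + 1 - 1) / 2 : ℕ) : ℝ) + 1) *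
            rh ^ ((v + 1 - 1) / 2) * SS A + 65 * n * ((v + 1 : ℕ) : ℝ) * Tl A Z)) +
            M * (n * ((v + 1 : ℕ) : ℝ) * (SS A / K)) := by
        unfold tm
        rw [← mul_add]
      rw [a3]
      calc (n : ℝ) * v * (s1 + s2) = n * v * s1 + n * v * s2 := by ring
        _ ≤ _ := add_le_add a1 a2
    have e2 : (n : ℝ) * v * (s1 + s2) ≤ n * v * (c * tm A Q Z n (v + 1)) := by
      calc (n : ℝ) * v * (s1 + s2) ≤ n * v * c * tm A Q Z n (v + 1) := e1.trans e0
        _ = _ := by ring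
    exact le_of_mul_le_mul_left e2 (by positivity)
  have hc2eq : c2 = B' / v := by
    rw [eq_div_iff hvR.ne', mul_comm]
    exact hequiR
  rw [hc'R, div_le_iff₀ hcR, add_mul]
  have f1 : B' / (v * c / (v + 1)) * c = B' + B' / v := by
    field_simp
  rw [f1, ← hc2eq]
  linarith

end Pool.Agent.Helper75.Fib
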