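import Pool.Agent.Helper75.Fib.Defs
import Pool.Agent.Helper75.Fib.P_count_formula

set_option autoImplicit false

/-! Definitions for the proof that the sum of `1 / F_n` over an infinite set `A` of positive
integers with `∑ 1/n < ∞` (`n ∈ A`) is irrational. -/

noncomputable section

namespace Pool.Agent.Helper75.Fib
open Classical Finset


theorem st_prime_dvd {r v : ℕ} (hr : r.Prime) (h : r ≤ v) : r ∣ primorial v := by
  unfold primorial
  apply Finset.dvd_prod_of_mem (fun p => p)
  rw [Finset.mem_filter, Finset.mem_range]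
  exact ⟨by omega, hr⟩

theorem st_primorial_dvd {v Z : ℕ} (h : v ≤ Z) : primorial v ∣ Z.factorial := by
  unfold primorial
  apply Finset.prod_primes_dvd
  · intro p hp
    exact (Finset.mem_filter.1 hp).2.prime
  · intro p hp
    rw [Finset.mem_filter, Finset.mem_range] at hp
    exact Nat.dvd_factorial hp.2.pos (by omega)

theorem st_lcm {m n x : ℕ} (hm : 0 < m) (h1 : m ∣ x) (h2 : n ∣ x) :
    n * (m / Nat.gcd m n) ∣ x := by
  have hg : 0 < Nat.gcd m n := Nat.gcd_pos_of_pos_left _ hm
  have h3 : Nat.lcm m n ∣ x := Nat.lcm_dvd h1 h2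
  have h4 : Nat.gcd m n * Nat.lcm m n = m * n := Nat.gcd_mul_lcm m n
  have h5 : Nat.gcd m n * (m / Nat.gcd m n) = m := Nat.mul_div_cancel' (Nat.gcd_dvd_left m n)
  have h6 : Nat.gcd m n * Nat.lcm m n = Nat.gcd m n * (n * (m / Nat.gcd m n)) := by
    rw [h4]
    calc m * n = (Nat.gcd m n * (m / Nat.gcd m n)) * n := by rw [h5]
      _ = _ := by ring
  have h7 := Nat.eq_of_mul_eq_mul_left hg h6
  rwa [h7] at h3

theorem st_count {Z n v M m : ℕ} (hvZ : v ≤ Z) (hM : Mok n Z M) (hm : 0 < m) (hmZ : m ≤ Z) :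
    ((#((Ico M (2 * M)).filter (fun x => n ∣ x ∧ Nat.Coprime (x / n) (primorial v) ∧ m ∣ x)) : ℕ) : ℝ)
      ≤ cnt n (primorial v) M * n * (1 / (m : ℝ)) := by
  obtain ⟨hn, hMpos, hdiv⟩ := hM
  set P := primorial v with hP
  have hPpos : 0 < P := primorial_pos v
  have hPZ : P ∣ Z.factorial := st_primorial_dvd hvZ
  set g := Nat.gcd m n with hg
  set m' := m / g with hm'
  have hgpos : 0 < g := Nat.gcd_pos_of_pos_left _ hm
  have hgm : g * m' = m := Nat.mul_div_cancel' (Nat.gcd_dvd_left m n)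
  have hm'pos : 0 < m' := by
    rcases Nat.eq_zero_or_pos m' with h | h
    · rw [h, mul_zero] at hgm; omega
    · exact h
  have hm'Z : m' ∣ Z.factorial :=
    (Dvd.intro_left g hgm).trans (Nat.dvd_factorial hm hmZ)
  have hmR : (0 : ℝ) < m := by exact_mod_cast hm
  by_cases hcop : Nat.Coprime m' P
  · have hset : (Ico M (2 * M)).filter (fun x => n ∣ x ∧ Nat.Coprime (x / n) P ∧ m ∣ x) =
        (Ico M (M + M)).filter (fun x => n * m' ∣ x ∧ Nat.Coprime (x / (n * m')) P) := by
      rw [two_mul]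
      ext x
      simp only [Finset.mem_filter]
      constructor
      · rintro ⟨hx, h1, h2, h3⟩
        have h4 : n * m' ∣ x := st_lcm hm h3 h1
        refine ⟨hx, h4, ?_⟩
        rw [← Nat.div_div_eq_div_mul]
        exact Nat.Coprime.coprime_dvd_left (Nat.div_dvd_of_dvd (Nat.dvd_div_of_mul_dvd h4)) h2
      · rintro ⟨hx, ⟨y, rfl⟩, h2⟩
        have e1 : n * m' * y / (n * m') = y := Nat.mul_div_cancel_left y (Nat.mul_pos hn hm'pos)
        rw [e1] at h2
        have e2 : n * m' * y / n = m' * y := by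
          rw [mul_assoc]; exact Nat.mul_div_cancel_left _ hn
        refine ⟨hx, ⟨m' * y, by ring⟩, ?_, ?_⟩
        · rw [e2]; exact Nat.Coprime.mul_left hcop h2
        · have : g ∣ n := Nat.gcd_dvd_right m n
          obtain ⟨c, hc⟩ := this
          refine ⟨c * y, ?_⟩
          calc n * m' * y = (g * c) * m' * y := by rw [← hc]
            _ = (g * m') * (c * y) := by ring
            _ = m * (c * y) := by rw [hgm]
    rw [hset]
    have hd1 : n * m' * P ∣ M := by
      have h1 : m' * P ∣ Z.factorial * Z.factorial := Nat.mul_dvd_mul hm'Z hPZ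
      have h2 : n * m' * P ∣ 4 * n * Z.factorial ^ 2 := by
        have h3 : n * (m' * P) ∣ n * (Z.factorial * Z.factorial) := Nat.mul_dvd_mul_left n h1
        have e : 4 * n * Z.factorial ^ 2 = 4 * (n * (Z.factorial * Z.factorial)) := by ring
        rw [e, mul_assoc]
        exact h3.trans (Dvd.intro_left 4 rfl)
      exact h2.trans hdiv
    have hd2 : n * P ∣ M := by
      have : n * P ∣ n * m' * P := ⟨m', by ring⟩
      exact this.trans hd1
    have c1 := count_formula (Nat.mul_pos hn hm'pos) hPpos hd1 M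
    have c2 := count_formula hn hPpos hd2 M
    have c3 : cnt n P M = #((Ico M (M + M)).filter (fun x => n ∣ x ∧ Nat.Coprime (x / n) P)) := by
      unfold cnt; rw [two_mul]
    rw [← c3] at c2
    set k := #((Ico M (M + M)).filter (fun x => n * m' ∣ x ∧ Nat.Coprime (x / (n * m')) P)) with hk
    have c4 : (k * m') * (n * P) = cnt n P M * (n * P) := by
      rw [c2, ← c1]; ring
    have c5 : k * m' = cnt n P M := Nat.eq_of_mul_eq_mul_right (Nat.mul_pos hn hPpos) c4
    have hgn : g ≤ n := Nat.le_of_dvd hn (Nat.gcd_dvd_right m n)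
    have c6 : k * m ≤ cnt n P M * n := by
      calc k * m = (k * m') * g := by rw [← hgm]; ring
        _ = cnt n P M * g := by rw [c5]
        _ ≤ cnt n P M * n := Nat.mul_le_mul_left _ hgn
    rw [mul_one_div, le_div_iff₀ hmR]
    exact_mod_cast c6
  · have hset : (Ico M (2 * M)).filter (fun x => n ∣ x ∧ Nat.Coprime (x / n) P ∧ m ∣ x) = ∅ := by
      rw [Finset.filter_eq_empty_iff]
      rintro x _ ⟨h1, h2, h3⟩
      have h4 : n * m' ∣ x := st_lcm hm h3 h1
      exact hcop (Nat.Coprime.coprime_dvd_left (Nat.dvd_div_of_mul_dvd h4) h2)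
    rw [hset]
    simp only [Finset.card_empty, Nat.cast_zero]
    positivity

theorem start {A : Set ℕ} (h0 : 0 ∉ A)
    (hS : Summable fun n : ℕ => if n ∈ A then 1 / (n : ℝ) else 0) {Z n v M : ℕ} (hv : 2 ≤ v)
    (hvZ : v ≤ Z) (hM : Mok n Z M) :
    (bad A Z n (primorial v) M : ℝ) ≤ cnt n (primorial v) M * (n * Tl A v) := by
  have hn : 0 < n := hM.1
  set P := primorial v with hP
  have h2P : 2 ∣ P := st_prime_dvd Nat.prime_two hv
  set S : Finset ℕ := (range (Z + 1)).filter (fun m => m ∈ A ∧ v < m) with hSdef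
  have hsub : (Ico M (2 * M)).filter (fun x => n ∣ x ∧ Nat.Coprime (x / n) P ∧
      Dl A Z 1 x ≠ Dl A Z 1 n) ⊆ S.biUnion (fun m => (Ico M (2 * M)).filter
        (fun x => n ∣ x ∧ Nat.Coprime (x / n) P ∧ m ∣ x)) := by
    intro x hx
    rw [Finset.mem_filter] at hx
    obtain ⟨hxI, hnx, hcop, hne⟩ := hx
    obtain ⟨u, rfl⟩ := hnx
    have hu : n * u / n = u := Nat.mul_div_cancel_left u hn
    rw [hu] at hcop
    have huodd : Odd u := by
      rw [← Nat.not_even_iff_odd]
      intro he
      have h2u : 2 ∣ u := even_iff_two_dvd.1 he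
      have := Nat.dvd_gcd h2u h2P
      rw [Nat.Coprime] at hcop
      rw [hcop] at this
      omega
    have hex : ∃ m ∈ A, m ≤ Z ∧ m ∣ n * u ∧ ¬ m ∣ n := by
      by_contra hcon
      push Not at hcon
      apply hne
      unfold Dl
      congr 1
      apply Finset.filter_congr
      intro m hm
      rw [Finset.mem_range] at hm
      constructor
      · rintro ⟨hmA, h1, h2, h3⟩
        have h4 := hcon m hmA (by omega) h2
        have hmpos : 0 < m := by
          rcases Nat.eq_zero_or_pos m with h | h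
          · rw [h] at hmA; exact absurd hmA h0
          · exact h
        refine ⟨hmA, h1, h4, ?_⟩
        obtain ⟨c, rfl⟩ := h4
        have e1 : m * c * u / m = c * u := by
          rw [mul_assoc]; exact Nat.mul_div_cancel_left _ hmpos
        rw [e1, Nat.odd_mul] at h3
        rw [Nat.mul_div_cancel_left _ hmpos]
        exact h3.1
      · rintro ⟨hmA, h1, h2, h3⟩
        have hmpos : 0 < m := by
          rcases Nat.eq_zero_or_pos m with h | h
          · rw [h] at hmA; exact absurd hmA h0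
          · exact h
        refine ⟨hmA, h1, h2.trans (Dvd.intro u rfl), ?_⟩
        obtain ⟨c, rfl⟩ := h2
        rw [Nat.mul_div_cancel_left _ hmpos] at h3
        have e1 : m * c * u / m = c * u := by
          rw [mul_assoc]; exact Nat.mul_div_cancel_left _ hmpos
        rw [e1, Nat.odd_mul]
        exact ⟨h3, huodd⟩
    obtain ⟨m, hmA, hmZ, hmx, hmn⟩ := hex
    have hmpos : 0 < m := by
      rcases Nat.eq_zero_or_pos m with h | h
      · rw [h] at hmA; exact absurd hmA h0
      · exact h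
    have h4 : n * (m / Nat.gcd m n) ∣ n * u := st_lcm hmpos hmx (Dvd.intro u rfl)
    have h5 : m / Nat.gcd m n ∣ u := Nat.dvd_of_mul_dvd_mul_left hn h4
    have h6 : Nat.Coprime (m / Nat.gcd m n) P := Nat.Coprime.coprime_dvd_left h5 hcop
    have h7 : m / Nat.gcd m n ≠ 1 := by
      intro h1
      have h8 : Nat.gcd m n * (m / Nat.gcd m n) = m := Nat.mul_div_cancel' (Nat.gcd_dvd_left m n)
      rw [h1, mul_one] at h8
      exact hmn (h8 ▸ Nat.gcd_dvd_right m n)
    obtain ⟨r, hr, hrm⟩ := Nat.exists_prime_and_dvd h7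
    have hrv : v < r := by
      by_contra hle
      have h8 : r ∣ P := st_prime_dvd hr (by omega)
      have h9 := Nat.dvd_gcd hrm h8
      rw [Nat.Coprime] at h6
      rw [h6] at h9
      exact hr.one_lt.ne' (Nat.dvd_one.1 h9)
    have hrm' : r ∣ m := hrm.trans (Nat.div_dvd_of_dvd (Nat.gcd_dvd_left m n))
    have hvm : v < m := lt_of_lt_of_le hrv (Nat.le_of_dvd hmpos hrm')
    rw [Finset.mem_biUnion]
    refine ⟨m, ?_, ?_⟩
    · rw [hSdef, Finset.mem_filter, Finset.mem_range]
      exact ⟨by omega, hmA, hvm⟩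
    · rw [Finset.mem_filter]
      exact ⟨hxI, Dvd.intro u rfl, by rw [hu]; exact hcop, hmx⟩
  have hcard : bad A Z n P M ≤ ∑ m ∈ S, #((Ico M (2 * M)).filter
        (fun x => n ∣ x ∧ Nat.Coprime (x / n) P ∧ m ∣ x)) :=
    (Finset.card_le_card hsub).trans Finset.card_biUnion_le
  have hcardR : (bad A Z n P M : ℝ) ≤ ∑ m ∈ S, ((#((Ico M (2 * M)).filter
        (fun x => n ∣ x ∧ Nat.Coprime (x / n) P ∧ m ∣ x)) : ℕ) : ℝ) := by
    exact_mod_cast hcard
  have hSm : ∀ m ∈ S, 0 < m ∧ m ≤ Z ∧ m ∈ A ∧ v < m := by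
    intro m hm
    rw [hSdef, Finset.mem_filter, Finset.mem_range] at hm
    exact ⟨by omega, by omega, hm.2.1, hm.2.2⟩
  have hsum1 : (bad A Z n P M : ℝ) ≤ ∑ m ∈ S, cnt n P M * n * (1 / (m : ℝ)) :=
    hcardR.trans (Finset.sum_le_sum fun m hm => st_count hvZ hM (hSm m hm).1 (hSm m hm).2.1)
  rw [← Finset.mul_sum] at hsum1
  have hsm : Summable fun m : ℕ => if m ∈ A ∧ v < m then 1 / (m : ℝ) else 0 := by
    refine Summable.of_nonneg_of_le (fun m => ?_) (fun m => ?_) hS
    · split_ifs
      · positivity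
      · exact le_rfl
    · by_cases h1 : m ∈ A
      · by_cases h2 : v < m
        · simp [h1, h2]
        · rw [if_neg (fun h => h2 h.2), if_pos h1]
          positivity
      · rw [if_neg (fun h => h1 h.1), if_neg h1]
  have hle : ∑ m ∈ S, (1 / (m : ℝ)) ≤ Tl A v := by
    unfold Tl
    have h1 : ∑ m ∈ S, (1 / (m : ℝ)) = ∑ m ∈ S, (if m ∈ A ∧ v < m then 1 / (m : ℝ) else 0) :=
      Finset.sum_congr rfl fun m hm => by rw [if_pos ⟨(hSm m hm).2.2.1, (hSm m hm).2.2.2⟩]
    rw [h1]
    refine Summable.sum_le_tsum S (fun m _ => ?_) hsm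
    split_ifs
    · positivity
    · exact le_rfl
  calc (bad A Z n P M : ℝ) ≤ cnt n P M * n * ∑ m ∈ S, (1 / (m : ℝ)) := hsum1
    _ ≤ cnt n P M * n * Tl A v := mul_le_mul_of_nonneg_left hle (by positivity)
    _ = cnt n P M * (n * Tl A v) := by ring

end Pool.Agent.Helper75.Fib
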