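import Pool.Agent.Helper75.Fib.Defs
import Pool.Agent.Helper75.Fib.P_count_formula
import Pool.Agent.Helper75.Fib.P_start
import Pool.Agent.Helper75.Fib.P_rec_step

set_option autoImplicit false

/-! Definitions for the proof that the sum of `1 / F_n` over an infinite set `A` of positive
integers with `∑ 1/n < ∞` (`n ∈ A`) is irrational. -/

noncomputable section

namespace Pool.Agent.Helper75.Fib
open Classical Finset


theorem rec_sum_cnt_pos {Z n v M : ℕ} (hvZ : v ≤ Z) (hM : Mok n Z M) :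
    0 < cnt n (primorial v) M := by
  obtain ⟨hn, hM0, hd⟩ := hM
  have hpd : primorial v ∣ Z.factorial := by
    unfold primorial
    refine Finset.prod_primes_dvd _ ?_ ?_
    · intro a ha
      rw [Finset.mem_filter] at ha
      exact ha.2.prime
    · intro a ha
      rw [Finset.mem_filter, Finset.mem_range] at ha
      exact Nat.dvd_factorial ha.2.pos (by omega)
  have hnd : n * primorial v ∣ M := by
    refine dvd_trans ?_ hd
    have h1 : primorial v ∣ (Z.factorial) ^ 2 := hpd.trans (dvd_pow_self _ two_ne_zero)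
    have h2 : n ∣ 4 * n := dvd_mul_left _ _
    exact mul_dvd_mul h2 h1
  have h := count_formula hn (primorial_pos v) hnd M
  have h3 : 0 < M * Nat.totient (primorial v) :=
    Nat.mul_pos hM0 (Nat.totient_pos.2 (primorial_pos v))
  rw [← h] at h3
  have h4 := Nat.pos_of_mul_pos_right h3
  unfold cnt
  rw [two_mul]
  exact h4

theorem rec_sum {A : Set ℕ} (h0 : 0 ∉ A)
    (hS : Summable fun n : ℕ => if n ∈ A then 1 / (n : ℝ) else 0) {Q : ℕ} (hQ : 0 < Q)
    (hR : RatHyp A Q) {Z n Y₀ Z₁ M : ℕ} (hY : 2 ≤ Y₀) (hYZ : Y₀ ≤ Z₁) (hZ : Z₁ ≤ Z)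
    (hM : Mok n Z M) (hprimes : ∀ r : ℕ, r.Prime → r ∣ n → r ≤ Y₀)
    (hK : ∀ v : ℕ, Y₀ < v →
      16 * ph ^ 4 * (Q : ℝ) ^ 2 * (21 / 20 : ℝ) ^ v * rh ^ (2 * v) ≤ 1)
    (hKw : ∀ v : ℕ, Y₀ < v → 2 * ph ^ 2 * Q * (21 / 20 : ℝ) ^ v ≤ ph ^ v) :
    (bad A Z n (primorial Y₀) M : ℝ) ≤ cnt n (primorial Y₀) M *
      (n * Tl A Z₁ + ∑ p ∈ Ioc Y₀ Z₁, tm A Q Z n p) := by
  have key : ∀ v, Y₀ ≤ v → v ≤ Z₁ → (bad A Z n (primorial Y₀) M : ℝ) / cnt n (primorial Y₀) M ≤
      (bad A Z n (primorial v) M : ℝ) / cnt n (primorial v) M +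
        ∑ p ∈ Ioc Y₀ v, tm A Q Z n p := by
    intro v hv
    induction v, hv using Nat.le_induction with
    | base => intro _; simp
    | succ v hv ih =>
      intro hv1
      have h1 := ih (by omega)
      have h2 := rec_step h0 hS hQ hR (by omega : 2 ≤ v) (by omega : v + 1 ≤ Z) hM
        (fun r hr hrn => (hprimes r hr hrn).trans hv) (hK (v + 1) (by omega))
        (hKw (v + 1) (by omega))
      have h3 : ∑ p ∈ Ioc Y₀ (v + 1), tm A Q Z n p
          = ∑ p ∈ Ioc Y₀ v, tm A Q Z n p + tm A Q Z n (v + 1) :=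
        Finset.sum_Ioc_succ_top hv _
      rw [h3]
      linarith
  have h1 := key Z₁ hYZ le_rfl
  have h2 := start h0 hS (by omega : 2 ≤ Z₁) hZ hM
  have h3 : (0 : ℝ) < cnt n (primorial Z₁) M := by exact_mod_cast rec_sum_cnt_pos hZ hM
  have h4 : (0 : ℝ) < cnt n (primorial Y₀) M := by
    exact_mod_cast rec_sum_cnt_pos (hYZ.trans hZ) hM
  have h5 : (bad A Z n (primorial Z₁) M : ℝ) / cnt n (primorial Z₁) M ≤ n * Tl A Z₁ := by
    rw [div_le_iff₀ h3]
    linarith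
  have h6 : (bad A Z n (primorial Y₀) M : ℝ) / cnt n (primorial Y₀) M ≤
      n * Tl A Z₁ + ∑ p ∈ Ioc Y₀ Z₁, tm A Q Z n p := by linarith
  rw [div_le_iff₀ h4] at h6
  linarith

end Pool.Agent.Helper75.Fib
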