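import Pool.Agent.Helper75.Fib.Defs

set_option autoImplicit false

/-! Definitions for the proof that the sum of `1 / F_n` over an infinite set `A` of positive
integers with `∑ 1/n < ∞` (`n ∈ A`) is irrational. -/

noncomputable section

namespace Pool.Agent.Helper75.Fib
open Classical Finset


theorem tail_tendsto {A : Set ℕ}
    (hS : Summable fun n : ℕ => if n ∈ A then 1 / (n : ℝ) else 0) :
    Filter.Tendsto (fun Z : ℕ => Tl A Z) Filter.atTop (nhds 0) := by
  obtain ⟨f, hf⟩ : ∃ f : ℕ → ℝ, f = fun n : ℕ => if n ∈ A then 1 / (n : ℝ) else 0 := ⟨_, rfl⟩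
  have hT : ∀ Z : ℕ, Tl A Z = ∑' k : ℕ, f (k + (Z + 1)) := by
    intro Z
    unfold Tl
    have hg : Summable fun n : ℕ => if n ∈ A ∧ Z < n then 1 / (n : ℝ) else 0 := by
      refine Summable.of_nonneg_of_le (fun n => ?_) (fun n => ?_) hS
      · split_ifs
        · positivity
        · exact le_refl _
      · by_cases h : n ∈ A
        · by_cases h' : Z < n
          · rw [if_pos ⟨h, h'⟩, if_pos h]
          · rw [if_neg (fun hh => h' hh.2), if_pos h]
            positivity
        · rw [if_neg (fun hh => h hh.1), if_neg h]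
    rw [← hg.sum_add_tsum_nat_add (Z + 1)]
    have h0 : ∑ n ∈ Finset.range (Z + 1), (if n ∈ A ∧ Z < n then 1 / (n : ℝ) else 0) = 0 := by
      apply Finset.sum_eq_zero
      intro n hn
      rw [Finset.mem_range] at hn
      rw [if_neg]
      rintro ⟨_, h⟩
      omega
    rw [h0, zero_add]
    congr 1
    funext k
    rw [hf]
    have hk : Z < k + (Z + 1) := by omega
    by_cases h : k + (Z + 1) ∈ A
    · rw [if_pos ⟨h, hk⟩]
      simp only
      rw [if_pos h]
    · rw [if_neg (fun hh => h hh.1)]
      simp only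
      rw [if_neg h]
  simp only [hT]
  exact (tendsto_sum_nat_add f).comp (Filter.tendsto_add_atTop_nat 1)

end Pool.Agent.Helper75.Fib
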