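import Pool.Agent.Helper75.Fib.Defs
import Pool.Agent.Helper75.Fib.P_rec_sum
import Pool.Agent.Helper75.Fib.P_tail_tendsto
import Pool.Agent.Helper75.Fib.P_large_q
import Pool.Agent.Helper75.Fib.P_alpha_core

set_option autoImplicit false

/-! Definitions for the proof that the sum of `1 / F_n` over an infinite set `A` of positive
integers with `∑ 1/n < ∞` (`n ∈ A`) is irrational. -/

noncomputable section

namespace Pool.Agent.Helper75.Fib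
open Classical Finset


theorem Tl_nonneg352 (A : Set ℕ) (Z : ℕ) : 0 ≤ Tl A Z := by
  unfold Tl
  apply tsum_nonneg
  intro n
  split_ifs
  · positivity
  · exact le_refl _

theorem SS_nonneg352 (A : Set ℕ) : 0 ≤ SS A := by
  unfold SS
  apply tsum_nonneg
  intro n
  split_ifs
  · positivity
  · exact le_refl _

theorem small352 {A : Set ℕ} (hS : Summable fun n : ℕ => if n ∈ A then 1 / (n : ℝ) else 0)
    (C δ : ℝ) (hδ : 0 < δ) : ∃ N : ℕ, ∀ Z : ℕ, N ≤ Z → C * Tl A Z ≤ δ := by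
  have h := (tail_tendsto hS).const_mul C
  rw [mul_zero] at h
  have h2 := h.eventually (gt_mem_nhds hδ)
  rw [Filter.eventually_atTop] at h2
  obtain ⟨N, hN⟩ := h2
  exact ⟨N, fun Z hZ => (hN Z hZ).le⟩

theorem key352 {A : Set ℕ} (h0 : 0 ∉ A)
    (hS : Summable fun n : ℕ => if n ∈ A then 1 / (n : ℝ) else 0) {Q : ℕ} (hQ : 0 < Q)
    (hR : RatHyp A Q) (p q0 YY Z₁ Z M n₁ n : ℕ) (hp : 0 < p) (hpq : p ≤ q0) (hYY : 2 ≤ YY)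
    (hn : n ≤ n₁) (hYZ : YY ≤ Z₁) (hZ : Z₁ ≤ Z) (hM : Mok n Z M)
    (hprimes : ∀ r : ℕ, r.Prime → r ∣ n → r ≤ YY)
    (hK : ∀ v : ℕ, YY < v →
      16 * ph ^ 4 * (Q : ℝ) ^ 2 * (21 / 20 : ℝ) ^ v * rh ^ (2 * v) ≤ 1)
    (hKw : ∀ v : ℕ, YY < v → 2 * ph ^ 2 * Q * (21 / 20 : ℝ) ^ v ≤ ph ^ v)
    (h6 : ∑ p ∈ Ioc YY Z₁,
        (8 * ph ^ 3 * (Q : ℝ) ^ 2 * (21 / 20 : ℝ) ^ p *
          (12 * (1 + p) * ((((p - 1) / 2 : ℕ) : ℝ) + 1) * rh ^ ((p - 1) / 2) * SS A) +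
            n * p * (SS A / (21 / 20 : ℝ) ^ p)) ≤ (1 : ℝ) / (64 * q0))
    (hZ1 : (n₁ : ℝ) * Tl A Z₁ ≤ 1 / (64 * q0))
    (hZ2 : (∑ r ∈ Ioc YY Z₁, 8 * ph ^ 3 * (Q : ℝ) ^ 2 * (21 / 20 : ℝ) ^ r *
      (65 * (n₁ : ℝ) * r)) * Tl A Z ≤ 1 / (64 * q0)) :
    (bad A Z n (primorial YY) M : ℝ) ≤ cnt n (primorial YY) M / (8 * p) := by
  have h := rec_sum h0 hS hQ hR hYY hYZ hZ hM hprimes hK hKw
  have hn' : (n : ℝ) ≤ n₁ := by exact_mod_cast hn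
  have hp' : (0 : ℝ) < p := by exact_mod_cast hp
  have hpq' : (p : ℝ) ≤ q0 := by exact_mod_cast hpq
  have hq' : (0 : ℝ) < q0 := lt_of_lt_of_le hp' hpq'
  have hph := ph_pos
  have a1 : (n : ℝ) * Tl A Z₁ ≤ 1 / (64 * q0) :=
    (mul_le_mul_of_nonneg_right hn' (Tl_nonneg352 A Z₁)).trans hZ1
  have a3 : ∑ r ∈ Ioc YY Z₁, tm A Q Z n r =
      (∑ p ∈ Ioc YY Z₁,
        (8 * ph ^ 3 * (Q : ℝ) ^ 2 * (21 / 20 : ℝ) ^ p *
          (12 * (1 + p) * ((((p - 1) / 2 : ℕ) : ℝ) + 1) * rh ^ ((p - 1) / 2) * SS A) +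
            n * p * (SS A / (21 / 20 : ℝ) ^ p))) +
      (∑ r ∈ Ioc YY Z₁, 8 * ph ^ 3 * (Q : ℝ) ^ 2 * (21 / 20 : ℝ) ^ r *
      (65 * (n : ℝ) * r)) * Tl A Z := by
    rw [Finset.sum_mul, ← Finset.sum_add_distrib]
    apply Finset.sum_congr rfl
    intro r _
    unfold tm
    ring
  have a4 : (∑ r ∈ Ioc YY Z₁, 8 * ph ^ 3 * (Q : ℝ) ^ 2 * (21 / 20 : ℝ) ^ r *
      (65 * (n : ℝ) * r)) ≤ ∑ r ∈ Ioc YY Z₁, 8 * ph ^ 3 * (Q : ℝ) ^ 2 * (21 / 20 : ℝ) ^ r *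
      (65 * (n₁ : ℝ) * r) := by
    apply Finset.sum_le_sum
    intro r _
    gcongr
  have a5 := (mul_le_mul_of_nonneg_right a4 (Tl_nonneg352 A Z)).trans hZ2
  have a6 : (n : ℝ) * Tl A Z₁ + ∑ r ∈ Ioc YY Z₁, tm A Q Z n r ≤ 1 / (8 * p) := by
    rw [a3]
    have b1 : (n : ℝ) * Tl A Z₁ + ((∑ p ∈ Ioc YY Z₁,
        (8 * ph ^ 3 * (Q : ℝ) ^ 2 * (21 / 20 : ℝ) ^ p *
          (12 * (1 + p) * ((((p - 1) / 2 : ℕ) : ℝ) + 1) * rh ^ ((p - 1) / 2) * SS A) +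
            n * p * (SS A / (21 / 20 : ℝ) ^ p))) +
      (∑ r ∈ Ioc YY Z₁, 8 * ph ^ 3 * (Q : ℝ) ^ 2 * (21 / 20 : ℝ) ^ r *
      (65 * (n : ℝ) * r)) * Tl A Z) ≤ 1 / (64 * q0) + (1 / (64 * q0) + 1 / (64 * q0)) :=
      add_le_add a1 (add_le_add h6 a5)
    refine b1.trans ?_
    have b2 : (1 : ℝ) / (64 * q0) ≤ 1 / (64 * p) := by
      apply one_div_le_one_div_of_le (by positivity)
      linarith
    have b3 : (1 : ℝ) / (64 * p) = (1 / (8 * p)) / 8 := by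
      field_simp
      norm_num
    have b4 : (0 : ℝ) < 1 / (8 * p) := by positivity
    linarith
  refine h.trans ?_
  have hc : (0 : ℝ) ≤ cnt n (primorial YY) M := Nat.cast_nonneg _
  have := mul_le_mul_of_nonneg_left a6 hc
  rw [mul_one_div] at this
  exact this

/-- No suitable element exists if the sum is rational. -/
theorem alpha {A : Set ℕ} (h0 : 0 ∉ A)
    (hS : Summable fun n : ℕ => if n ∈ A then 1 / (n : ℝ) else 0) {Q : ℕ} (hQ : 0 < Q)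
    (hR : RatHyp A Q) : ∃ q₁ : ℕ, ¬ Good A q₁ := by
  by_contra hcon
  push Not at hcon
  obtain ⟨q₁, hq₁⟩ := large_q A Q
  obtain ⟨p, e, n₀, hp, hp2, he, hq1, hn0A, hpn0, hpr, hsize⟩ := hcon q₁
  obtain ⟨q0, hq0⟩ : ∃ q0, q0 = p ^ e := ⟨_, rfl⟩
  rw [← hq0] at hq1 hpr hsize
  obtain ⟨i1, i2, i3, i4, i5, i6⟩ := hq₁ q0 hq1
  obtain ⟨YY, hYY⟩ : ∃ YY, YY = ⌊(21 / 20 : ℝ) ^ q0⌋₊ := ⟨_, rfl⟩
  rw [← hYY] at i1 i6 hsize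
  have hn0 : n₀ ≠ 0 := by
    rintro rfl
    exact h0 hn0A
  have hex : ∃ m, m ∈ A ∧ m ∣ n₀ ∧ p ^ e ∣ m ∧ Odd (n₀ / m) := by
    refine ⟨n₀, hn0A, dvd_refl _, hpn0, ?_⟩
    rw [Nat.div_self (Nat.pos_of_ne_zero hn0)]
    exact odd_one
  obtain ⟨n₁, ⟨hn1A, hn1d, hpn1, hodd⟩, hn1min⟩ :
      ∃ n₁, (n₁ ∈ A ∧ n₁ ∣ n₀ ∧ p ^ e ∣ n₁ ∧ Odd (n₀ / n₁)) ∧
        ∀ m, (m ∈ A ∧ m ∣ n₀ ∧ p ^ e ∣ m ∧ Odd (n₀ / m)) → n₁ ≤ m :=
    ⟨Nat.find hex, Nat.find_spec hex, fun m hm => Nat.find_min' hex hm⟩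
  have hn1 : n₁ ≠ 0 := by
    rintro rfl
    exact h0 hn1A
  have hn1pos : 0 < n₁ := Nat.pos_of_ne_zero hn1
  have hn1le : n₁ ≤ n₀ := Nat.le_of_dvd (Nat.pos_of_ne_zero hn0) hn1d
  obtain ⟨e', he'⟩ : ∃ e', e' = n₁.factorization p := ⟨_, rfl⟩
  have hpe : p ^ e' ∣ n₁ := (hp.pow_dvd_iff_le_factorization hn1).2 he'.le
  have hpe' : ¬ p ^ (e' + 1) ∣ n₁ := by
    intro h
    have := (hp.pow_dvd_iff_le_factorization hn1).1 h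
    omega
  have hee : e ≤ e' := by
    rw [he']
    exact (hp.pow_dvd_iff_le_factorization hn1).1 hpn1
  have hmin : ∀ m : ℕ, m ∈ A → p ^ e' ∣ m → m ∣ n₁ → Odd (n₁ / m) → m = n₁ := by
    intro m hmA hpm hmn hom
    have hm0 : m ≠ 0 := by
      rintro rfl
      exact h0 hmA
    have h1 : n₀ / m = (n₀ / n₁) * (n₁ / m) := by
      obtain ⟨a, rfl⟩ := hmn
      obtain ⟨b, rfl⟩ := hn1d
      have hma : 0 < m * a := hn1pos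
      rw [Nat.mul_div_cancel_left _ hma, Nat.mul_div_cancel_left _ (Nat.pos_of_ne_zero hm0),
        mul_assoc, Nat.mul_div_cancel_left _ (Nat.pos_of_ne_zero hm0), mul_comm]
    have h2 : n₁ ≤ m := hn1min m ⟨hmA, hmn.trans hn1d, (pow_dvd_pow p hee).trans hpm, by
      rw [h1]
      exact hodd.mul hom⟩
    exact le_antisymm (Nat.le_of_dvd hn1pos hmn) h2
  have hpq0 : p ≤ q0 := by
    rw [hq0]
    exact Nat.le_self_pow (by omega) p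
  have hppos : 0 < p := hp.pos
  have hq0pos : (0 : ℝ) < q0 := by
    have : 0 < q0 := lt_of_lt_of_le hppos hpq0
    exact_mod_cast this
  have hpdvd : p ∣ n₁ := (dvd_pow_self p (by omega : e ≠ 0)).trans hpn1
  have hpr1 : ∀ r : ℕ, r.Prime → r ∣ n₁ → r ≤ YY := fun r hr hrn =>
    (hpr r hr (hrn.trans hn1d)).trans i1
  have hn14 : ((n₁ : ℕ) : ℝ) ^ 4 ≤ (21 / 20 : ℝ) ^ YY := by
    refine le_trans ?_ hsize
    have : (n₁ : ℝ) ≤ n₀ := by exact_mod_cast hn1le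
    gcongr
  have hKY : ∀ v : ℕ, YY < v →
      16 * ph ^ 4 * (Q : ℝ) ^ 2 * (21 / 20 : ℝ) ^ v * rh ^ (2 * v) ≤ 1 := fun v hv =>
    i3 v (i1.trans hv.le)
  have hKwY : ∀ v : ℕ, YY < v → 2 * ph ^ 2 * Q * (21 / 20 : ℝ) ^ v ≤ ph ^ v := fun v hv =>
    i4 v (i1.trans hv.le)
  obtain ⟨N1, hN1⟩ := small352 hS (n₁ : ℝ) (1 / (64 * q0)) (by positivity)
  obtain ⟨Z₁, hZ₁⟩ : ∃ Z₁, Z₁ = max N1 YY := ⟨_, rfl⟩
  have hYZ₁ : YY ≤ Z₁ := by rw [hZ₁]; exact le_max_right _ _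
  have hTZ1 := hN1 Z₁ (by rw [hZ₁]; exact le_max_left _ _)
  obtain ⟨C1, hC1⟩ : ∃ C1 : ℝ, C1 = ∑ r ∈ Ioc YY Z₁, 8 * ph ^ 3 * (Q : ℝ) ^ 2 *
    (21 / 20 : ℝ) ^ r * (65 * (n₁ : ℝ) * r) := ⟨_, rfl⟩
  obtain ⟨C2, hC2⟩ : ∃ C2 : ℝ, C2 = 8 * ph ^ 3 * (Q : ℝ) ^ 2 * YY * (65 * n₁) := ⟨_, rfl⟩
  obtain ⟨N2, hN2⟩ := small352 hS C1 (1 / (64 * q0)) (by positivity)
  obtain ⟨N3, hN3⟩ := small352 hS C2 (1 / 8) (by norm_num)
  obtain ⟨Z, hZ⟩ : ∃ Z, Z = max (max N2 N3) (max Z₁ n₁) := ⟨_, rfl⟩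
  have hZN2 : N2 ≤ Z := by rw [hZ]; exact (le_max_left _ _).trans (le_max_left _ _)
  have hZN3 : N3 ≤ Z := by rw [hZ]; exact (le_max_right _ _).trans (le_max_left _ _)
  have hZZ₁ : Z₁ ≤ Z := by rw [hZ]; exact (le_max_left _ _).trans (le_max_right _ _)
  have hZn₁ : n₁ ≤ Z := by rw [hZ]; exact (le_max_right _ _).trans (le_max_right _ _)
  have hT2 := hN2 Z hZN2
  have hT3 := hN3 Z hZN3
  obtain ⟨M, hM⟩ : ∃ M, M = 4 * n₁ * (Z.factorial) ^ 2 := ⟨_, rfl⟩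
  have hMpos : 0 < M := by
    rw [hM]
    have := Nat.factorial_pos Z
    positivity
  have hMok : Mok n₁ Z M := ⟨hn1pos, hMpos, by rw [hM]⟩
  have hnp : 0 < n₁ / p := Nat.div_pos (Nat.le_of_dvd hn1pos hpdvd) hppos
  have hMok' : Mok (n₁ / p) Z M := by
    refine ⟨hnp, hMpos, ?_⟩
    rw [hM]
    exact Nat.mul_dvd_mul (Nat.mul_dvd_mul (dvd_refl _) (Nat.div_dvd_of_dvd hpdvd)) (dvd_refl _)
  have hnple : n₁ / p ≤ n₁ := Nat.div_le_self _ _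
  have hnp4 : ((n₁ / p : ℕ) : ℝ) ^ 4 ≤ (21 / 20 : ℝ) ^ YY := by
    refine le_trans ?_ hn14
    have : ((n₁ / p : ℕ) : ℝ) ≤ n₁ := by exact_mod_cast hnple
    gcongr
  rw [hC1] at hT2
  have hb1 := key352 h0 hS hQ hR p q0 YY Z₁ Z M n₁ n₁ hppos hpq0 (by omega) le_rfl hYZ₁ hZZ₁
    hMok hpr1 hKY hKwY (i6 n₁ Z₁ hn14) hTZ1 hT2
  have hb2 := key352 h0 hS hQ hR p q0 YY Z₁ Z M n₁ (n₁ / p) hppos hpq0 (by omega) hnple hYZ₁ hZZ₁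
    hMok' (fun r hr hrn => hpr1 r hr (hrn.trans (Nat.div_dvd_of_dvd hpdvd))) hKY hKwY
    (i6 (n₁ / p) Z₁ hnp4) hTZ1 hT2
  have hb1' : (bad A Z n₁ (primorial YY) M : ℝ) ≤ cnt n₁ (primorial YY) M / 8 := by
    refine hb1.trans ?_
    have hc : (0 : ℝ) ≤ cnt n₁ (primorial YY) M := Nat.cast_nonneg _
    have hp1 : (1 : ℝ) ≤ p := by exact_mod_cast hppos
    apply div_le_div_of_nonneg_left hc (by norm_num)
    linarith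
  obtain ⟨q, hq⟩ : ∃ q, q = p ^ e' := ⟨_, rfl⟩
  have hqq : q0 ≤ q := by
    rw [hq, hq0]
    exact Nat.pow_le_pow_right hppos hee
  have he1 : 1 ≤ e' := he.trans hee
  obtain ⟨W, hW⟩ : ∃ W, W = p ^ (e' - 1) * ((p - 1) / 2) := ⟨_, rfl⟩
  have hqW : q = p ^ (e' - 1) * p := by
    rw [hq, ← pow_succ]
    congr 1
    omega
  have hpodd : p % 2 = 1 := by
    rcases hp.eq_two_or_odd with h | h
    · exact absurd h hp2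
    · exact h
  have hp3 : 3 ≤ p := by
    have := hp.two_le
    omega
  have hW1 : q ≤ 3 * W := by
    rw [hqW, hW]
    have : p ≤ 3 * ((p - 1) / 2) := by omega
    calc p ^ (e' - 1) * p ≤ p ^ (e' - 1) * (3 * ((p - 1) / 2)) := Nat.mul_le_mul_left _ this
      _ = 3 * (p ^ (e' - 1) * ((p - 1) / 2)) := by ring
  have hW2 : W ≤ q := by
    rw [hqW, hW]
    exact Nat.mul_le_mul_left _ (by omega)
  have j3 := i3 q hqq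
  have j4 := i4 q hqq
  have j5 := i5 q W hqq hW1 hW2
  have hpow1 : (1 : ℝ) ≤ (21 / 20 : ℝ) ^ q := one_le_pow₀ (by norm_num)
  have hph := ph_pos
  have hrh := rh_pos
  have hSS := SS_nonneg352 A
  have hK : 16 * ph ^ 4 * (Q : ℝ) ^ 2 * rh ^ (2 * p ^ e') ≤ 1 := by
    rw [← hq]
    refine le_trans ?_ j3
    have h1 : 0 ≤ 16 * ph ^ 4 * (Q : ℝ) ^ 2 * rh ^ (2 * q) := by positivity
    calc 16 * ph ^ 4 * (Q : ℝ) ^ 2 * rh ^ (2 * q)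
        = 16 * ph ^ 4 * (Q : ℝ) ^ 2 * rh ^ (2 * q) * 1 := by ring
      _ ≤ 16 * ph ^ 4 * (Q : ℝ) ^ 2 * rh ^ (2 * q) * (21 / 20 : ℝ) ^ q :=
          mul_le_mul_of_nonneg_left hpow1 h1
      _ = _ := by ring
  have hKw : 2 * ph ^ 2 * Q ≤ ph ^ (p ^ e') := by
    rw [← hq]
    refine le_trans ?_ j4
    have h1 : 0 ≤ 2 * ph ^ 2 * (Q : ℝ) := by positivity
    calc 2 * ph ^ 2 * (Q : ℝ) = 2 * ph ^ 2 * (Q : ℝ) * 1 := by ring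
      _ ≤ 2 * ph ^ 2 * (Q : ℝ) * (21 / 20 : ℝ) ^ q := mul_le_mul_of_nonneg_left hpow1 h1
  have hYq : (YY : ℝ) ≤ (21 / 20 : ℝ) ^ q := by
    have h1 : (YY : ℝ) ≤ (21 / 20 : ℝ) ^ q0 := by
      rw [hYY]
      exact Nat.floor_le (by positivity)
    refine h1.trans ?_
    exact pow_le_pow_right₀ (by norm_num) hqq
  have hpq : (1 : ℝ) + p ≤ 1 + q := by
    have : (p : ℝ) ≤ q := by exact_mod_cast hpq0.trans hqq
    linarith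
  have hsmall : 8 * ph ^ 3 * (Q : ℝ) ^ 2 * YY *
      (12 * (1 + p) * ((W : ℝ) + 1) * rh ^ W * SS A + 65 * n₁ * Tl A Z) ≤ 1 / 4 := by
    have s1 : 8 * ph ^ 3 * (Q : ℝ) ^ 2 * YY * (12 * (1 + p) * ((W : ℝ) + 1) * rh ^ W * SS A) ≤
        8 * ph ^ 3 * (Q : ℝ) ^ 2 * (21 / 20 : ℝ) ^ q *
          (12 * (1 + q) * ((W : ℝ) + 1) * rh ^ W * SS A) := by
      gcongr
    have s2 : 8 * ph ^ 3 * (Q : ℝ) ^ 2 * YY * (65 * n₁ * Tl A Z) = C2 * Tl A Z := by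
      rw [hC2]
      ring
    rw [mul_add, s2]
    linarith
  exact alpha_core h0 hS hQ hR hp hp2 he1 hn1A hZn₁ hpe hpe' hmin (hpq0.trans i1)
    (hYZ₁.trans hZZ₁) hMok hW hb1' hb2 hK hKw hsmall

end Pool.Agent.Helper75.Fib
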