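import Pool.Agent.Helper75.Fib.Defs

set_option autoImplicit false

/-! Definitions for the proof that the sum of `1 / F_n` over an infinite set `A` of positive
integers with `∑ 1/n < ∞` (`n ∈ A`) is irrational. -/

noncomputable section

namespace Pool.Agent.Helper75.Fib
open Classical Finset


theorem lucas_int_aux (s : ℤ) :
    ∃ c d : ℤ, ph ^ s + (-rh) ^ s = c ∧ ph ^ (s + 1) + (-rh) ^ (s + 1) = d := by
  have hp : ph ≠ 0 := ph_pos.ne'
  have hr : (-rh) ≠ 0 := neg_ne_zero.2 rh_pos.ne'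
  have h2 : (-rh) ^ 2 = (-rh) + 1 := by
    have := rh_sq
    rw [neg_sq, this]; ring
  have h1 := ph_sq
  have hrec : ∀ s : ℤ, ph ^ (s + 2) + (-rh) ^ (s + 2)
      = (ph ^ (s + 1) + (-rh) ^ (s + 1)) + (ph ^ s + (-rh) ^ s) := by
    intro s
    rw [zpow_add₀ hp, zpow_add₀ hr, zpow_add₀ hp, zpow_add₀ hr, zpow_one, zpow_one]
    have e1 : ph ^ (2 : ℤ) = ph + 1 := by rw [← h1]; norm_cast
    have e2 : (-rh) ^ (2 : ℤ) = (-rh) + 1 := by rw [← h2]; norm_cast
    rw [e1, e2]; ring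
  induction s using Int.induction_on with
  | zero =>
    refine ⟨2, 1, ?_, ?_⟩
    · norm_num
    · rw [zero_add, zpow_one, zpow_one, rh_eq]; push_cast; ring
  | succ i ih =>
    obtain ⟨c, d, hc, hd⟩ := ih
    refine ⟨d, d + c, hd, ?_⟩
    have := hrec (i : ℤ)
    rw [hc, hd] at this
    rw [show ((i : ℤ) + 1 + 1) = (i : ℤ) + 2 by ring, this]
    push_cast; ring
  | pred i ih =>
    obtain ⟨c, d, hc, hd⟩ := ih
    refine ⟨d - c, c, ?_, ?_⟩
    · have := hrec (-(i : ℤ) - 1)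
      rw [show (-(i : ℤ) - 1 + 2) = -(i : ℤ) + 1 by ring,
        show (-(i : ℤ) - 1 + 1) = -(i : ℤ) by ring, hc, hd] at this
      push_cast; linarith
    · rw [show (-(i : ℤ) - 1 + 1) = -(i : ℤ) by ring]; exact hc

theorem fz_step_aux (n : ℕ) (m : ℤ) :
    fz (m + 2 * n) = (Nat.fib n : ℝ) * (ph ^ (m + n) + (-rh) ^ (m + n)) + (-1) ^ n * fz m := by
  have hp : ph ≠ 0 := ph_pos.ne'
  have hr : (-rh) ≠ 0 := neg_ne_zero.2 rh_pos.ne'
  have h5 : √(5 : ℝ) ≠ 0 := by positivity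
  have hpr : ph * (-rh) = -1 := by
    have := ph_mul_rh
    linarith
  have hn : ph ^ n * (-rh) ^ n = (-1) ^ n := by rw [← mul_pow, hpr]
  rw [fib_eq]
  unfold fz
  rw [zpow_add₀ hp m n, zpow_add₀ hr m n, show (2 * (n : ℤ)) = (n : ℤ) + n by ring,
    zpow_add₀ hp, zpow_add₀ hr, zpow_add₀ hp, zpow_add₀ hr, zpow_natCast, zpow_natCast, ← hn]
  field_simp
  ring

theorem fz_cong (n : ℕ) (r : ℤ) (k : ℕ) :
    ∃ c : ℤ, fz (r + 2 * n * k) = (-1) ^ (n * k) * fz r + c * (Nat.fib n : ℝ) := by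
  induction k with
  | zero => exact ⟨0, by simp⟩
  | succ k ih =>
    obtain ⟨c, hc⟩ := ih
    obtain ⟨e, _, he, _⟩ := lucas_int_aux (r + 2 * n * k + n)
    refine ⟨e + (-1) ^ n * c, ?_⟩
    have h1 := fz_step_aux n (r + 2 * n * k)
    rw [he, hc] at h1
    rw [show (r + 2 * (n : ℤ) * ((k + 1 : ℕ) : ℤ)) = r + 2 * n * k + 2 * n by push_cast; ring, h1]
    rw [show n * (k + 1) = n * k + n by ring, pow_add]
    push_cast
    ring

end Pool.Agent.Helper75.Fib
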