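import Pool.Agent.Helper75.Fib.Defs

set_option autoImplicit false

/-! Definitions for the proof that the sum of `1 / F_n` over an infinite set `A` of positive
integers with `∑ 1/n < ∞` (`n ∈ A`) is irrational. -/

noncomputable section

namespace Pool.Agent.Helper75.Fib
open Classical Finset


theorem lucas_int833 (s : ℕ) : (∃ z : ℤ, ph ^ s + (-rh) ^ s = z) ∧
    ∃ z : ℤ, ph ^ (s + 1) + (-rh) ^ (s + 1) = z := by
  induction s with
  | zero =>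
    refine ⟨⟨2, by norm_num⟩, ⟨1, ?_⟩⟩
    rw [zero_add, pow_one, pow_one, rh_eq]
    push_cast
    ring
  | succ s ih =>
    obtain ⟨⟨z1, h1⟩, ⟨z2, h2⟩⟩ := ih
    refine ⟨⟨z2, h2⟩, ⟨z1 + z2, ?_⟩⟩
    push_cast
    rw [← h1, ← h2]
    have e1 : ph ^ (s + 1 + 1) = ph ^ s * ph ^ 2 := by ring
    have e2 : (-rh) ^ (s + 1 + 1) = (-rh) ^ s * rh ^ 2 := by ring
    rw [e1, e2, ph_sq, rh_sq]
    ring

theorem fz_rec833 (n : ℕ) (m : ℤ) :
    fz m = (Nat.fib n : ℝ) * (ph ^ (m - n) + (-rh) ^ (m - n)) + (-1) ^ n * fz (m - 2 * n) := by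
  have ha : ph ≠ 0 := ph_pos.ne'
  have hb : -rh ≠ 0 := neg_ne_zero.2 rh_pos.ne'
  have hab : ph * -rh = -1 := by rw [mul_neg, ph_mul_rh]
  have e1 : ∀ a : ℝ, a ≠ 0 → a ^ (m - n) = a ^ (m - 2 * n) * a ^ n := by
    intro a h
    rw [← zpow_natCast a n, ← zpow_add₀ h]
    congr 1
    ring
  have e2 : ∀ a : ℝ, a ≠ 0 → a ^ m = a ^ (m - 2 * n) * a ^ n * a ^ n := by
    intro a h
    rw [← zpow_natCast a n, ← zpow_add₀ h, ← zpow_add₀ h]
    congr 1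
    ring
  have e3 : ((-1 : ℝ)) ^ n = ph ^ n * (-rh) ^ n := by rw [← mul_pow, hab]
  unfold fz
  rw [fib_eq, e1 ph ha, e1 (-rh) hb, e2 ph ha, e2 (-rh) hb, e3]
  ring

theorem hh_int {n : ℕ} (hn : 0 < n) (N : ℕ) :
    ∃ c : ℤ, (Nat.fib N : ℝ) / (Nat.fib n : ℝ) = c + hh n N := by
  have hfz : fz (N : ℤ) = (Nat.fib N : ℝ) := by
    unfold fz
    rw [fib_eq, zpow_natCast, zpow_natCast]
  obtain ⟨k, hk⟩ : ∃ k, k = (N + n) / (2 * n) := ⟨_, rfl⟩
  have hkle : k * (2 * n) ≤ N + n := by rw [hk]; exact Nat.div_mul_le_self _ _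
  have key : ∀ i, i ≤ k → ∃ c : ℤ, fz (N : ℤ) = (Nat.fib n : ℝ) * c +
      (-1) ^ (n * i) * fz ((N : ℤ) - 2 * (n : ℤ) * (i : ℤ)) := by
    intro i
    induction i with
    | zero =>
      intro _
      refine ⟨0, ?_⟩
      simp
    | succ i ih =>
      intro hi
      obtain ⟨c, hc⟩ := ih (by omega)
      have hs : n * (2 * i + 1) ≤ N := by
        have h1 : (i + 1) * (2 * n) ≤ k * (2 * n) := Nat.mul_le_mul_right _ hi
        nlinarith
      obtain ⟨s, hs'⟩ := Nat.exists_eq_add_of_le hs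
      obtain ⟨⟨z, hz⟩, -⟩ := lucas_int833 s
      refine ⟨c + (-1) ^ (n * i) * z, ?_⟩
      rw [hc, fz_rec833 n ((N : ℤ) - 2 * (n : ℤ) * (i : ℤ))]
      have h2 : (N : ℤ) - 2 * (n : ℤ) * (i : ℤ) - n = (s : ℤ) := by
        rw [hs']; push_cast; ring
      have h3 : (N : ℤ) - 2 * (n : ℤ) * (i : ℤ) - 2 * n = (N : ℤ) - 2 * (n : ℤ) * ((i + 1 : ℕ) : ℤ) := by
        push_cast; ring
      rw [h2, h3, zpow_natCast, zpow_natCast, hz]
      push_cast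
      rw [mul_add n i 1, mul_one, pow_add]
      ring
  obtain ⟨c, hc⟩ := key k le_rfl
  refine ⟨c, ?_⟩
  have hf : (Nat.fib n : ℝ) ≠ 0 := by
    have := Nat.fib_pos.2 hn
    positivity
  unfold hh
  rw [← hk, ← hfz, hc, add_div, mul_div_cancel_left₀ _ hf]

end Pool.Agent.Helper75.Fib
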