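import Pool.Agent.Helper75.Fib.Defs
import Pool.Agent.Helper75.Fib.P_hh_int
import Pool.Agent.Helper75.Fib.P_fz_cong

set_option autoImplicit false

/-! Definitions for the proof that the sum of `1 / F_n` over an infinite set `A` of positive
integers with `∑ 1/n < ∞` (`n ∈ A`) is irrational. -/

noncomputable section

namespace Pool.Agent.Helper75.Fib
open Classical Finset


theorem beta_even {n x j : ℕ} (hn : 0 < n) (hx : 2 * n ∣ x) (hx' : Even n ∨ 4 * n ∣ x)
    (hj : j ≤ x) :
    ∃ c : ℤ, hh n (x - j) - fz (-(j : ℤ)) / (Nat.fib n : ℝ) = c := by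
  obtain ⟨k, hk⟩ := hx
  obtain ⟨c, hc⟩ := hh_int hn (x - j)
  obtain ⟨c', hc'⟩ := fz_cong n (-(j : ℤ)) k
  have h1 : (Nat.fib (x - j) : ℝ) = fz (((x - j : ℕ) : ℤ)) := by
    rw [fib_eq]
    unfold fz
    rw [zpow_natCast, zpow_natCast]
  have h2 : (((x - j : ℕ) : ℤ)) = -(j : ℤ) + 2 * n * k := by
    rw [Nat.cast_sub hj, hk]; push_cast; ring
  have hev : Even (n * k) := by
    rcases hx' with h | ⟨m, hm⟩
    · exact h.mul_right k
    · have h3 : n * k = n * (2 * m) := by
        have : 2 * (n * k) = 2 * (n * (2 * m)) := by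
          calc 2 * (n * k) = 2 * n * k := by ring
            _ = x := hk.symm
            _ = 4 * n * m := hm
            _ = _ := by ring
        omega
      rw [h3]
      exact Even.mul_left (even_two_mul m) n
  rw [h2] at h1
  rw [hc', hev.neg_one_pow, one_mul] at h1
  have hf : (Nat.fib n : ℝ) ≠ 0 := by
    have := Nat.fib_pos.2 hn
    positivity
  refine ⟨c' - c, ?_⟩
  rw [h1] at hc
  have h4 : hh n (x - j) = (fz (-(j : ℤ)) + c' * (Nat.fib n : ℝ)) / (Nat.fib n : ℝ) - c := by
    rw [hc]; ring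
  rw [h4, add_div, mul_div_cancel_right₀ _ hf]
  push_cast
  ring

end Pool.Agent.Helper75.Fib
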