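import Pool.Agent.Helper75.Fib.Defs
import Pool.Agent.Helper75.Fib.P_hh_bound

set_option autoImplicit false

/-! Definitions for the proof that the sum of `1 / F_n` over an infinite set `A` of positive
integers with `∑ 1/n < ∞` (`n ∈ A`) is irrational. -/

noncomputable section

namespace Pool.Agent.Helper75.Fib
open Classical Finset


theorem beta_far {n a L j : ℕ} (hn : 0 < n) (hL : Odd L) (hj : j ≤ 2 ^ a * L)
    (h : 2 ^ (a + 1) ∣ n) :
    |hh n (2 ^ a * L - j)| ≤ ph * ph ^ j * rh ^ (2 ^ a) ∧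
      (2 ^ a * L ≤ n → |hh n (2 ^ a * L - j)| ≤ ph * rh ^ (n - 2 ^ a * L)) := by
  obtain ⟨m, hm1, hnm, hodd, hb⟩ := hh_bound hn (2 ^ a * L - j)
  have hrp := rh_pos
  have hr1 := rh_lt_one
  have hpp := ph_pos
  constructor
  · obtain ⟨c, hc⟩ := h.trans hnm
    obtain ⟨l, hl⟩ := hL
    have h1 : 2 ^ a ≤ Nat.dist m (2 ^ a * L) := by
      have e1 : m = 2 ^ a * (2 * c) := by rw [hc, pow_succ]; ring
      rw [e1, Nat.dist_mul_left]
      have e2 : 1 ≤ Nat.dist (2 * c) L := by
        unfold Nat.dist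
        omega
      exact Nat.le_mul_of_pos_right _ e2
    have h2 : 2 ^ a ≤ Nat.dist m (2 ^ a * L - j) + j := by
      unfold Nat.dist at h1 ⊢
      omega
    refine hb.trans ?_
    have h3 : rh ^ Nat.dist m (2 ^ a * L - j) = ph ^ j * rh ^ (Nat.dist m (2 ^ a * L - j) + j) := by
      have e3 : ph ^ j * rh ^ j = 1 := by rw [← mul_pow, ph_mul_rh, one_pow]
      rw [pow_add]
      calc rh ^ Nat.dist m (2 ^ a * L - j) = (ph ^ j * rh ^ j) * rh ^ Nat.dist m (2 ^ a * L - j) := by
            rw [e3, one_mul]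
        _ = _ := by ring
    have h4 : rh ^ (Nat.dist m (2 ^ a * L - j) + j) ≤ rh ^ (2 ^ a) :=
      pow_le_pow_of_le_one hrp.le hr1.le h2
    rw [h3, mul_assoc]
    exact mul_le_mul_of_nonneg_left (mul_le_mul_of_nonneg_left h4 (by positivity)) hpp.le
  · intro hle
    refine hb.trans ?_
    have h1 : n ≤ m := Nat.le_of_dvd (by omega) hnm
    have h2 : n - 2 ^ a * L ≤ Nat.dist m (2 ^ a * L - j) := by
      unfold Nat.dist
      omega
    exact mul_le_mul_of_nonneg_left (pow_le_pow_of_le_one hrp.le hr1.le h2) hpp.le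

end Pool.Agent.Helper75.Fib
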