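import Pool.Agent.Helper75.Fib.Defs

set_option autoImplicit false

/-! Definitions for the proof that the sum of `1 / F_n` over an infinite set `A` of positive
integers with `∑ 1/n < ∞` (`n ∈ A`) is irrational. -/

noncomputable section

namespace Pool.Agent.Helper75.Fib
open Classical Finset


theorem fz_int (r : ℤ) : ∃ c : ℤ, fz r = c := by
  obtain ⟨n, rfl | rfl⟩ := r.eq_nat_or_neg
  · refine ⟨(Nat.fib n : ℤ), ?_⟩
    unfold fz
    rw [zpow_natCast, zpow_natCast, Int.cast_natCast, fib_eq]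
  · refine ⟨-(-1) ^ n * (Nat.fib n : ℤ), ?_⟩
    have h1 : ph ^ (-(n : ℤ)) = rh ^ n := by
      rw [ph_zpow_neg, zpow_natCast]
    have h2 : ((-1 : ℝ) ^ n) * (-1) ^ n = 1 := by
      rw [← mul_pow]; norm_num
    have h3 : ph ^ n * rh ^ n = 1 := by rw [← mul_pow, ph_mul_rh, one_pow]
    have h4 : (-rh) ^ (-(n : ℤ)) = (-1) ^ n * ph ^ n := by
      rw [zpow_neg, zpow_natCast, neg_pow]
      apply inv_eq_of_mul_eq_one_right
      calc (-1 : ℝ) ^ n * rh ^ n * ((-1) ^ n * ph ^ n)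
          = ((-1 : ℝ) ^ n * (-1) ^ n) * (ph ^ n * rh ^ n) := by ring
        _ = 1 := by rw [h2, h3, one_mul]
    unfold fz
    rw [h1, h4]
    push_cast
    rw [fib_eq, neg_pow rh n]
    have h5 : rh ^ n - (-1) ^ n * ph ^ n
        = -(-1) ^ n * (ph ^ n - (-1) ^ n * rh ^ n) := by
      have h6 : -(-1 : ℝ) ^ n * (ph ^ n - (-1) ^ n * rh ^ n)
          = -(-1) ^ n * ph ^ n + ((-1 : ℝ) ^ n * (-1) ^ n) * rh ^ n := by ring
      rw [h6, h2]; ring
    rw [h5, mul_div_assoc]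

end Pool.Agent.Helper75.Fib
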