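import Pool.Agent.Helper75.Fib.Defs

set_option autoImplicit false

/-! Definitions for the proof that the sum of `1 / F_n` over an infinite set `A` of positive
integers with `∑ 1/n < ∞` (`n ∈ A`) is irrational. -/

noncomputable section

namespace Pool.Agent.Helper75.Fib
open Classical Finset


theorem hh_of_lt {n N : ℕ} (h : N < n) : hh n N = (Nat.fib N : ℝ) / (Nat.fib n : ℝ) := by
  unfold hh
  have h0 : (N + n) / (2 * n) = 0 := Nat.div_eq_of_lt (by omega)
  rw [h0]
  have h1 : fz ((N : ℤ) - 2 * (n : ℤ) * ((0 : ℕ) : ℤ)) = (Nat.fib N : ℝ) := by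
    rw [fib_eq]
    unfold fz
    simp
  rw [h1]
  simp

end Pool.Agent.Helper75.Fib
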