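import Pool.Agent.Helper75.Fib.Defs
import Pool.Agent.Helper75.Fib.P_fib_lower
import Pool.Agent.Helper75.Fib.P_hh_int
import Pool.Agent.Helper75.Fib.P_hh_of_lt

set_option autoImplicit false

/-! Definitions for the proof that the sum of `1 / F_n` over an infinite set `A` of positive
integers with `∑ 1/n < ∞` (`n ∈ A`) is irrational. -/

noncomputable section

namespace Pool.Agent.Helper75.Fib
open Classical Finset


theorem rathyp_summable {A : Set ℕ} (h0 : 0 ∉ A) :
    Summable (fun n : ℕ => if n ∈ A then 1 / (Nat.fib n : ℝ) else 0) := by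
  have hpos : ∀ n ∈ A, 0 < n := fun n hn => Nat.pos_of_ne_zero (fun h => h0 (h ▸ hn))
  have hb : ∀ n : ℕ, 0 ≤ √5 * ph * rh ^ n := fun n =>
    mul_nonneg (mul_nonneg (Real.sqrt_nonneg 5) ph_pos.le) (pow_nonneg rh_pos.le n)
  refine Summable.of_nonneg_of_le (f := fun n => √5 * ph * rh ^ n) ?_ ?_ ?_
  · intro n
    split_ifs
    · positivity
    · exact le_rfl
  · intro n
    split_ifs with h
    · have hn := hpos n h
      have h1 := fib_lower hn
      have hfib : (0 : ℝ) < Nat.fib n := by exact_mod_cast Nat.fib_pos.2 hn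
      rw [div_le_iff₀ hfib]
      have h2 : ph ^ n * rh ^ n = 1 := by rw [← mul_pow, ph_mul_rh, one_pow]
      have h3 : 0 ≤ ph * rh ^ n := mul_nonneg ph_pos.le (pow_nonneg rh_pos.le n)
      calc (1 : ℝ) = (ph ^ n * rh) * (ph * rh ^ n) := by
            have h4 : (ph ^ n * rh) * (ph * rh ^ n) = (ph ^ n * rh ^ n) * (ph * rh) := by ring
            rw [h4, h2, ph_mul_rh, one_mul]
        _ ≤ (√5 * (Nat.fib n : ℝ)) * (ph * rh ^ n) := mul_le_mul_of_nonneg_right h1 h3
        _ = √5 * ph * rh ^ n * (Nat.fib n : ℝ) := by ring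
    · exact hb n
  · exact (summable_geometric_of_lt_one rh_pos.le rh_lt_one).mul_left _

theorem rathyp {A : Set ℕ} (h0 : 0 ∉ A) {Q : ℕ} {P : ℤ}
    (hP : (Q : ℝ) * ∑' n : ℕ, (if n ∈ A then 1 / (Nat.fib n : ℝ) else 0) = P) : RatHyp A Q := by
  have hpos : ∀ n ∈ A, 0 < n := fun n hn => Nat.pos_of_ne_zero (fun h => h0 (h ▸ hn))
  have hf := rathyp_summable h0
  intro N
  have hch : ∀ n : ℕ, ∃ c : ℤ, (n ∈ A → (Nat.fib N : ℝ) / (Nat.fib n : ℝ) = c + hh n N) ∧
      (n ∉ A → c = 0) := by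
    intro n
    by_cases hn : n ∈ A
    · obtain ⟨c, hc⟩ := hh_int (hpos n hn) N
      exact ⟨c, fun _ => hc, fun h => absurd hn h⟩
    · exact ⟨0, fun h => absurd h hn, fun _ => rfl⟩
  choose c hc1 hc2 using hch
  have hc0 : ∀ n : ℕ, n ∉ range (N + 1) → (c n : ℝ) = 0 := by
    intro n hn
    rw [mem_range, not_lt] at hn
    by_cases hnA : n ∈ A
    · have h1 := hc1 n hnA
      rw [hh_of_lt (by omega : N < n)] at h1
      linarith
    · rw [hc2 n hnA]
      simp
  have heq : (fun n : ℕ => if n ∈ A then hh n N else 0) = fun n : ℕ =>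
      (Nat.fib N : ℝ) * (if n ∈ A then 1 / (Nat.fib n : ℝ) else 0) - (c n : ℝ) := by
    funext n
    by_cases hnA : n ∈ A
    · rw [if_pos hnA, if_pos hnA, mul_one_div, hc1 n hnA]
      ring
    · rw [if_neg hnA, if_neg hnA, hc2 n hnA]
      simp
  have hs1 : Summable (fun n : ℕ => (Nat.fib N : ℝ) *
      (if n ∈ A then 1 / (Nat.fib n : ℝ) else 0)) := hf.mul_left _
  have hs2 : Summable (fun n : ℕ => (c n : ℝ)) :=
    summable_of_ne_finset_zero (s := range (N + 1)) (fun n hn => hc0 n hn)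
  have hs3 : ∑' n : ℕ, (c n : ℝ) = ∑ n ∈ range (N + 1), (c n : ℝ) :=
    tsum_eq_sum (fun n hn => hc0 n hn)
  refine ⟨?_, (Nat.fib N : ℤ) * P - (Q : ℤ) * ∑ n ∈ range (N + 1), c n, ?_⟩
  · rw [heq]
    exact hs1.sub hs2
  · unfold Y
    rw [heq, hs1.tsum_sub hs2, tsum_mul_left, hs3, mul_sub]
    push_cast
    rw [← hP]
    ring

end Pool.Agent.Helper75.Fib
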