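import Pool.Agent.Helper75.Fib.Defs
import Pool.Agent.Helper75.Fib.P_fib_lower
import Pool.Agent.Helper75.Fib.P_hh_active
import Pool.Agent.Helper75.Fib.P_rathyp
import Pool.Agent.Helper75.Fib.P_fz_int
import Pool.Agent.Helper75.Fib.P_beta_even
import Pool.Agent.Helper75.Fib.P_beta_far

set_option autoImplicit false

/-! Definitions for the proof that the sum of `1 / F_n` over an infinite set `A` of positive
integers with `∑ 1/n < ∞` (`n ∈ A`) is irrational. -/

noncomputable section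

namespace Pool.Agent.Helper75.Fib
open Classical Finset


theorem beta_geo (K : ℕ) :
    HasSum (fun n : ℕ => if K ≤ n then rh ^ (n - K) else (0 : ℝ)) (1 - rh)⁻¹ := by
  have h1 : HasSum (fun n : ℕ => (fun n : ℕ => if K ≤ n then rh ^ (n - K) else (0:ℝ)) (n + K))
      (1 - rh)⁻¹ := by
    have h2 : (fun n : ℕ => (fun n : ℕ => if K ≤ n then rh ^ (n - K) else (0:ℝ)) (n + K)) =
        fun n => rh ^ n := by
      funext n
      simp
    rw [h2]
    exact hasSum_geometric_of_lt_one rh_pos.le rh_lt_one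
  have h1' := (hasSum_nat_add_iff (f := fun n : ℕ => if K ≤ n then rh ^ (n - K) else (0:ℝ)) K).mp h1
  have h3 : ∑ i ∈ range K, (if K ≤ i then rh ^ (i - K) else (0:ℝ)) = 0 := by
    apply Finset.sum_eq_zero
    intro i hi
    rw [Finset.mem_range] at hi
    rw [if_neg (by omega)]
  rw [h3, add_zero] at h1'
  exact h1'

theorem beta_pr (n : ℕ) : ph ^ n * rh ^ n = 1 := by
  rw [← mul_pow, ph_mul_rh, one_pow]

theorem beta_inv {n : ℕ} (hn : 0 < n) : 1 / (Nat.fib n : ℝ) ≤ √5 * ph * rh ^ n := by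
  have h1 := fib_lower hn
  have hf : (0:ℝ) < Nat.fib n := by exact_mod_cast Nat.fib_pos.mpr hn
  rw [div_le_iff₀ hf]
  have h2 := beta_pr n
  have h3 := ph_mul_rh
  have h4 : ph * rh ^ n * (ph ^ n * rh) ≤ ph * rh ^ n * (√5 * (Nat.fib n : ℝ)) :=
    mul_le_mul_of_nonneg_left h1 (mul_nonneg ph_pos.le (pow_nonneg rh_pos.le _))
  have h5 : ph * rh ^ n * (ph ^ n * rh) = (ph ^ n * rh ^ n) * (ph * rh) := by ring
  rw [h5, h2, h3, one_mul] at h4
  calc (1:ℝ) ≤ _ := h4
    _ = _ := by ring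

theorem beta_c (j : ℕ) : |fz (-(j : ℤ))| ≤ 2 * ph ^ j / √5 := by
  unfold fz
  rw [abs_div]
  have h5 : (0:ℝ) < √5 := Real.sqrt_pos.mpr (by norm_num)
  rw [abs_of_pos h5]
  apply div_le_div_of_nonneg_right _ h5.le
  have h1 : |ph ^ (-(j:ℤ))| ≤ ph ^ j := by
    rw [ph_zpow_neg, zpow_natCast, abs_of_pos (pow_pos rh_pos _)]
    exact le_trans (pow_le_one₀ rh_pos.le rh_lt_one.le) (one_le_pow₀ one_lt_ph.le)
  have h2 : |(-rh) ^ (-(j:ℤ))| ≤ ph ^ j := by
    rw [abs_zpow, abs_neg, abs_of_pos rh_pos, zpow_neg, zpow_natCast]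
    apply le_of_eq
    have := beta_pr j
    have h3 : rh ^ j ≠ 0 := (pow_pos rh_pos _).ne'
    field_simp
    linarith
  calc |ph ^ (-(j:ℤ)) - (-rh) ^ (-(j:ℤ))| ≤ |ph ^ (-(j:ℤ))| + |(-rh) ^ (-(j:ℤ))| := abs_sub _ _
    _ ≤ ph ^ j + ph ^ j := add_le_add h1 h2
    _ = 2 * ph ^ j := by ring

theorem beta_cinv {n j : ℕ} (hn : 0 < n) :
    |fz (-(j : ℤ)) / (Nat.fib n : ℝ)| ≤ 2 * ph ^ j * ph * rh ^ n := by
  have hf : (0:ℝ) < Nat.fib n := by exact_mod_cast Nat.fib_pos.mpr hn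
  have h1 := beta_inv hn
  have h2 := beta_c j
  have h5 : (0:ℝ) < √5 := Real.sqrt_pos.mpr (by norm_num)
  rw [abs_div, abs_of_pos hf, div_eq_mul_one_div]
  calc |fz (-(j : ℤ))| * (1 / (Nat.fib n : ℝ)) ≤ (2 * ph ^ j / √5) * (√5 * ph * rh ^ n) :=
        mul_le_mul h2 h1 (by positivity) (div_nonneg (mul_nonneg (by norm_num)
          (pow_nonneg ph_pos.le _)) h5.le)
    _ = 2 * ph ^ j * ph * rh ^ n := by field_simp

theorem beta_choose {Q : ℕ} (hQ : 0 < Q) : ∃ a₁ : ℕ, ∀ a : ℕ, a₁ ≤ a →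
    2000 * (Q:ℝ) ^ 2 * ((2:ℝ) ^ a) ^ 3 * rh ^ (2 ^ a) < 1 := by
  have h1 : Filter.Tendsto (fun n : ℕ => (n:ℝ) ^ 3 * rh ^ n) Filter.atTop (nhds 0) :=
    tendsto_pow_const_mul_const_pow_of_abs_lt_one 3 (by
      rw [abs_of_pos rh_pos]; exact rh_lt_one)
  have hQ' : (0:ℝ) < Q := by exact_mod_cast hQ
  have h2 : ∀ᶠ n : ℕ in Filter.atTop, (n:ℝ) ^ 3 * rh ^ n < 1 / (2000 * (Q:ℝ) ^ 2) :=
    h1.eventually (gt_mem_nhds (by positivity))
  obtain ⟨n0, hn0⟩ := Filter.eventually_atTop.mp h2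
  refine ⟨n0, fun a ha => ?_⟩
  have h3 : n0 ≤ 2 ^ a := le_trans ha Nat.lt_two_pow_self.le
  have h4 := hn0 _ h3
  push_cast at h4
  rw [lt_div_iff₀ (by positivity)] at h4
  calc _ = (((2:ℝ) ^ a) ^ 3 * rh ^ (2 ^ a)) * (2000 * (Q:ℝ) ^ 2) := by ring
    _ < 1 := h4

/-- the numerical estimate -/
theorem beta_num (Q k x M P R s rM rx : ℝ) (hQ : 1 ≤ Q) (hM : 1 ≤ M)
    (hx : x ≤ M ^ 2) (hx0 : 0 ≤ x) (hP : P ≤ 4 * Q * M) (hP0 : 0 ≤ P) (hs : s ≤ 3) (hs0 : 0 ≤ s)
    (hrM : 0 < rM) (hrx : rx ≤ rM) (hrx0 : 0 < rx) (phv : ℝ) (hph : phv ≤ 2) (hph0 : 0 < phv)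
    (hR : R ≤ (2 * x + 1) * (2 * P * phv * rM) + phv * rx * s + 2 * P * phv * rM * s)
    (hsmall : 2000 * Q ^ 2 * M ^ 3 * rM < 1) : Q * R < 1 / 10 := by
  have h1 : 2 * P * phv ≤ 16 * Q * M := by nlinarith
  have h1' : 0 ≤ 2 * P * phv := by positivity
  have h2 : 2 * P * phv * rM ≤ 16 * Q * M * rM := mul_le_mul_of_nonneg_right h1 hrM.le
  have h2' : 0 ≤ 2 * P * phv * rM := by positivity
  have h3 : (2 * x + 1) * (2 * P * phv * rM) ≤ (3 * M ^ 2) * (16 * Q * M * rM) := by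
    apply mul_le_mul _ h2 h2' (by positivity)
    nlinarith
  have h4 : 2 * P * phv * rM * s ≤ 16 * Q * M * rM * 3 :=
    mul_le_mul h2 hs hs0 (by positivity)
  have h5 : phv * rx ≤ 2 * rM := mul_le_mul hph hrx hrx0.le (by norm_num)
  have h6 : phv * rx * s ≤ 2 * rM * 3 := mul_le_mul h5 hs hs0 (by positivity)
  have h7 : R ≤ 48 * Q * M ^ 3 * rM + 6 * rM + 48 * Q * M * rM := by nlinarith
  have hM3 : M ≤ M ^ 3 := by
    have : 1 ≤ M ^ 2 := one_le_pow₀ hM
    nlinarith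
  have hM31 : 1 ≤ M ^ 3 := one_le_pow₀ hM
  have h8 : 48 * Q * M * rM ≤ 48 * Q * M ^ 3 * rM := by
    apply mul_le_mul_of_nonneg_right _ hrM.le
    apply mul_le_mul_of_nonneg_left hM3 (by positivity)
  have h9 : 6 * rM ≤ 6 * (Q * M ^ 3) * rM := by
    apply mul_le_mul_of_nonneg_right _ hrM.le
    nlinarith
  have h10 : R ≤ 102 * Q * M ^ 3 * rM := by linarith
  have h11 : Q * R ≤ Q * (102 * Q * M ^ 3 * rM) := mul_le_mul_of_nonneg_left h10 (by linarith)
  have h12 : Q * (102 * Q * M ^ 3 * rM) = 102 / 2000 * (2000 * Q ^ 2 * M ^ 3 * rM) := by ring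
  rw [h12] at h11
  linarith

/-- The case of large powers of two. -/
theorem beta {A : Set ℕ} (h0 : 0 ∉ A) {Q : ℕ} (hQ : 0 < Q) {P : ℤ}
    (hP : (Q : ℝ) * ∑' n : ℕ, (if n ∈ A then 1 / (Nat.fib n : ℝ) else 0) = P) :
    ∃ a₁ : ℕ, ∀ a : ℕ, a₁ ≤ a → ∀ L : ℕ, Odd L → L ≤ 2 ^ a →
      (∀ n : ℕ, n ∈ A → ¬ 2 ^ (a + 1) ∣ n → n ∣ 2 ^ a * L) →
        (∃ n : ℕ, n ∈ A ∧ 2 ^ a ∣ n ∧ ¬ 2 ^ (a + 1) ∣ n) → False := by
  obtain ⟨a0, ha0⟩ := beta_choose hQ
  refine ⟨max 2 a0, ?_⟩
  intro a ha L hL hLa hdiv hex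
  have ha2 : 2 ≤ a := le_trans (le_max_left _ _) ha
  have hsmall := ha0 a (le_trans (le_max_right _ _) ha)
  have hQ1 : (1:ℝ) ≤ Q := by exact_mod_cast hQ
  have hpos : ∀ n ∈ A, 0 < n := fun n hn => Nat.pos_of_ne_zero (fun h => h0 (h ▸ hn))
  set x : ℕ := 2 ^ a * L with hxdef
  have hLpos : 0 < L := hL.pos
  have hMpos : 0 < 2 ^ a := by positivity
  have hxpos : 0 < x := Nat.mul_pos hMpos hLpos
  have hMx : 2 ^ a ≤ x := Nat.le_mul_of_pos_right _ hLpos
  -- the active elements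
  set A1 : Finset ℕ := (range (x + 1)).filter (fun n => n ∈ A ∧ 2 ^ a ∣ n ∧ ¬ 2 ^ (a + 1) ∣ n)
    with hA1
  have hk1 : 1 ≤ A1.card := by
    obtain ⟨n, hnA, hn1, hn2⟩ := hex
    apply Finset.card_pos.mpr
    refine ⟨n, ?_⟩
    rw [hA1, Finset.mem_filter, Finset.mem_range]
    exact ⟨Nat.lt_succ_of_le (Nat.le_of_dvd hxpos (hdiv n hnA hn2)), hnA, hn1, hn2⟩
  have hkM : A1.card ≤ 2 ^ a := by
    have h1 : A1.card ≤ (Finset.Icc 1 L).card := by
      apply Finset.card_le_card_of_injOn (fun n => n / 2 ^ a)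
      · intro n hn
        have hn' := Finset.mem_filter.mp (Finset.mem_coe.mp hn)
        obtain ⟨hn0, hnA, hn1, hn2⟩ := hn'
        rw [Finset.mem_range] at hn0
        rw [Finset.coe_Icc, Set.mem_Icc]
        constructor
        · exact Nat.div_pos (Nat.le_of_dvd (hpos n hnA) hn1) hMpos
        · apply Nat.div_le_of_le_mul
          omega
      · intro n hn m hm hnm
        have hn' := Finset.mem_filter.mp (Finset.mem_coe.mp hn)
        have hm' := Finset.mem_filter.mp (Finset.mem_coe.mp hm)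
        have e1 := Nat.div_mul_cancel hn'.2.2.1
        have e2 := Nat.div_mul_cancel hm'.2.2.1
        have hnm' : n / 2 ^ a = m / 2 ^ a := hnm
        rw [← e1, ← e2, hnm']
    rw [Nat.card_Icc] at h1
    omega
  set k : ℕ := A1.card with hk
  have hkR : (1:ℝ) ≤ k := by exact_mod_cast hk1
  have hkMR : (k:ℝ) ≤ (2:ℝ) ^ a := by exact_mod_cast hkM
  have hM1 : (1:ℝ) ≤ (2:ℝ) ^ a := one_le_pow₀ (by norm_num)
  -- the exponent j
  have hexj : ∃ j : ℕ, 2 * (Q:ℝ) * k < ph ^ j := by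
    have := (tendsto_pow_atTop_atTop_of_one_lt one_lt_ph).eventually_gt_atTop (2 * (Q:ℝ) * k)
    exact this.exists
  set j : ℕ := Nat.find hexj with hjdef
  have hj2 : 2 * (Q:ℝ) * k < ph ^ j := Nat.find_spec hexj
  have hj1 : 1 ≤ j := by
    by_contra hcon
    have hj0 : j = 0 := by omega
    rw [hj0, pow_zero] at hj2
    nlinarith
  have hj3 : ph ^ (j - 1) ≤ 2 * (Q:ℝ) * k := by
    by_contra hcon
    push Not at hcon
    have := Nat.find_min' hexj hcon
    omega
  have hpj : ph ^ j = ph * ph ^ (j - 1) := by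
    rw [← pow_succ']
    congr 1
    omega
  have hphj : ph ^ j ≤ 4 * (Q:ℝ) * (2:ℝ) ^ a := by
    rw [hpj]
    have h1 : ph ^ (j - 1) ≤ 2 * (Q:ℝ) * (2:ℝ) ^ a :=
      le_trans hj3 (mul_le_mul_of_nonneg_left hkMR (by positivity))
    have h2 : ph * ph ^ (j - 1) ≤ 2 * (2 * (Q:ℝ) * (2:ℝ) ^ a) :=
      mul_le_mul ph_lt_two.le h1 (pow_nonneg ph_pos.le _) (by norm_num)
    linarith
  have hjM : j ≤ 2 ^ a := by
    by_contra hcon
    push Not at hcon
    have h1 : ph ^ (2 ^ a) ≤ ph ^ (j - 1) := pow_le_pow_right₀ one_lt_ph.le (by omega)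
    have h2 : ph ^ (2 ^ a) ≤ 2 * (Q:ℝ) * (2:ℝ) ^ a :=
      le_trans h1 (le_trans hj3 (mul_le_mul_of_nonneg_left hkMR (by positivity)))
    have h3 := beta_pr (2 ^ a)
    have h4 : 1 ≤ 2 * (Q:ℝ) * (2:ℝ) ^ a * rh ^ (2 ^ a) := by
      rw [← h3]
      exact mul_le_mul_of_nonneg_right h2 (pow_nonneg rh_pos.le _)
    have h5 : 2 * (Q:ℝ) * (2:ℝ) ^ a ≤ 2000 * (Q:ℝ) ^ 2 * ((2:ℝ) ^ a) ^ 3 := by
      have e1 : (Q:ℝ) ≤ (Q:ℝ) ^ 2 := by nlinarith
      have e2 : (2:ℝ) ^ a ≤ ((2:ℝ) ^ a) ^ 3 := by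
        have : 1 ≤ ((2:ℝ) ^ a) ^ 2 := one_le_pow₀ hM1
        nlinarith
      have e3 : (Q:ℝ) * (2:ℝ) ^ a ≤ (Q:ℝ) ^ 2 * ((2:ℝ) ^ a) ^ 3 :=
        mul_le_mul e1 e2 (by positivity) (by positivity)
      have e4 : 0 ≤ (Q:ℝ) ^ 2 * ((2:ℝ) ^ a) ^ 3 := by positivity
      nlinarith
    have h6 := mul_le_mul_of_nonneg_right h5 (pow_nonneg rh_pos.le (2 ^ a))
    linarith
  have hjx : j ≤ x := le_trans hjM hMx
  -- the terms
  obtain ⟨hsumhh, z, hz⟩ := rathyp h0 hP (x - j)
  set c : ℝ := fz (-(j : ℤ)) with hc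
  obtain ⟨cz, hcz⟩ := fz_int (-(j : ℤ))
  have hsumfib : Summable (fun n : ℕ => if n ∈ A then 1 / (Nat.fib n : ℝ) else 0) := by
    refine Summable.of_nonneg_of_le (f := fun n : ℕ => √5 * ph * rh ^ n) ?_ ?_ ?_
    · intro n
      split_ifs
      · positivity
      · exact le_rfl
    · intro n
      split_ifs with h
      · exact beta_inv (hpos n h)
      · exact mul_nonneg (mul_nonneg (Real.sqrt_nonneg _) ph_pos.le) (pow_nonneg rh_pos.le _)
    · exact (summable_geometric_of_lt_one rh_pos.le rh_lt_one).mul_left _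
  set F : ℕ → ℝ := fun n => if n ∈ A then hh n (x - j) - c / (Nat.fib n : ℝ) else 0 with hF
  have hFeq : F = fun n => (if n ∈ A then hh n (x - j) else 0) -
      c * (if n ∈ A then 1 / (Nat.fib n : ℝ) else 0) := by
    funext n
    rw [hF]
    by_cases h : n ∈ A
    · simp only [if_pos h]; ring
    · simp only [if_neg h]; ring
  have hFs : Summable F := by
    rw [hFeq]
    exact hsumhh.sub (hsumfib.mul_left c)
  have hFt : (Q:ℝ) * ∑' n, F n = ((z - cz * P : ℤ) : ℝ) := by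
    have h1 : ∑' n, F n = Y A (x - j) - c * ∑' n : ℕ, (if n ∈ A then 1 / (Nat.fib n : ℝ) else 0) := by
      rw [hFeq, hsumhh.tsum_sub (hsumfib.mul_left c), tsum_mul_left]
      rfl
    rw [h1, mul_sub, hz]
    have h2 : (Q:ℝ) * (c * ∑' n : ℕ, (if n ∈ A then 1 / (Nat.fib n : ℝ) else 0)) =
        c * ((Q:ℝ) * ∑' n : ℕ, (if n ∈ A then 1 / (Nat.fib n : ℝ) else 0)) := by ring
    rw [h2, hP, hc, hcz]
    push_cast
    ring
  -- the main part
  set G : ℕ → ℝ := fun n => if n ∈ A ∧ ¬ 2 ^ (a + 1) ∣ n then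
    (if 2 ^ a ∣ n then rh ^ j else F n) else 0 with hG
  have hGsupp : ∀ n, n ∉ range (x + 1) → G n = 0 := by
    intro n hn
    rw [hG]
    apply if_neg
    rintro ⟨h1, h2⟩
    apply hn
    rw [Finset.mem_range]
    exact Nat.lt_succ_of_le (Nat.le_of_dvd hxpos (hdiv n h1 h2))
  have hGs : Summable G := summable_of_ne_finset_zero hGsupp
  have hGt : ∃ w : ℤ, ∑' n, G n = k * rh ^ j + w := by
    rw [tsum_eq_sum hGsupp]
    -- terms off A1 are integers
    have hint : ∀ n ∈ (range (x + 1)).filter (fun n => ¬ (n ∈ A ∧ 2 ^ a ∣ n ∧ ¬ 2 ^ (a + 1) ∣ n)),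
        ∃ w : ℤ, G n = w := by
      intro n hn
      rw [Finset.mem_filter] at hn
      by_cases h : n ∈ A ∧ ¬ 2 ^ (a + 1) ∣ n
      · have h3 : ¬ 2 ^ a ∣ n := fun h4 => hn.2 ⟨h.1, h4, h.2⟩
        have h5 : n ∣ x := hdiv n h.1 h.2
        have hGn : G n = F n := by
          rw [hG]
          simp only
          rw [if_pos h, if_neg h3]
        have hFn : F n = hh n (x - j) - c / (Nat.fib n : ℝ) := by
          rw [hF]
          simp only
          rw [if_pos h.1]
        obtain ⟨m, hm⟩ := h5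
        have hne : Even m := by
          by_contra hodd
          rw [Nat.not_even_iff_odd] at hodd
          apply h3
          have h6 : 2 ^ a ∣ n * m := by
            rw [← hm]; exact Dvd.intro _ rfl
          exact (Nat.Coprime.dvd_mul_right (Nat.Coprime.pow_left a
            (Nat.coprime_two_left.mpr hodd))).mp h6
        have h7 : 2 * n ∣ x := by
          obtain ⟨m', hm'⟩ := hne
          exact ⟨m', by rw [hm, hm']; ring⟩
        have h8 : Even n ∨ 4 * n ∣ x := by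
          by_cases hev : Even n
          · exact Or.inl hev
          · right
            rw [Nat.not_even_iff_odd] at hev
            have h9 : 2 ^ a ∣ n * m := by
              rw [← hm]; exact Dvd.intro _ rfl
            have h10 : 2 ^ a ∣ m := (Nat.Coprime.dvd_mul_left (Nat.Coprime.pow_left a
              (Nat.coprime_two_left.mpr hev))).mp h9
            have h11 : 4 ∣ m := dvd_trans (by
              have : (4:ℕ) = 2 ^ 2 := by norm_num
              rw [this]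
              exact pow_dvd_pow 2 ha2) h10
            obtain ⟨m', hm'⟩ := h11
            exact ⟨m', by rw [hm, hm']; ring⟩
        obtain ⟨w, hw⟩ := beta_even (hpos n h.1) h7 h8 hjx
        exact ⟨w, by rw [hGn, hFn]; exact hw⟩
      · refine ⟨0, ?_⟩
        rw [hG]
        simp only
        rw [if_neg h]
        simp
    have hsplit := Finset.sum_filter_add_sum_filter_not (range (x + 1))
      (fun n => n ∈ A ∧ 2 ^ a ∣ n ∧ ¬ 2 ^ (a + 1) ∣ n) G
    have hA1sum : ∑ n ∈ A1, G n = k * rh ^ j := by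
      rw [Finset.sum_congr rfl (g := fun _ => rh ^ j), Finset.sum_const, nsmul_eq_mul]
      intro n hn
      rw [hA1, Finset.mem_filter] at hn
      rw [hG]
      simp only
      rw [if_pos ⟨hn.2.1, hn.2.2.2⟩, if_pos hn.2.2.1]
    have hrest : ∃ w : ℤ, ∑ n ∈ (range (x + 1)).filter
        (fun n => ¬ (n ∈ A ∧ 2 ^ a ∣ n ∧ ¬ 2 ^ (a + 1) ∣ n)), G n = w := by
      choose! w hw using hint
      refine ⟨∑ n ∈ (range (x + 1)).filter
        (fun n => ¬ (n ∈ A ∧ 2 ^ a ∣ n ∧ ¬ 2 ^ (a + 1) ∣ n)), w n, ?_⟩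
      push_cast
      exact Finset.sum_congr rfl hw
    obtain ⟨w, hw⟩ := hrest
    refine ⟨w, ?_⟩
    rw [← hsplit, hw]
    rw [← hA1, hA1sum]
  obtain ⟨w, hw⟩ := hGt
  -- the error
  set R : ℕ → ℝ := fun n => F n - G n with hR
  have hRs : Summable R := hFs.sub hGs
  have hFGR : ∑' n, F n = ∑' n, G n + ∑' n, R n := by
    rw [hR, hFs.tsum_sub hGs]; ring
  have hB1 : HasSum (fun n : ℕ => if n ∈ range (2 * x + 1) then 2 * ph ^ j * ph * rh ^ (2 ^ a) else 0)
      ((2 * (x:ℝ) + 1) * (2 * ph ^ j * ph * rh ^ (2 ^ a))) := by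
    have h1 : HasSum (fun n : ℕ => if n ∈ range (2 * x + 1) then
        2 * ph ^ j * ph * rh ^ (2 ^ a) else (0:ℝ)) (∑ n ∈ range (2 * x + 1),
        (if n ∈ range (2 * x + 1) then 2 * ph ^ j * ph * rh ^ (2 ^ a) else (0:ℝ))) :=
      hasSum_sum_of_ne_finset_zero (by intro n hn; exact if_neg hn)
    have h2 : ∑ n ∈ range (2 * x + 1),
        (if n ∈ range (2 * x + 1) then 2 * ph ^ j * ph * rh ^ (2 ^ a) else (0:ℝ)) =
        (2 * (x:ℝ) + 1) * (2 * ph ^ j * ph * rh ^ (2 ^ a)) := by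
      rw [Finset.sum_congr rfl (g := fun _ => 2 * ph ^ j * ph * rh ^ (2 ^ a))
        (fun n hn => if_pos hn), Finset.sum_const, Finset.card_range, nsmul_eq_mul]
      push_cast
      ring
    rw [h2] at h1
    exact h1
  have hB2 := (beta_geo (2 * x + 1)).mul_left (ph * rh ^ x)
  have hB3 := (beta_geo (2 ^ a)).mul_left (2 * ph ^ j * ph * rh ^ (2 ^ a))
  have hB := (hB1.add hB2).add hB3
  have hphj0 : 0 ≤ 2 * ph ^ j * ph :=
    mul_nonneg (mul_nonneg (by norm_num) (pow_nonneg ph_pos.le _)) ph_pos.le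
  have hrp : ∀ m : ℕ, 0 ≤ rh ^ m := fun m => pow_nonneg rh_pos.le m
  have hRb : ∀ n, ‖R n‖ ≤ (if n ∈ range (2 * x + 1) then 2 * ph ^ j * ph * rh ^ (2 ^ a) else 0) +
      ph * rh ^ x * (if 2 * x + 1 ≤ n then rh ^ (n - (2 * x + 1)) else 0) +
      2 * ph ^ j * ph * rh ^ (2 ^ a) * (if 2 ^ a ≤ n then rh ^ (n - 2 ^ a) else 0) := by
    intro n
    have t1 : 0 ≤ (if n ∈ range (2 * x + 1) then 2 * ph ^ j * ph * rh ^ (2 ^ a) else (0:ℝ)) := by
      split_ifs
      · exact mul_nonneg hphj0 (hrp _)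
      · exact le_rfl
    have t2 : 0 ≤ ph * rh ^ x * (if 2 * x + 1 ≤ n then rh ^ (n - (2 * x + 1)) else (0:ℝ)) := by
      apply mul_nonneg (mul_nonneg ph_pos.le (hrp _))
      split_ifs
      · exact hrp _
      · exact le_rfl
    have t3 : 0 ≤ 2 * ph ^ j * ph * rh ^ (2 ^ a) *
        (if 2 ^ a ≤ n then rh ^ (n - 2 ^ a) else (0:ℝ)) := by
      apply mul_nonneg (mul_nonneg hphj0 (hrp _))
      split_ifs
      · exact hrp _
      · exact le_rfl
    rw [Real.norm_eq_abs]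
    by_cases hnA : n ∈ A
    · have hn0 := hpos n hnA
      have hFn : F n = hh n (x - j) - c / (Nat.fib n : ℝ) := by
        rw [hF]
        simp only
        rw [if_pos hnA]
      have hci : |c / (Nat.fib n : ℝ)| ≤ 2 * ph ^ j * ph * rh ^ n := beta_cinv hn0
      by_cases hn1 : 2 ^ (a + 1) ∣ n
      · -- far
        have hGn : G n = 0 := by
          rw [hG]
          apply if_neg
          rintro ⟨_, h⟩
          exact h hn1
        have hnM : 2 ^ a ≤ n := le_trans (Nat.pow_le_pow_right (by norm_num) (Nat.le_succ a))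
          (Nat.le_of_dvd hn0 hn1)
        obtain ⟨hf1, hf2⟩ := beta_far (L := L) hn0 hL hjx hn1
        have e3 : 2 * ph ^ j * ph * rh ^ n = 2 * ph ^ j * ph * rh ^ (2 ^ a) *
            (if 2 ^ a ≤ n then rh ^ (n - 2 ^ a) else (0:ℝ)) := by
          rw [if_pos hnM, mul_assoc (2 * ph ^ j * ph), ← pow_add]
          congr 2
          omega
        have e4 : |R n| ≤ |hh n (x - j)| + |c / (Nat.fib n : ℝ)| := by
          show |F n - G n| ≤ _
          rw [hGn, sub_zero, hFn]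
          exact abs_sub _ _
        by_cases hn2 : n ∈ range (2 * x + 1)
        · have e5 : |hh n (x - j)| ≤ (if n ∈ range (2 * x + 1) then
              2 * ph ^ j * ph * rh ^ (2 ^ a) else (0:ℝ)) := by
            rw [if_pos hn2]
            refine le_trans hf1 ?_
            have := mul_nonneg hphj0 (hrp (2 ^ a))
            nlinarith
          rw [e3] at hci
          linarith
        · have hn3 : 2 * x + 1 ≤ n := by
            rw [Finset.mem_range] at hn2
            omega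
          have e5 : |hh n (x - j)| ≤ ph * rh ^ x *
              (if 2 * x + 1 ≤ n then rh ^ (n - (2 * x + 1)) else (0:ℝ)) := by
            rw [if_pos hn3]
            refine le_trans (hf2 (by omega)) ?_
            rw [mul_assoc, ← pow_add]
            apply mul_le_mul_of_nonneg_left _ ph_pos.le
            apply pow_le_pow_of_le_one rh_pos.le rh_lt_one.le
            omega
          rw [e3] at hci
          linarith
      · by_cases hn2 : 2 ^ a ∣ n
        · -- active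
          have hGn : G n = rh ^ j := by
            rw [hG]
            simp only
            rw [if_pos ⟨hnA, hn1⟩, if_pos hn2]
          have hnM : 2 ^ a ≤ n := Nat.le_of_dvd hn0 hn2
          have hnx : n ∣ x := hdiv n hnA hn1
          have hnx' : n ≤ x := Nat.le_of_dvd hxpos hnx
          have hodd : Odd (x / n) := by
            obtain ⟨d, hd⟩ := hn2
            have h1 : d ∣ L := by
              have : 2 ^ a * d ∣ 2 ^ a * L := by rw [← hd]; exact hnx
              exact Nat.dvd_of_mul_dvd_mul_left hMpos this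
            obtain ⟨e, he⟩ := h1
            have h2 : x / n = e := by
              rw [hxdef, he, hd]
              have hd0 : 0 < 2 ^ a * d := by rw [← hd]; exact hn0
              apply Nat.div_eq_of_eq_mul_right hd0
              ring
            rw [h2]
            rw [he] at hL
            exact (Nat.odd_mul.mp hL).2
          have hact := hh_active hn0 hnx hodd hj1 (le_trans hjM hnM)
          have hevn : Even n := (Nat.even_pow.mpr ⟨even_two, by omega⟩).trans_dvd hn2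
          have hevx : Even x := hevn.trans_dvd hnx
          have hsg1 : sg n = 1 := if_pos hevn
          have hsg2 : sg x = 1 := if_pos hevx
          rw [hsg1, hsg2] at hact
          have e3 : 2 * ph ^ j * ph * rh ^ n = 2 * ph ^ j * ph * rh ^ (2 ^ a) *
              (if 2 ^ a ≤ n then rh ^ (n - 2 ^ a) else (0:ℝ)) := by
            rw [if_pos hnM, mul_assoc (2 * ph ^ j * ph), ← pow_add]
            congr 2
            omega
          have e4 : |R n| ≤ |hh n (x - j) - rh ^ j| + |c / (Nat.fib n : ℝ)| := by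
            show |F n - G n| ≤ _
            rw [hGn, hFn]
            have : hh n (x - j) - c / (Nat.fib n : ℝ) - rh ^ j =
              (hh n (x - j) - rh ^ j) - c / (Nat.fib n : ℝ) := by ring
            rw [this]
            exact abs_sub _ _
          have e5 : |hh n (x - j) - rh ^ j| ≤ (if n ∈ range (2 * x + 1) then
              2 * ph ^ j * ph * rh ^ (2 ^ a) else (0:ℝ)) := by
            rw [if_pos (Finset.mem_range.mpr (by omega))]
            have h1 : (((1 * 1 : ℤ)) : ℝ) * rh ^ j = rh ^ j := by norm_num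
            rw [h1] at hact
            refine le_trans hact ?_
            have h2 : rh ^ (2 * n) ≤ rh ^ (2 ^ a) :=
              pow_le_pow_of_le_one rh_pos.le rh_lt_one.le (by omega)
            calc 2 * ph * ph ^ j * rh ^ (2 * n) = 2 * ph ^ j * ph * rh ^ (2 * n) := by ring
              _ ≤ 2 * ph ^ j * ph * rh ^ (2 ^ a) := mul_le_mul_of_nonneg_left h2 hphj0
          rw [e3] at hci
          linarith
        · have hGn : G n = F n := by
            rw [hG]
            simp only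
            rw [if_pos ⟨hnA, hn1⟩, if_neg hn2]
          have : R n = 0 := by
            show F n - G n = 0
            rw [hGn, sub_self]
          rw [this, abs_zero]
          linarith
    · have hFn : F n = 0 := by
        rw [hF]
        simp only
        rw [if_neg hnA]
      have hGn : G n = 0 := by
        rw [hG]
        apply if_neg
        rintro ⟨h, _⟩
        exact hnA h
      have : R n = 0 := by
        show F n - G n = 0
        rw [hGn, hFn, sub_self]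
      rw [this, abs_zero]
      linarith
  have hRt := tsum_of_norm_bounded hB hRb
  rw [Real.norm_eq_abs] at hRt
  have hs : (1 - rh)⁻¹ ≤ 3 := by
    have h1 : (1 - rh)⁻¹ = ph ^ 2 := by
      rw [← rh_sq]
      exact inv_eq_of_mul_eq_one_left (beta_pr 2)
    rw [h1, ph_sq]
    linarith [ph_lt_two]
  have hs0 : 0 ≤ (1 - rh)⁻¹ := inv_nonneg.mpr (by linarith [rh_lt_one])
  have hxM : (x:ℝ) ≤ ((2:ℝ) ^ a) ^ 2 := by
    have h1 : x ≤ 2 ^ a * 2 ^ a := Nat.mul_le_mul_left _ hLa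
    have h2 : (x:ℝ) ≤ (2:ℝ) ^ a * (2:ℝ) ^ a := by exact_mod_cast h1
    rw [sq]; exact h2
  have herr : (Q:ℝ) * |∑' n, R n| < 1 / 10 := by
    refine beta_num (Q:ℝ) k (x:ℝ) ((2:ℝ) ^ a) (ph ^ j) _ (1 - rh)⁻¹ (rh ^ (2 ^ a)) (rh ^ x) hQ1 hM1
      hxM (Nat.cast_nonneg _) hphj (pow_nonneg ph_pos.le _) hs hs0 (pow_pos rh_pos _)
      (pow_le_pow_of_le_one rh_pos.le rh_lt_one.le hMx) (pow_pos rh_pos _) ph ph_lt_two.le ph_pos
      hRt hsmall
  -- conclusion
  have hu1 : (Q:ℝ) * (k * rh ^ j) < 1 / 2 := by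
    have h1 := mul_lt_mul_of_pos_right hj2 (pow_pos rh_pos j)
    rw [beta_pr] at h1
    have h5 : 2 * (Q:ℝ) * k * rh ^ j = 2 * ((Q:ℝ) * (k * rh ^ j)) := by ring
    rw [h5] at h1
    linarith only [h1]
  have hu2 : 1 / 4 < (Q:ℝ) * (k * rh ^ j) := by
    have h1 := mul_le_mul_of_nonneg_right hj3 (pow_nonneg rh_pos.le j)
    have h2 : ph ^ (j - 1) * rh ^ j = rh := by
      have h3 : rh ^ j = rh ^ (j - 1) * rh := by
        rw [← pow_succ]
        congr 1
        omega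
      rw [h3, ← mul_assoc, beta_pr, one_mul]
    rw [h2] at h1
    have h4 : 1 / 2 < rh := by
      have e1 := ph_mul_rh
      have e2 := mul_lt_mul_of_pos_right ph_lt_two rh_pos
      linarith only [e1, e2]
    have h5 : 2 * (Q:ℝ) * k * rh ^ j = 2 * ((Q:ℝ) * (k * rh ^ j)) := by ring
    rw [h5] at h1
    linarith only [h1, h4]
  have hfin : ((z - cz * P - Q * w : ℤ) : ℝ) = (Q:ℝ) * (k * rh ^ j) + (Q:ℝ) * ∑' n, R n := by
    have h1 := hFt
    rw [hFGR, hw] at h1
    push_cast at h1 ⊢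
    linarith
  have habs := abs_lt.mp (show |(Q:ℝ) * ∑' n, R n| < 1 / 10 by
    rw [abs_mul, abs_of_nonneg (by positivity : (0:ℝ) ≤ Q)]; exact herr)
  have hlo : (0:ℝ) < ((z - cz * P - Q * w : ℤ) : ℝ) := by rw [hfin]; linarith [habs.1]
  have hhi : ((z - cz * P - Q * w : ℤ) : ℝ) < 1 := by rw [hfin]; linarith [habs.2]
  have hlo' : 0 < z - cz * P - Q * w := by exact_mod_cast hlo
  have hhi' : z - cz * P - Q * w < 1 := by exact_mod_cast hhi
  omega

end Pool.Agent.Helper75.Fib
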