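import Pool.Agent.Helper75.Fib.Defs

set_option autoImplicit false

/-! Definitions for the proof that the sum of `1 / F_n` over an infinite set `A` of positive
integers with `∑ 1/n < ∞` (`n ∈ A`) is irrational. -/

noncomputable section

namespace Pool.Agent.Helper75.Fib
open Classical Finset


theorem opp {n T : ℕ} (hn : 0 < n)
    (h : ∀ p e : ℕ, p.Prime → p ≠ 2 → p ^ e ∣ n → p ^ e ≤ T) {v : ℕ} (hv : ¬ 2 ^ (v + 1) ∣ n) :
    n ∣ 2 ^ v * T.factorial := by
  rw [Nat.dvd_iff_prime_pow_dvd_dvd]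
  intro p k hp hpk
  by_cases h2 : p = 2
  · subst h2
    have hk : k ≤ v := by
      by_contra hk
      exact hv ((pow_dvd_pow 2 (by omega)).trans hpk)
    exact (pow_dvd_pow 2 hk).mul_right _
  · exact (Nat.dvd_factorial (pow_pos hp.pos k) (h p k hp h2 hpk)).mul_left _

end Pool.Agent.Helper75.Fib
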