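import Pool.Agent.Helper75.Fib.Defs
import Pool.Agent.Helper75.Fib.P_opp

set_option autoImplicit false

/-! Definitions for the proof that the sum of `1 / F_n` over an infinite set `A` of positive
integers with `∑ 1/n < ∞` (`n ∈ A`) is irrational. -/

noncomputable section

namespace Pool.Agent.Helper75.Fib
open Classical Finset


theorem dichotomy_step1 (q₁ : ℕ) : ∃ q₂ : ℕ, q₁ ≤ q₂ ∧ ∀ q : ℕ, q₂ ≤ q →
    (q : ℝ) ^ (8 * q) ≤ (21 / 20 : ℝ) ^ ⌊(21 / 20 : ℝ) ^ q⌋₊ := by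
  have h := tendsto_pow_const_div_const_pow_of_one_lt 2 (by norm_num : (1 : ℝ) < 21 / 20)
  have hc : 0 < Real.log (21 / 20) := Real.log_pos (by norm_num)
  have hc1 : Real.log (21 / 20) ≤ 1 := by
    have := Real.log_le_sub_one_of_pos (by norm_num : (0 : ℝ) < 21 / 20)
    linarith
  obtain ⟨N, hN⟩ := Filter.eventually_atTop.mp
    (h.eventually (gt_mem_nhds (by positivity : 0 < Real.log (21 / 20) / 16)))
  refine ⟨max (max q₁ N) 1, (le_max_left _ _).trans (le_max_left _ _), ?_⟩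
  intro q hq
  have hqN : N ≤ q := (le_max_right _ _).trans ((le_max_left _ _).trans hq)
  have hq1 : 1 ≤ q := (le_max_right _ _).trans hq
  have hq1' : (1 : ℝ) ≤ q := by exact_mod_cast hq1
  have hq0 : (0 : ℝ) < q := by linarith
  have h1 := hN q hqN
  have hb : (0 : ℝ) < (21 / 20) ^ q := by positivity
  rw [div_lt_iff₀ hb] at h1
  have h2 := Nat.lt_floor_add_one ((21 / 20 : ℝ) ^ q)
  have h3 : Real.log q ≤ q := by
    have := Real.log_le_sub_one_of_pos hq0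
    linarith
  have h4 : 0 ≤ Real.log q := Real.log_nonneg hq1'
  rw [← Real.log_le_log_iff (by positivity) (by positivity), Real.log_pow, Real.log_pow]
  push_cast
  have h5 : (q : ℝ) * Real.log q ≤ (q : ℝ) ^ 2 := by nlinarith
  have h6 : (21 / 20 : ℝ) ^ q * Real.log (21 / 20) ≤
      ((⌊(21 / 20 : ℝ) ^ q⌋₊ : ℝ) + 1) * Real.log (21 / 20) :=
    mul_le_mul_of_nonneg_right h2.le hc.le
  have h7 : (1 : ℝ) ≤ (q : ℝ) ^ 2 := by nlinarith
  nlinarith

theorem dichotomy_selfpow {x y : ℕ} (hx : 1 ≤ x) (hxy : x ≤ y) : x ^ x ≤ y ^ y :=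
  (Nat.pow_le_pow_left hxy x).trans (Nat.pow_le_pow_right (hx.trans hxy) hxy)

theorem dichotomy_step2 {A : Set ℕ} (h0 : 0 ∉ A) {q₁ : ℕ} (hG : ¬ Good A q₁) :
    ∃ a₁ : ℕ, ∀ a : ℕ, a₁ ≤ a → ∀ n ∈ A, ¬ 2 ^ (a + 1) ∣ n → ∀ p e : ℕ, p.Prime → p ≠ 2 →
      p ^ e ∣ n → (p ^ e) ^ (p ^ e) ≤ 2 ^ a := by
  obtain ⟨q₂, hq12, hq2⟩ := dichotomy_step1 q₁
  refine ⟨(max q₂ 3) ^ (max q₂ 3), ?_⟩
  intro a ha n hn h2n
  have hn0 : 0 < n := Nat.pos_of_ne_zero (fun h => h0 (h ▸ hn))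
  let S : Finset ℕ := (range (n + 1)).filter (fun t => ∃ p e : ℕ, p.Prime ∧ p ≠ 2 ∧ t = p ^ e ∧ t ∣ n)
  have hSne : S.Nonempty := by
    refine ⟨1, ?_⟩
    rw [Finset.mem_filter, Finset.mem_range]
    exact ⟨by omega, 3, 0, Nat.prime_three, by norm_num, by norm_num, one_dvd _⟩
  obtain ⟨T, hTS, hTmax⟩ := S.exists_max_image id hSne
  have hmax : ∀ p e : ℕ, p.Prime → p ≠ 2 → p ^ e ∣ n → p ^ e ≤ T := by
    intro p e hp hp2 hpe
    apply hTmax (p ^ e)
    rw [Finset.mem_filter, Finset.mem_range]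
    exact ⟨Nat.lt_succ_of_le (Nat.le_of_dvd hn0 hpe), p, e, hp, hp2, rfl, hpe⟩
  rw [Finset.mem_filter] at hTS
  obtain ⟨-, p, e, hp, hp2, hTe, hTn⟩ := hTS
  by_cases hcase : T ^ T ≤ 2 ^ a
  · intro p' e' hp' hp2' hpe'
    exact (dichotomy_selfpow (Nat.one_le_pow _ _ hp'.pos) (hmax p' e' hp' hp2' hpe')).trans hcase
  · exfalso
    push Not at hcase
    set Q := max q₂ 3 with hQ
    have hQ3 : 3 ≤ Q := le_max_right _ _
    have hQT : Q < T := by
      by_contra hle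
      push Not at hle
      have hT1 : 1 ≤ T := by
        rcases Nat.eq_zero_or_pos T with h | h
        · rw [h] at hTe
          have : 0 < p ^ e := pow_pos hp.pos e
          omega
        · exact h
      have h1 := dichotomy_selfpow hT1 hle
      have h2 : Q ^ Q ≤ a := ha
      have h3 : a < 2 ^ a := Nat.lt_two_pow_self
      omega
    have hT0 : 0 < T := by omega
    apply hG
    refine ⟨p, e, n, hp, hp2, ?_, ?_, hn, ?_, ?_, ?_⟩
    · by_contra he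
      have he0 : e = 0 := by omega
      rw [he0, pow_zero] at hTe
      omega
    · rw [← hTe]
      have : q₂ ≤ Q := le_max_left _ _
      omega
    · rw [← hTe]; exact hTn
    · intro r hr hrn
      rw [← hTe]
      by_cases hr2 : r = 2
      · omega
      · have := hmax r 1 hr hr2 (by rwa [pow_one])
        rwa [pow_one] at this
    · rw [← hTe]
      have h1 : n ∣ 2 ^ a * T.factorial := opp hn0 hmax h2n
      have h2 : n ≤ 2 ^ a * T.factorial := Nat.le_of_dvd (by positivity) h1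
      have h3 : T.factorial ≤ T ^ T := Nat.factorial_le_pow T
      have h4 : n ≤ T ^ T * T ^ T := h2.trans (Nat.mul_le_mul hcase.le h3)
      have h5 : n ^ 4 ≤ T ^ (8 * T) := by
        calc n ^ 4 ≤ (T ^ T * T ^ T) ^ 4 := Nat.pow_le_pow_left h4 4
          _ = T ^ (8 * T) := by rw [← pow_add, ← pow_mul]; congr 1; ring
      have h6 : (n : ℝ) ^ 4 ≤ (T : ℝ) ^ (8 * T) := by exact_mod_cast h5
      refine h6.trans (hq2 T ?_)
      have : q₂ ≤ Q := le_max_left _ _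
      omega

theorem dichotomy_step3 {A : Set ℕ} (h0 : 0 ∉ A) {q₁ : ℕ} (hG : ¬ Good A q₁) :
    ∃ a₁ : ℕ, ∀ a : ℕ, a₁ ≤ a → ∃ L : ℕ, Odd L ∧ L ≤ 2 ^ a ∧
      (∀ n : ℕ, n ∈ A → ¬ 2 ^ (a + 1) ∣ n → n ∣ 2 ^ a * L) := by
  obtain ⟨a₁, ha₁⟩ := dichotomy_step2 h0 hG
  refine ⟨a₁, fun a ha => ?_⟩
  let S : Finset ℕ := (range (2 ^ a + 1)).filter (fun t => t ^ t ≤ 2 ^ a)
  have hSne : S.Nonempty := by
    refine ⟨1, ?_⟩
    rw [Finset.mem_filter, Finset.mem_range]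
    have : 1 ≤ 2 ^ a := Nat.one_le_two_pow
    exact ⟨by omega, by simpa using this⟩
  obtain ⟨T, hTS, hTmax⟩ := S.exists_max_image id hSne
  rw [Finset.mem_filter] at hTS
  have hmax : ∀ t : ℕ, t ^ t ≤ 2 ^ a → t ≤ T := by
    intro t ht
    apply hTmax t
    rw [Finset.mem_filter, Finset.mem_range]
    refine ⟨?_, ht⟩
    rcases Nat.eq_zero_or_pos t with h | h
    · rw [h]; positivity
    · have : t ^ 1 ≤ t ^ t := Nat.pow_le_pow_right h h
      rw [pow_one] at this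
      omega
  have hfac : T.factorial ≠ 0 := Nat.factorial_ne_zero T
  refine ⟨ordCompl[2] T.factorial, ?_, ?_, ?_⟩
  · rw [← Nat.not_even_iff_odd, even_iff_two_dvd]
    exact Nat.not_dvd_ordCompl Nat.prime_two hfac
  · exact (Nat.ordCompl_le _ _).trans ((Nat.factorial_le_pow T).trans hTS.2)
  · intro n hn h2n
    have hn0 : n ≠ 0 := fun h => h0 (h ▸ hn)
    have h1 : n ∣ 2 ^ a * T.factorial := by
      apply opp (Nat.pos_of_ne_zero hn0) _ h2n
      intro p e hp hp2 hpe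
      exact hmax _ (ha₁ a ha n hn h2n p e hp hp2 hpe)
    have h3 : n = 2 ^ (n.factorization 2) * ordCompl[2] n := (Nat.ordProj_mul_ordCompl_eq_self n 2).symm
    have h4 : n.factorization 2 ≤ a := by
      by_contra hlt
      push Not at hlt
      apply h2n
      exact (pow_dvd_pow 2 hlt).trans (Nat.ordProj_dvd n 2)
    have h5 : ordCompl[2] n ∣ ordCompl[2] T.factorial := by
      have h6 : ordCompl[2] n ∣ 2 ^ a * T.factorial := (Nat.ordCompl_dvd n 2).trans h1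
      have h7 : T.factorial = 2 ^ (T.factorial.factorization 2) * ordCompl[2] T.factorial :=
        (Nat.ordProj_mul_ordCompl_eq_self _ 2).symm
      have hcop : Nat.Coprime (ordCompl[2] n) 2 := (Nat.coprime_ordCompl Nat.prime_two hn0).symm
      rw [h7, ← mul_assoc, ← pow_add] at h6
      exact (Nat.Coprime.pow_right _ hcop).dvd_of_dvd_mul_left h6
    calc n = 2 ^ (n.factorization 2) * ordCompl[2] n := h3
      _ ∣ 2 ^ a * ordCompl[2] T.factorial := Nat.mul_dvd_mul (pow_dvd_pow 2 h4) h5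

theorem dichotomy {A : Set ℕ} (h0 : 0 ∉ A) (hinf : A.Infinite) {q₁ : ℕ} (hG : ¬ Good A q₁)
    (a₀ : ℕ) : ∃ a : ℕ, a₀ ≤ a ∧ ∃ L : ℕ, Odd L ∧ L ≤ 2 ^ a ∧
      (∀ n : ℕ, n ∈ A → ¬ 2 ^ (a + 1) ∣ n → n ∣ 2 ^ a * L) ∧
        ∃ n : ℕ, n ∈ A ∧ 2 ^ a ∣ n ∧ ¬ 2 ^ (a + 1) ∣ n := by
  obtain ⟨a₁, ha₁⟩ := dichotomy_step3 h0 hG
  obtain ⟨n, hnA, hn⟩ : ∃ n ∈ A, 2 ^ (max a₀ a₁) ∣ n := by
    by_contra hcon
    push Not at hcon
    obtain ⟨L, hL, -, hdiv⟩ := ha₁ (max a₀ a₁) (le_max_right _ _)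
    apply hinf
    refine Set.Finite.subset (Finset.finite_toSet (Nat.divisors (2 ^ (max a₀ a₁) * L))) ?_
    intro n hn
    rw [Finset.mem_coe, Nat.mem_divisors]
    refine ⟨hdiv n hn (fun h => hcon n hn ((pow_dvd_pow 2 (Nat.le_succ _)).trans h)), ?_⟩
    have := hL.pos
    positivity
  have hn0 : n ≠ 0 := fun h => h0 (h ▸ hnA)
  have h1 : max a₀ a₁ ≤ n.factorization 2 :=
    (Nat.Prime.pow_dvd_iff_le_factorization Nat.prime_two hn0).mp hn
  obtain ⟨L, hL, hL2, hdiv⟩ := ha₁ (n.factorization 2) ((le_max_right _ _).trans h1)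
  refine ⟨n.factorization 2, (le_max_left _ _).trans h1, L, hL, hL2, hdiv, n, hnA,
    Nat.ordProj_dvd n 2, ?_⟩
  exact Nat.pow_succ_factorization_not_dvd hn0 Nat.prime_two

end Pool.Agent.Helper75.Fib
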