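import Pool.Agent.Helper75.Fib.Defs
import Pool.Agent.Helper75.Fib.P_rathyp
import Pool.Agent.Helper75.Fib.P_alpha
import Pool.Agent.Helper75.Fib.P_beta
import Pool.Agent.Helper75.Fib.P_dichotomy

set_option autoImplicit false

/-! Definitions for the proof that the sum of `1 / F_n` over an infinite set `A` of positive
integers with `∑ 1/n < ∞` (`n ∈ A`) is irrational. -/

noncomputable section

namespace Pool.Agent.Helper75.Fib
open Classical Finset


theorem main_set {A : Set ℕ} (h0 : 0 ∉ A) (hinf : A.Infinite)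
    (hS : Summable fun n : ℕ => if n ∈ A then 1 / (n : ℝ) else 0) :
    Irrational (∑' n : ℕ, (if n ∈ A then 1 / (Nat.fib n : ℝ) else 0)) := by
  rintro ⟨q, hq⟩
  have hQ : 0 < q.den := q.den_pos
  have hP : ((q.den : ℕ) : ℝ) * ∑' n : ℕ, (if n ∈ A then 1 / (Nat.fib n : ℝ) else 0) =
      ((q.num : ℤ) : ℝ) := by
    rw [← hq]
    have h1 : (q.den : ℚ) * q = q.num := Rat.den_mul_eq_num q
    exact_mod_cast h1
  have hR : RatHyp A q.den := rathyp h0 hP
  obtain ⟨q₁, hG⟩ := alpha h0 hS hQ hR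
  obtain ⟨a₁, hb⟩ := beta h0 hQ hP
  obtain ⟨a, ha, L, hL, hL2, h1, h2⟩ := dichotomy h0 hinf hG a₁
  exact hb a ha L hL hL2 h1 h2

end Pool.Agent.Helper75.Fib
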