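import Pool.Agent.Helper75.Fib.Defs
import Pool.Agent.Helper75.Fib.P_main_set

set_option autoImplicit false

/-! Definitions for the proof that the sum of `1 / F_n` over an infinite set `A` of positive
integers with `∑ 1/n < ∞` (`n ∈ A`) is irrational. -/

noncomputable section

namespace Pool.Agent.Helper75.Fib
open Classical Finset


theorem main_seq (n : ℕ → ℕ) (hn : StrictMono n) (hpos : ∀ k, 0 < n k)
    (hs : Summable fun k : ℕ => (1 : ℝ) / (n k : ℝ)) :
    Irrational (∑' k : ℕ, (1 : ℝ) / (Nat.fib (n k) : ℝ)) := by
  have h0 : 0 ∉ Set.range n := by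
    rintro ⟨k, hk⟩
    have := hpos k
    omega
  have hinf : (Set.range n).Infinite := Set.infinite_range_of_injective hn.injective
  have hS : Summable fun m : ℕ => if m ∈ Set.range n then 1 / (m : ℝ) else 0 := by
    rw [← Function.Injective.summable_iff hn.injective (fun x hx => if_neg hx)]
    refine hs.congr fun k => ?_
    simp only [Function.comp]
    rw [if_pos (Set.mem_range_self k)]
  have key := main_set h0 hinf hS
  have e : ∑' k : ℕ, (1 : ℝ) / (Nat.fib (n k) : ℝ) =
      ∑' m : ℕ, (if m ∈ Set.range n then 1 / (Nat.fib m : ℝ) else 0) := by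
    rw [← Function.Injective.tsum_eq hn.injective
      (f := fun m : ℕ => if m ∈ Set.range n then 1 / (Nat.fib m : ℝ) else 0)
      (Function.support_subset_iff'.2 fun x hx => if_neg hx)]
    refine tsum_congr fun k => ?_
    rw [if_pos (Set.mem_range_self k)]
  rw [e]
  exact key

end Pool.Agent.Helper75.Fib
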